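import Pool.Agent.R303.Rob.Rel

/-! # Bounds for the moments at a real centre and at a complex centre -/

set_option autoImplicit false

open Complex MeasureTheory Filter Topology Set

namespace Pool.Agent.R303.Rob

noncomputable section

variable {e : ℝ → ℝ}

/-- the moments of a function which tends to zero -/
theorem LT_small {b : ℝ → ℝ} (hb : Continuous b) (hB : ∃ K, ∀ t, |b t| ≤ K)
    (h0 : Tendsto b atTop (𝓝 0)) {r : ℝ} (hr : 0 < r) :
    Tendsto (fun n : ℕ => (r : ℂ) ^ n / n.factorial * LT b n r) atTop (𝓝 0) := by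
  obtain ⟨K, hK⟩ := hB
  have hK0 : 0 ≤ K := (abs_nonneg _).trans (hK 0)
  rw [tendsto_zero_iff_norm_tendsto_zero]
  rw [Metric.tendsto_atTop]
  intro ε hε
  set η : ℝ := ε * r / 2 with hη
  have hη0 : 0 < η := by positivity
  obtain ⟨T, hT⟩ := (Metric.tendsto_atTop.1 h0) η hη0
  set T1 : ℝ := max T 1 with hT1
  have hT11 : 1 ≤ T1 := le_max_right _ _
  have hpt : ∀ t, 1 < t → |b t| ≤ η + K * (if t ≤ T1 then 1 else 0) := by
    intro t ht
    split_ifs with h
    · have := hK t
      linarith
    · have h1 := hT t (by have := le_max_left T 1; linarith [not_le.1 h])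
      rw [Real.dist_eq, sub_zero] at h1
      linarith
  have hfac : Tendsto (fun n : ℕ => K * T1 * (r * T1) ^ n / n.factorial) atTop (𝓝 0) := by
    have := (FloorSemiring.tendsto_pow_div_factorial_atTop (r * T1)).const_mul (K * T1)
    rw [mul_zero] at this
    refine this.congr fun n => ?_
    ring
  obtain ⟨N, hN⟩ := (Metric.tendsto_atTop.1 hfac) (ε / 2) (by positivity)
  refine ⟨N, fun n hn => ?_⟩
  have hN' := hN n hn
  rw [Real.dist_eq, sub_zero, abs_of_nonneg (by positivity)] at hN'
  rw [Real.dist_eq, sub_zero, abs_of_nonneg (norm_nonneg _)]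
  have hfp : (0:ℝ) < n.factorial := by exact_mod_cast n.factorial_pos
  have hm : Measurable b := hb.measurable
  have h1 : ‖LT b n (r : ℂ)‖ ≤ ∫ t in Ioi (1:ℝ), |b t| * (t ^ n * Real.exp (-r * t)) := by
    unfold LT
    refine (norm_integral_le_integral_norm _).trans (le_of_eq ?_)
    refine setIntegral_congr_fun measurableSet_Ioi fun t ht => ?_
    have ht1 : (1:ℝ) < t := ht
    rw [norm_integrand, abs_mul, abs_of_pos (by positivity : (0:ℝ) < t ^ n), ofReal_re]
    ring
  have hg := gamma_int1 n r hr
  have h2 : ∫ t in Ioi (1:ℝ), |b t| * (t ^ n * Real.exp (-r * t)) ≤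
      η * (n.factorial / r ^ (n + 1)) + K * T1 ^ n * T1 := by
    have hI2 : IntegrableOn (fun t : ℝ => K * T1 ^ n * (Ioc (1:ℝ) T1).indicator (fun _ => (1:ℝ)) t) (Ioi 1) := by
      refine Integrable.const_mul ?_ _
      refine Integrable.integrableOn ?_
      rw [integrable_indicator_iff measurableSet_Ioc]
      exact integrableOn_const (by simp) (by simp)
    have h3 : ∫ t in Ioi (1:ℝ), |b t| * (t ^ n * Real.exp (-r * t)) ≤
        ∫ t in Ioi (1:ℝ), (η * (t ^ n * Real.exp (-r * t)) +
          K * T1 ^ n * (Ioc (1:ℝ) T1).indicator (fun _ => (1:ℝ)) t) := by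
      refine integral_mono_of_nonneg ?_ ((hg.1.const_mul η).add hI2) ?_
      · refine (ae_restrict_iff' measurableSet_Ioi).2 (ae_of_all _ fun t ht => ?_)
        have ht1 : (1:ℝ) < t := ht
        simp only [Pi.zero_apply]
        positivity
      · refine (ae_restrict_iff' measurableSet_Ioi).2 (ae_of_all _ fun t ht => ?_)
        have ht1 : (1:ℝ) < t := ht
        have h5 := hpt t ht1
        have h6 : 0 < t ^ n * Real.exp (-r * t) := by positivity
        simp only
        by_cases h : t ≤ T1
        · rw [if_pos h, mul_one] at h5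
          rw [indicator_of_mem (show t ∈ Ioc 1 T1 from ⟨ht1, h⟩), mul_one]
          have h7 : t ^ n * Real.exp (-r * t) ≤ T1 ^ n := by
            have a1 : t ^ n ≤ T1 ^ n := pow_le_pow_left₀ (by linarith) h n
            have a2 : Real.exp (-r * t) ≤ 1 := by
              rw [Real.exp_le_one_iff]
              nlinarith
            calc t ^ n * Real.exp (-r * t) ≤ T1 ^ n * 1 := by gcongr
              _ = _ := mul_one _
          calc |b t| * (t ^ n * Real.exp (-r * t)) ≤ (η + K) * (t ^ n * Real.exp (-r * t)) := by gcongr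
            _ = η * (t ^ n * Real.exp (-r * t)) + K * (t ^ n * Real.exp (-r * t)) := by ring
            _ ≤ _ := by gcongr
        · rw [if_neg h, mul_zero, add_zero] at h5
          rw [indicator_of_notMem (show t ∉ Ioc 1 T1 from fun h' => h h'.2), mul_zero, add_zero]
          gcongr
    refine h3.trans ?_
    rw [integral_add (hg.1.const_mul η) hI2, integral_const_mul, integral_const_mul]
    have h8 : ∫ t in Ioi (1:ℝ), (Ioc (1:ℝ) T1).indicator (fun _ => (1:ℝ)) t ≤ T1 := by
      rw [setIntegral_indicator measurableSet_Ioc]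
      have : Ioi (1:ℝ) ∩ Ioc 1 T1 = Ioc 1 T1 := by
        ext x; simp only [mem_inter_iff, mem_Ioi, mem_Ioc]; tauto
      rw [this]
      simp
      linarith
    have h9 := hg.2
    have h10 : 0 ≤ K * T1 ^ n := by positivity
    gcongr
  rw [norm_mul, norm_div, norm_pow, Complex.norm_real, Real.norm_eq_abs, abs_of_pos hr,
    Complex.norm_natCast]
  calc r ^ n / n.factorial * ‖LT b n (r : ℂ)‖
      ≤ r ^ n / n.factorial * (η * (n.factorial / r ^ (n + 1)) + K * T1 ^ n * T1) := by
        refine mul_le_mul_of_nonneg_left (h1.trans h2) (by positivity)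
    _ = η / r + K * T1 * (r * T1) ^ n / n.factorial := by
        rw [mul_pow]
        field_simp
        ring
    _ < ε := by
        have : η / r = ε / 2 := by rw [hη]; field_simp
        linarith

/-- factorials beat powers -/
theorem fact_big (A R : ℝ) (hR : 0 < R) : ∀ᶠ n : ℕ in atTop, A ≤ n.factorial / R ^ n := by
  have h := FloorSemiring.tendsto_pow_div_factorial_atTop R
  have h2 : ∀ᶠ n : ℕ in atTop, R ^ n / n.factorial < 1 / (|A| + 1) :=
    h.eventually (gt_mem_nhds (by positivity))
  filter_upwards [h2] with n hn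
  have hfp : (0:ℝ) < n.factorial := by exact_mod_cast n.factorial_pos
  have hRn : 0 < R ^ n := by positivity
  rw [div_lt_div_iff₀ hfp (by positivity), one_mul] at hn
  rw [le_div_iff₀ hRn]
  have := le_abs_self A
  nlinarith

/-- the moments at a real centre -/
theorem real_center (he : Adm e) {r R M : ℝ} (hr : 0 < r) (hrR : r < R) (hM : 0 < M)
    (h : ∀ n : ℕ, ‖LT e n r‖ ≤ M * n.factorial / R ^ n) :
    ∃ M' : ℝ, 0 < M' ∧ ∀ n : ℕ, ‖LT (bb e) n r‖ ≤ M' * n.factorial / R ^ n := by
  have hR : 0 < R := hr.trans hrR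
  have hre : 0 < ((r : ℝ) : ℂ).re := by simpa using hr
  set q : ℝ := r / R with hq
  have hq1 : q < 1 := by rw [hq, div_lt_one hR]; exact hrR
  have hq0 : 0 < q := by positivity
  -- `R ^ n / n!` is bounded
  obtain ⟨B1, hB1⟩ : ∃ B : ℝ, ∀ n : ℕ, R ^ n / n.factorial ≤ B := by
    have := (FloorSemiring.tendsto_pow_div_factorial_atTop R).bddAbove_range
    obtain ⟨B, hB⟩ := this
    exact ⟨B, fun n => hB ⟨n, rfl⟩⟩
  have hB10 : 0 < B1 := by
    have := hB1 0
    simp at this
    linarith
  set c : ℕ → ℂ := fun n => (bb e 1 : ℂ) * cexp (-(r : ℂ)) + LT (fun t => e t * wt t) n r with hc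
  have hcn : ∀ n : ℕ, ‖c (n + 1)‖ ≤ (|bb e 1| * B1 + ‖LT (fun t => e t * wt t) 1 r‖ * R + M * (R ^ 2 + R)) *
      (n + 1).factorial / R ^ (n + 1) := by
    intro n
    have hfp : (0:ℝ) < (n + 1).factorial := by exact_mod_cast (n + 1).factorial_pos
    have h1 : ‖(bb e 1 : ℂ) * cexp (-(r : ℂ))‖ ≤ (|bb e 1| * B1) * (n + 1).factorial / R ^ (n + 1) := by
      rw [norm_mul, Complex.norm_real, Real.norm_eq_abs, Complex.norm_exp]
      have h2 : Real.exp (-(r:ℂ)).re ≤ 1 := by
        rw [Real.exp_le_one_iff]
        simp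
        linarith
      have h3 := hB1 (n + 1)
      rw [div_le_iff₀ hfp] at h3
      calc |bb e 1| * Real.exp (-(r:ℂ)).re ≤ |bb e 1| * 1 := by gcongr
        _ ≤ |bb e 1| * (B1 * (n + 1).factorial / R ^ (n + 1)) := by
            gcongr
            rw [le_div_iff₀ (by positivity), one_mul]
            exact h3
        _ = _ := by ring
    have h2 : ‖LT (fun t => e t * wt t) (n + 1) r‖ ≤
        (‖LT (fun t => e t * wt t) 1 r‖ * R + M * (R ^ 2 + R)) * (n + 1).factorial / R ^ (n + 1) := by
      rcases n with _ | n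
      · simp only [zero_add, Nat.factorial_one, Nat.cast_one, mul_one, pow_one]
        rw [add_div, mul_div_assoc, div_self hR.ne', mul_one]
        have : 0 ≤ M * (R ^ 2 + R) / R := by positivity
        linarith
      · rw [wt_moment he n hre]
        have a1 := h n
        have a2 := h (n + 1)
        have a3 := norm_add_le (LT e n r) (LT e (n + 1) r)
        have hf1 : (n.factorial : ℝ) ≤ (n + 1 + 1).factorial := by
          exact_mod_cast Nat.factorial_le (by omega)
        have hf2 : ((n + 1).factorial : ℝ) ≤ (n + 1 + 1).factorial := by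
          exact_mod_cast Nat.factorial_le (by omega)
        have b1 : M * n.factorial / R ^ n ≤ M * R ^ 2 * (n + 1 + 1).factorial / R ^ (n + 1 + 1) := by
          rw [div_le_div_iff₀ (by positivity) (by positivity)]
          calc M * n.factorial * R ^ (n + 1 + 1) ≤ M * (n + 1 + 1).factorial * R ^ (n + 1 + 1) := by gcongr
            _ = M * R ^ 2 * (n + 1 + 1).factorial * R ^ n := by ring
        have b2 : M * (n + 1).factorial / R ^ (n + 1) ≤ M * R * (n + 1 + 1).factorial / R ^ (n + 1 + 1) := by
          rw [div_le_div_iff₀ (by positivity) (by positivity)]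
          calc M * (n + 1).factorial * R ^ (n + 1 + 1) ≤ M * (n + 1 + 1).factorial * R ^ (n + 1 + 1) := by gcongr
            _ = M * R * (n + 1 + 1).factorial * R ^ (n + 1) := by ring
        have b3 : 0 ≤ ‖LT (fun t => e t * wt t) 1 r‖ * R * (n + 1 + 1).factorial / R ^ (n + 1 + 1) := by positivity
        calc ‖LT e n r + LT e (n + 1) r‖ ≤ _ := a3
          _ ≤ M * R ^ 2 * (n + 1 + 1).factorial / R ^ (n + 1 + 1) + M * R * (n + 1 + 1).factorial / R ^ (n + 1 + 1) := by
              linarith
          _ ≤ _ := by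
              have : (‖LT (fun t => e t * wt t) 1 r‖ * R + M * (R ^ 2 + R)) * (n + 1 + 1).factorial / R ^ (n + 1 + 1) =
                ‖LT (fun t => e t * wt t) 1 r‖ * R * (n + 1 + 1).factorial / R ^ (n + 1 + 1) +
                (M * R ^ 2 * (n + 1 + 1).factorial / R ^ (n + 1 + 1) + M * R * (n + 1 + 1).factorial / R ^ (n + 1 + 1)) := by
                ring
              rw [this]
              linarith
    calc ‖c (n + 1)‖ ≤ _ := norm_add_le _ _
      _ ≤ _ := add_le_add h1 h2
      _ = _ := by ring
  set C3 : ℝ := |bb e 1| * B1 + ‖LT (fun t => e t * wt t) 1 r‖ * R + M * (R ^ 2 + R) with hC3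
  have hC30 : 0 < C3 := by positivity
  set u : ℕ → ℂ := fun n => (r : ℂ) ^ n / n.factorial * LT (bb e) n r with hu
  have hrc : (r : ℂ) ≠ 0 := by exact_mod_cast hr.ne'
  have hstep : ∀ n : ℕ, dist (u n) (u (n + 1)) ≤ C3 / R * q ^ n := by
    intro n
    have hid := bb_moment he n (r : ℂ) hre
    have hfc : ((n + 1).factorial : ℂ) ≠ 0 := by exact_mod_cast (n + 1).factorial_ne_zero
    have hfc' : (n.factorial : ℂ) ≠ 0 := by exact_mod_cast n.factorial_ne_zero
    have hn1 : ((n : ℂ) + 1) ≠ 0 := by exact_mod_cast (Nat.succ_ne_zero n)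
    have e1 : u (n + 1) - u n = c (n + 1) * ((r : ℂ) ^ n / (n + 1).factorial) := by
      rw [hu, hc]
      simp only
      rw [← hid, Nat.factorial_succ]
      push_cast
      field_simp
      ring
    have hfp : (0:ℝ) < (n + 1).factorial := by exact_mod_cast (n + 1).factorial_pos
    rw [dist_comm, dist_eq_norm, e1, norm_mul, norm_div, norm_pow, Complex.norm_real, Real.norm_eq_abs,
      abs_of_pos hr, Complex.norm_natCast]
    calc ‖c (n + 1)‖ * (r ^ n / (n + 1).factorial)
        ≤ (C3 * (n + 1).factorial / R ^ (n + 1)) * (r ^ n / (n + 1).factorial) :=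
          mul_le_mul_of_nonneg_right (hcn n) (by positivity)
      _ = _ := by
          rw [hq, div_pow]
          field_simp
          ring
  have hlim : Tendsto u atTop (𝓝 0) := LT_small (bb_cont he) ⟨_, bb_bdd he⟩ (bb_tendsto he) hr
  refine ⟨C3 / R / (1 - q), div_pos (by positivity) (by linarith), fun n => ?_⟩
  have h1 := dist_le_of_le_geometric_of_tendsto q (C3 / R) hq1 hstep hlim n
  rw [dist_zero_right, hu] at h1
  simp only at h1
  rw [norm_mul, norm_div, norm_pow, Complex.norm_real, Real.norm_eq_abs, abs_of_pos hr,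
    Complex.norm_natCast] at h1
  have hfp : (0:ℝ) < n.factorial := by exact_mod_cast n.factorial_pos
  have hrn : 0 < r ^ n / n.factorial := by positivity
  have h1q : 0 < 1 - q := by linarith
  have h2 : ‖LT (bb e) n r‖ ≤ (C3 / R * q ^ n / (1 - q)) / (r ^ n / n.factorial) := by
    rw [le_div_iff₀ hrn]
    linarith
  refine h2.trans (le_of_eq ?_)
  rw [hq, div_pow]
  field_simp

end

end Pool.Agent.R303.Rob
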