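import Pool.Agent.R303.Rob.Lo3

/-! # The exponents of the numbers of exceptions -/

set_option autoImplicit false

open Finset Filter Topology

namespace Pool.Agent.R303.Rob

noncomputable section

open H353 (FF)

/-- from windows to all large `x` -/
theorem transfer (F : ℝ → ℕ) (hF : Monotone F) {b1 κ κ' : ℝ} (hκ : 0 < κ) (hκ' : κ < κ') (hκ1 : κ' ≤ 1)
    (hwin : ∀ δ : ℝ, 0 < δ → δ < 1 → ∀ᶠ v : ℝ in atTop, ∃ t, 1 < t ∧ (1 - δ) * v ≤ t ∧ t ≤ (1 + δ) * v ∧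
      Real.exp (-b1 * t) ≤ bb ethe t)
    (hswap : ∀ᶠ y : ℝ in atTop, y ^ (-b1) ≤ bb ethe (Real.log y) → 2 ^ ⌊y ^ κ'⌋₊ ≤ F (Real.exp (2 * y))) :
    ∀ᶠ x : ℝ in atTop, Real.exp (Real.log x ^ κ) ≤ F x := by
  set δ : ℝ := (κ' - κ) / (4 * κ') with hδ
  have hκ'0 : 0 < κ' := by linarith
  have hδ0 : 0 < δ := by
    have : 0 < κ' - κ := by linarith
    positivity
  have hδ1 : δ < 1 / 2 := by
    rw [hδ, div_lt_iff₀ (by positivity)]
    linarith
  have hδκ : δ * (4 * κ') = κ' - κ := by rw [hδ]; field_simp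
  set κ'' : ℝ := κ' * (1 - δ) / (1 + δ) with hκ''
  have h1 : κ < κ'' := by
    rw [hκ'', lt_div_iff₀ (by linarith)]
    nlinarith
  have h2 : κ'' ≤ 1 := by
    rw [hκ'', div_le_one (by linarith)]
    nlinarith
  obtain ⟨Y0, hY0⟩ := eventually_atTop.1 hswap
  obtain ⟨v0, hv0⟩ := eventually_atTop.1 (hwin δ hδ0 (by linarith))
  -- as a function of `u = log x`
  have key : ∀ᶠ u : ℝ in atTop, 6 * u ^ κ ≤ u ^ κ'' ∧ 3 ≤ u ∧ v0 ≤ Real.log (u / 2) / (1 + δ) ∧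
      Y0 ≤ Real.exp ((1 - δ) * (Real.log (u / 2) / (1 + δ))) := by
    have t1 : Tendsto (fun u : ℝ => Real.log (u / 2) / (1 + δ)) atTop atTop := by
      refine Tendsto.atTop_div_const (by linarith) ?_
      exact Real.tendsto_log_atTop.comp (tendsto_id.atTop_div_const (by norm_num))
    have t2 : Tendsto (fun u : ℝ => Real.exp ((1 - δ) * (Real.log (u / 2) / (1 + δ)))) atTop atTop :=
      Real.tendsto_exp_atTop.comp (t1.const_mul_atTop (by linarith))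
    filter_upwards [plog κ κ'' 6 h1, eventually_ge_atTop 3, t1.eventually_ge_atTop v0,
      t2.eventually_ge_atTop Y0] with u a1 a2 a3 a4
    refine ⟨?_, a2, a3, a4⟩
    have := log_one_le a2
    have h3 : 0 < 6 * u ^ κ := by positivity
    nlinarith
  filter_upwards [Real.tendsto_log_atTop.eventually key, eventually_gt_atTop 1] with x hx hx1
  obtain ⟨a1, a2, a3, a4⟩ := hx
  set u : ℝ := Real.log x with hu
  set v : ℝ := Real.log (u / 2) / (1 + δ) with hv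
  obtain ⟨t, ht1, ht2, ht3, ht4⟩ := hv0 v a3
  set y : ℝ := Real.exp t with hy
  have hyY : Y0 ≤ y := a4.trans (Real.exp_le_exp.2 ht2)
  have hly : Real.log y = t := Real.log_exp t
  have hy0 : 0 < y := Real.exp_pos t
  have hyb : y ^ (-b1) = Real.exp (-b1 * t) := by
    rw [hy, ← Real.exp_mul]; congr 1; ring
  have h3 := hY0 y hyY (by rw [hly, hyb]; exact ht4)
  have hyu : 2 * y ≤ u := by
    have h4 : t ≤ Real.log (u / 2) := by
      refine ht3.trans (le_of_eq ?_)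
      rw [hv]
      have : (1 + δ) ≠ 0 := by linarith
      field_simp
    have h5 := Real.exp_le_exp.2 h4
    rw [Real.exp_log (by linarith)] at h5
    linarith
  have hle : Real.exp (2 * y) ≤ x := by
    rw [← Real.exp_log (show 0 < x by linarith)]
    exact Real.exp_le_exp.2 hyu
  have h4 : ((2 ^ ⌊y ^ κ'⌋₊ : ℕ) : ℝ) ≤ F x := by exact_mod_cast h3.trans (hF hle)
  refine le_trans ?_ h4
  push_cast
  -- lower bound for `y ^ κ'`
  have h5 : u ^ κ'' / 2 ≤ y ^ κ' := by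
    have h6 : (u / 2) ^ κ'' ≤ y ^ κ' := by
      have h7 : (u / 2) ^ κ'' = Real.exp (κ' * ((1 - δ) * v)) := by
        rw [Real.rpow_def_of_pos (by linarith), hκ'', hv]
        congr 1
        field_simp
      rw [h7, hy, ← Real.exp_mul]
      refine Real.exp_le_exp.2 ?_
      rw [mul_comm t κ']
      exact mul_le_mul_of_nonneg_left ht2 hκ'0.le
    refine le_trans ?_ h6
    rw [Real.div_rpow (by linarith) (by norm_num)]
    have h8 : (2:ℝ) ^ κ'' ≤ 2 := by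
      nth_rewrite 2 [← Real.rpow_one (2:ℝ)]
      exact Real.rpow_le_rpow_of_exponent_le (by norm_num) h2
    exact div_le_div_of_nonneg_left (by positivity) (by positivity) h8
  have h6 : u ^ κ ≤ (⌊y ^ κ'⌋₊ : ℝ) * Real.log 2 := by
    have h7 : y ^ κ' < ⌊y ^ κ'⌋₊ + 1 := Nat.lt_floor_add_one _
    have h8 : 1 ≤ u ^ κ := Real.one_le_rpow (by linarith) hκ.le
    have h9 : 2 * u ^ κ ≤ (⌊y ^ κ'⌋₊ : ℝ) := by linarith
    have h10 := Real.log_two_gt_d9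
    nlinarith
  calc Real.exp (u ^ κ) ≤ Real.exp ((⌊y ^ κ'⌋₊ : ℝ) * Real.log 2) := Real.exp_le_exp.2 h6
    _ = 2 ^ ⌊y ^ κ'⌋₊ := by
        rw [mul_comm, Real.exp_mul, Real.exp_log (by norm_num), Real.rpow_natCast]

theorem NC_mono : Monotone NC := by
  classical
  intro a b hab
  unfold NC
  refine Finset.card_le_card fun n hn => ?_
  simp only [Finset.mem_filter, Finset.mem_Icc] at hn ⊢
  exact ⟨⟨hn.1.1, hn.1.2.trans (Nat.floor_le_floor hab)⟩, hn.2⟩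

theorem RC_mono : Monotone RC := by
  classical
  intro a b hab
  unfold RC
  refine Finset.card_le_card fun n hn => ?_
  simp only [Finset.mem_filter, Finset.mem_Icc] at hn ⊢
  exact ⟨⟨hn.1.1, hn.1.2.trans (Nat.floor_le_floor hab)⟩, hn.2⟩

/-- choice of the parameters -/
theorem params {Θ κ m : ℝ} (h0 : 1 / 2 ≤ Θ) (h1 : Θ ≤ 1) (hΘ : ∀ ρ : ℂ, FF ρ = 0 → ρ.re ≤ Θ)
    (hκ : κ < (1 + Θ) / 2) (hm : 0 < m) : ∃ κ' η b1 : ℝ, κ < κ' ∧ 1 / 2 ≤ κ' ∧ κ' ≤ 1 ∧ 0 < η ∧ η ≤ 1 ∧ Small η ∧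
      κ' < η ∧ κ' + η < 2 - b1 ∧ 1 - Θ < b1 ∧ b1 < 1 - Θ + m := by
  rcases lt_or_eq_of_le h1 with h1 | h1
  · have h2 : max (max κ Θ) ((1 + Θ) / 2 - m) < (1 + Θ) / 2 := max_lt (max_lt hκ (by linarith)) (by linarith)
    obtain ⟨κ', h3, h4⟩ := exists_between h2
    have h5 : κ < κ' := lt_of_le_of_lt ((le_max_left _ _).trans (le_max_left _ _)) h3
    have h6 : Θ < κ' := lt_of_le_of_lt ((le_max_right _ _).trans (le_max_left _ _)) h3
    have h7 : (1 + Θ) / 2 - m < κ' := lt_of_le_of_lt (le_max_right _ _) h3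
    refine ⟨κ', κ' + ((1 + Θ) / 2 - κ') / 2, 1 - Θ + ((1 + Θ) / 2 - κ') / 2, h5, by linarith, by linarith,
      by linarith, by linarith, small_free h0 hΘ (by linarith) (by linarith), by linarith, by linarith,
      by linarith, by linarith⟩
  · subst h1
    have h2 : max (max κ (1 / 2)) (1 - m) < 1 := max_lt (max_lt (by linarith) (by norm_num)) (by linarith)
    obtain ⟨κ', h3, h4⟩ := exists_between h2
    have h5 : κ < κ' := lt_of_le_of_lt ((le_max_left _ _).trans (le_max_left _ _)) h3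
    have h6 : 1 / 2 < κ' := lt_of_le_of_lt ((le_max_right _ _).trans (le_max_left _ _)) h3
    have h7 : 1 - m < κ' := lt_of_le_of_lt (le_max_right _ _) h3
    exact ⟨κ', 1, (1 - κ') / 2, h5, by linarith, by linarith, by norm_num, le_rfl, small_one, h4, by linarith,
      by linarith, by linarith⟩

/-- lower bound for the number of exceptions to the Nicolas bound -/
theorem NC_lower {Θ : ℝ} (h0 : 1 / 2 ≤ Θ) (h1 : Θ ≤ 1) (hΘ : ∀ ρ : ℂ, FF ρ = 0 → ρ.re ≤ Θ)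
    (hsup : 1 / 2 < Θ → ∀ ε : ℝ, 0 < ε → ∃ ρ : ℂ, FF ρ = 0 ∧ Θ - ε < ρ.re) {κ : ℝ} (hκ : κ < (1 + Θ) / 2) :
    ∀ᶠ x : ℝ in atTop, Real.exp (Real.log x ^ κ) ≤ NC x := by
  obtain ⟨κ', η, b1, a1, a2, a3, a4, a5, a6, a7, a8, a9, a10⟩ :=
    params h0 h1 hΘ (show max κ (1 / 4) < (1 + Θ) / 2 from max_lt hκ (by linarith)) (m := 1 / 4) (by norm_num)
  have hwin : ∀ δ : ℝ, 0 < δ → δ < 1 → ∀ᶠ v : ℝ in atTop, ∃ t, 1 < t ∧ (1 - δ) * v ≤ t ∧ t ≤ (1 + δ) * v ∧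
      Real.exp (-b1 * t) ≤ bb ethe t := by
    intro δ hδ hδ1
    rcases lt_or_eq_of_le h0 with h | h
    · exact window_big h h1 hΘ (hsup h) a9 hδ hδ1
    · exact window_half (by rw [h]; exact hΘ) (by rw [← h] at a9; linarith) hδ hδ1
  have hswap := NC_swap a4 a5 a6 (by linarith) a7 a8 (by linarith) (by linarith : 0 < b1)
  have key := transfer NC NC_mono (κ := max κ (1 / 4)) (lt_of_lt_of_le (by norm_num) (le_max_right _ _)) a1 a3 hwin hswap
  filter_upwards [key, eventually_ge_atTop 3] with x hx hx3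
  refine le_trans (Real.exp_le_exp.2 ?_) hx
  exact Real.rpow_le_rpow_of_exponent_le (log_one_le hx3) (le_max_left _ _)

/-- lower bound for the number of exceptions to the Robin inequality -/
theorem RC_lower {Θ : ℝ} (h0 : 1 / 2 < Θ) (h1 : Θ ≤ 1) (hΘ : ∀ ρ : ℂ, FF ρ = 0 → ρ.re ≤ Θ)
    (hsup : ∀ ε : ℝ, 0 < ε → ∃ ρ : ℂ, FF ρ = 0 ∧ Θ - ε < ρ.re) {κ : ℝ} (hκ : κ < (1 + Θ) / 2) :
    ∀ᶠ x : ℝ in atTop, Real.exp (Real.log x ^ κ) ≤ RC x := by
  obtain ⟨κ', η, b1, a1, a2, a3, a4, a5, a6, a7, a8, a9, a10⟩ :=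
    params h0.le h1 hΘ (show max κ (1 / 4) < (1 + Θ) / 2 from max_lt hκ (by linarith)) (m := Θ - 1 / 2) (by linarith)
  have hswap := RC_swap a4 a5 a6 (by linarith) a7 a8 (by linarith) (by linarith : 0 < b1)
  have key := transfer RC RC_mono (κ := max κ (1 / 4)) (lt_of_lt_of_le (by norm_num) (le_max_right _ _)) a1 a3
    (fun δ hδ hδ1 => window_big h0 h1 hΘ hsup a9 hδ hδ1) hswap
  filter_upwards [key, eventually_ge_atTop 3] with x hx hx3
  refine le_trans (Real.exp_le_exp.2 ?_) hx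
  exact Real.rpow_le_rpow_of_exponent_le (log_one_le hx3) (le_max_left _ _)

/-- the least abscissa -/
theorem exists_least : ∃ Θ : ℝ, 1 / 2 ≤ Θ ∧ Θ ≤ 1 ∧
    IsLeast {θ : ℝ | 1 / 2 ≤ θ ∧ ∀ s : ℂ, θ < s.re → riemannZeta s ≠ 0} Θ := by
  set A : Set ℝ := {θ : ℝ | 1 / 2 ≤ θ ∧ ∀ s : ℂ, θ < s.re → riemannZeta s ≠ 0} with hA
  have h1A : (1:ℝ) ∈ A := ⟨by norm_num, fun s hs => riemannZeta_ne_zero_of_one_le_re hs.le⟩
  have hbdd : BddBelow A := ⟨1 / 2, fun θ hθ => hθ.1⟩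
  refine ⟨sInf A, le_csInf ⟨1, h1A⟩ fun θ hθ => hθ.1, csInf_le hbdd h1A, ⟨le_csInf ⟨1, h1A⟩ fun θ hθ => hθ.1, ?_⟩,
    fun θ hθ => csInf_le hbdd hθ⟩
  intro s hs
  obtain ⟨θ, hθ, hθs⟩ := (csInf_lt_iff hbdd ⟨1, h1A⟩).1 hs
  exact hθ.2 s hθs

theorem FF_zeta {ρ : ℂ} (h : FF ρ = 0) : riemannZeta ρ = 0 := by
  have h1 : ρ ≠ 1 := by
    rintro rfl
    rw [show FF 1 = 1 from ZU.J_g2b.FF_one] at h
    exact one_ne_zero h
  rw [show FF ρ = (ρ - 1) * riemannZeta ρ from ZU.J_g2b.FF_ne h1] at h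
  exact (mul_eq_zero.1 h).resolve_left (sub_ne_zero.2 h1)

theorem zeta_FF {ρ : ℂ} (h : riemannZeta ρ = 0) : FF ρ = 0 := by
  have h1 : ρ ≠ 1 := by
    rintro rfl
    exact riemannZeta_one_ne_zero h
  rw [show FF ρ = (ρ - 1) * riemannZeta ρ from ZU.J_g2b.FF_ne h1, h, mul_zero]

/-- consequences of minimality -/
theorem least_info {Θ : ℝ} (h : IsLeast {θ : ℝ | 1 / 2 ≤ θ ∧ ∀ s : ℂ, θ < s.re → riemannZeta s ≠ 0} Θ) :
    (∀ ρ : ℂ, FF ρ = 0 → ρ.re ≤ Θ) ∧ (1 / 2 < Θ → ∀ ε : ℝ, 0 < ε → ∃ ρ : ℂ, FF ρ = 0 ∧ Θ - ε < ρ.re) := by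
  constructor
  · intro ρ hρ
    by_contra hcon
    push Not at hcon
    exact h.1.2 ρ hcon (FF_zeta hρ)
  · intro hΘ ε hε
    by_contra hcon
    push Not at hcon
    have h2 : max (1 / 2) (Θ - ε) ∈ {θ : ℝ | 1 / 2 ≤ θ ∧ ∀ s : ℂ, θ < s.re → riemannZeta s ≠ 0} := by
      refine ⟨le_max_left _ _, fun s hs hz => ?_⟩
      have h3 := hcon s (zeta_FF hz)
      have h4 := le_max_right (1 / 2) (Θ - ε)
      linarith
    have h3 := h.2 h2
    have h4 : max (1 / 2) (Θ - ε) < Θ := max_lt hΘ (by linarith)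
    linarith

/-- a function squeezed between `exp ((log x) ^ κ)` -/
theorem loglog_tendsto {F : ℝ → ℝ} {E : ℝ} (hE : 0 < E)
    (h1 : ∀ κ : ℝ, κ < E → ∀ᶠ x : ℝ in atTop, Real.exp (Real.log x ^ κ) ≤ F x)
    (h2 : ∀ κ : ℝ, E < κ → ∀ᶠ x : ℝ in atTop, F x ≤ Real.exp (Real.log x ^ κ)) :
    Tendsto (fun x : ℝ => Real.log (Real.log (F x)) / Real.log (Real.log x)) atTop (𝓝 E) := by
  have hll : ∀ᶠ x : ℝ in atTop, 0 < Real.log (Real.log x) :=
    (Real.tendsto_log_atTop.comp Real.tendsto_log_atTop).eventually_gt_atTop 0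
  have hl : ∀ᶠ x : ℝ in atTop, 0 < Real.log x := Real.tendsto_log_atTop.eventually_gt_atTop 0
  rw [tendsto_order]
  constructor
  · intro a ha
    obtain ⟨κ, hκ1, hκ2⟩ := exists_between ha
    filter_upwards [h1 κ hκ2, hll, hl] with x a1 a2 a3
    have h3 : Real.log x ^ κ ≤ Real.log (F x) := by
      rw [Real.le_log_iff_exp_le ((Real.exp_pos _).trans_le a1)]
      exact a1
    have h4 : κ * Real.log (Real.log x) ≤ Real.log (Real.log (F x)) := by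
      rw [← Real.log_rpow a3]
      exact Real.log_le_log (Real.rpow_pos_of_pos a3 _) h3
    refine lt_of_lt_of_le hκ1 ?_
    rw [le_div_iff₀ a2]
    exact h4
  · intro a ha
    obtain ⟨κ, hκ1, hκ2⟩ := exists_between ha
    filter_upwards [h1 (E / 2) (by linarith), h2 κ hκ1, hll, hl] with x a0 a1 a2 a3
    have hF0 : 0 < F x := (Real.exp_pos _).trans_le a0
    have h5 : Real.log x ^ (E / 2) ≤ Real.log (F x) := by
      rw [Real.le_log_iff_exp_le hF0]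
      exact a0
    have h6 : 0 < Real.log (F x) := lt_of_lt_of_le (Real.rpow_pos_of_pos a3 _) h5
    have h3 : Real.log (F x) ≤ Real.log x ^ κ := by
      rw [Real.log_le_iff_le_exp hF0]
      exact a1
    have h4 : Real.log (Real.log (F x)) ≤ κ * Real.log (Real.log x) := by
      rw [← Real.log_rpow a3]
      exact Real.log_le_log h6 h3
    refine lt_of_le_of_lt ?_ hκ2
    rw [div_le_iff₀ a2]
    exact h4

end

end Pool.Agent.R303.Rob
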