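import Mathlib

/-! # Laplace transforms on `(1, ∞)` and their moments -/

set_option autoImplicit false

open Complex MeasureTheory Filter Topology Set

namespace Pool.Agent.R303.Rob

noncomputable section

/-- moments of the Laplace transform of `f` on `(1, ∞)` -/
def LT (f : ℝ → ℝ) (k : ℕ) (s : ℂ) : ℂ :=
  ∫ t in Ioi (1:ℝ), ((f t * t ^ k : ℝ) : ℂ) * cexp (-s * t)

/-- the real integral of `t ^ k e ^ {-rt}` on `(0, ∞)` -/
theorem gamma_int (k : ℕ) (r : ℝ) (hr : 0 < r) :
    IntegrableOn (fun t : ℝ => t ^ k * Real.exp (-r * t)) (Ioi 0) ∧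
    ∫ t in Ioi (0:ℝ), t ^ k * Real.exp (-r * t) = k.factorial / r ^ (k + 1) := by
  have h1 := Real.integral_rpow_mul_exp_neg_mul_Ioi (a := (k : ℝ) + 1) (r := r) (by positivity) hr
  have e : ∀ t ∈ Ioi (0:ℝ), t ^ ((k : ℝ) + 1 - 1) * Real.exp (-(r * t)) = t ^ k * Real.exp (-r * t) := by
    intro t ht
    rw [add_sub_cancel_right, Real.rpow_natCast, neg_mul]
  rw [setIntegral_congr_fun measurableSet_Ioi e] at h1
  constructor
  · have h2 : IntegrableOn (fun t : ℝ => t ^ ((k : ℝ)) * Real.exp (-r * t ^ (1:ℝ))) (Ioi 0) :=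
      integrableOn_rpow_mul_exp_neg_mul_rpow (by linarith [(Nat.cast_nonneg k : (0:ℝ) ≤ k)]) one_pos hr
    refine h2.congr_fun (fun t ht => ?_) measurableSet_Ioi
    simp only [Real.rpow_natCast, Real.rpow_one]
  · rw [h1, show ((k : ℝ) + 1) = ((k + 1 : ℕ) : ℝ) by push_cast; ring, Real.rpow_natCast,
      Nat.cast_add_one, Real.Gamma_nat_eq_factorial]
    rw [one_div, inv_pow]
    field_simp

theorem gamma_int1 (k : ℕ) (r : ℝ) (hr : 0 < r) :
    IntegrableOn (fun t : ℝ => t ^ k * Real.exp (-r * t)) (Ioi 1) ∧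
    ∫ t in Ioi (1:ℝ), t ^ k * Real.exp (-r * t) ≤ k.factorial / r ^ (k + 1) := by
  obtain ⟨h1, h2⟩ := gamma_int k r hr
  have hsub : Ioi (1:ℝ) ⊆ Ioi 0 := Ioi_subset_Ioi zero_le_one
  refine ⟨h1.mono_set hsub, ?_⟩
  rw [← h2]
  refine setIntegral_mono_set h1 ?_ hsub.eventuallyLE
  refine (ae_restrict_iff' measurableSet_Ioi).2 (ae_of_all _ fun t ht => ?_)
  have : (0:ℝ) < t := ht
  simp only [Pi.zero_apply]
  positivity

theorem norm_integrand (f : ℝ → ℝ) (k : ℕ) (s : ℂ) (t : ℝ) :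
    ‖((f t * t ^ k : ℝ) : ℂ) * cexp (-s * t)‖ = |f t * t ^ k| * Real.exp (-s.re * t) := by
  rw [norm_mul, Complex.norm_real, Real.norm_eq_abs, Complex.norm_exp]
  congr 2
  simp

theorem LT_integrable {f : ℝ → ℝ} (hf : Measurable f) {K : ℝ} (hK : ∀ t, 1 < t → |f t| ≤ K) (k : ℕ)
    {s : ℂ} (hs : 0 < s.re) :
    IntegrableOn (fun t : ℝ => ((f t * t ^ k : ℝ) : ℂ) * cexp (-s * t)) (Ioi 1) := by
  refine ((gamma_int1 k s.re hs).1.const_mul K).mono' ?_ ?_
  · refine Measurable.aestronglyMeasurable ?_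
    fun_prop
  · refine (ae_restrict_iff' measurableSet_Ioi).2 (ae_of_all _ fun t ht => ?_)
    have ht1 : (1:ℝ) < t := ht
    rw [norm_integrand, abs_mul, abs_of_pos (by positivity : (0:ℝ) < t ^ k)]
    have := hK t ht1
    have h2 : 0 < t ^ k * Real.exp (-s.re * t) := by positivity
    calc |f t| * t ^ k * Real.exp (-s.re * t) = |f t| * (t ^ k * Real.exp (-s.re * t)) := by ring
      _ ≤ K * (t ^ k * Real.exp (-s.re * t)) := mul_le_mul_of_nonneg_right this h2.le

theorem LT_hasDeriv {f : ℝ → ℝ} (hf : Measurable f) {K : ℝ} (hK : ∀ t, 1 < t → |f t| ≤ K) (k : ℕ)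
    {s : ℂ} (hs : 0 < s.re) : HasDerivAt (LT f k) (-LT f (k + 1) s) s := by
  set r : ℝ := s.re / 2 with hr
  have hr0 : 0 < r := by rw [hr]; linarith
  have hK0 : 0 ≤ K := (abs_nonneg _).trans (hK 2 (by norm_num))
  have key := hasDerivAt_integral_of_dominated_loc_of_deriv_le (μ := volume.restrict (Ioi (1:ℝ)))
    (F := fun (z : ℂ) (t : ℝ) => ((f t * t ^ k : ℝ) : ℂ) * cexp (-z * t))
    (F' := fun (z : ℂ) (t : ℝ) => -(((f t * t ^ (k + 1) : ℝ) : ℂ) * cexp (-z * t)))
    (x₀ := s) (s := Metric.ball s r) (bound := fun t => K * (t ^ (k + 1) * Real.exp (-r * t)))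
    (Metric.ball_mem_nhds s hr0) ?_ ?_ ?_ ?_ ?_ ?_
  · have h2 := key.2
    unfold LT
    rw [← integral_neg]
    exact h2
  · filter_upwards with z
    refine Measurable.aestronglyMeasurable ?_
    fun_prop
  · exact LT_integrable hf hK k hs
  · refine Measurable.aestronglyMeasurable ?_
    fun_prop
  · refine (ae_restrict_iff' measurableSet_Ioi).2 (ae_of_all _ fun t ht z hz => ?_)
    have ht1 : (1:ℝ) < t := ht
    have hzr : r ≤ z.re := by
      rw [Metric.mem_ball, dist_eq_norm] at hz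
      have := (Complex.abs_re_le_norm (z - s)).trans hz.le
      rw [Complex.sub_re] at this
      have := (abs_le.1 this).1
      linarith
    rw [norm_neg, norm_integrand, abs_mul, abs_of_pos (by positivity : (0:ℝ) < t ^ (k + 1))]
    have h1 := hK t ht1
    have h2 : Real.exp (-z.re * t) ≤ Real.exp (-r * t) := by
      refine Real.exp_le_exp.2 ?_
      nlinarith
    calc |f t| * t ^ (k + 1) * Real.exp (-z.re * t) ≤ K * t ^ (k + 1) * Real.exp (-r * t) := by
          gcongr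
      _ = _ := by ring
  · exact ((gamma_int1 (k + 1) r hr0).1.const_mul K)
  · refine ae_of_all _ fun t z _ => ?_
    have h1 : HasDerivAt (fun z : ℂ => cexp (-z * t)) (cexp (-z * t) * (-1 * t)) z :=
      (((hasDerivAt_id z).neg).mul_const (t : ℂ)).cexp
    have h2 := h1.const_mul ((f t * t ^ k : ℝ) : ℂ)
    refine h2.congr_deriv ?_
    push_cast
    ring_nf

/-- a chain of derivatives -/
theorem chain_iteratedDeriv {U : Set ℂ} (hU : IsOpen U) (F : ℕ → ℂ → ℂ)
    (hF : ∀ n, ∀ s ∈ U, HasDerivAt (F n) (-F (n + 1) s) s) (n : ℕ) :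
    ∀ s ∈ U, iteratedDeriv n (F 0) s = (-1) ^ n * F n s := by
  induction n with
  | zero => intro s _; simp
  | succ n ih =>
    intro s hs
    rw [iteratedDeriv_succ]
    have e : iteratedDeriv n (F 0) =ᶠ[𝓝 s] fun z => (-1) ^ n * F n z := by
      filter_upwards [hU.mem_nhds hs] with z hz using ih z hz
    rw [e.deriv_eq]
    have := ((hF n s hs).const_mul ((-1 : ℂ) ^ n)).deriv
    rw [this, pow_succ]
    ring

/-- Cauchy's estimate for a chain -/
theorem chain_bound {U : Set ℂ} (hU : IsOpen U) (F : ℕ → ℂ → ℂ)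
    (hF : ∀ n, ∀ s ∈ U, HasDerivAt (F n) (-F (n + 1) s) s) (h : ℂ → ℂ) (s : ℂ) (hs : s ∈ U)
    {R : ℝ} (hR : 0 < R) (hd : ∀ z ∈ Metric.closedBall s R, DifferentiableAt ℂ h z)
    (heq : F 0 =ᶠ[𝓝 s] h) : ∃ M : ℝ, 0 < M ∧ ∀ n : ℕ, ‖F n s‖ ≤ M * n.factorial / R ^ n := by
  have hc : ContinuousOn h (Metric.closedBall s R) := fun z hz =>
    (hd z hz).continuousAt.continuousWithinAt
  obtain ⟨M, hM⟩ := (isCompact_closedBall s R).exists_bound_of_continuousOn hc
  refine ⟨|M| + 1, by positivity, fun n => ?_⟩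
  have h1 := chain_iteratedDeriv hU F hF n s hs
  have h2 : iteratedDeriv n (F 0) s = iteratedDeriv n h s := heq.iteratedDeriv_eq n
  have h3 : DiffContOnCl ℂ h (Metric.ball s R) := by
    refine ⟨fun z hz => (hd z (Metric.ball_subset_closedBall hz)).differentiableWithinAt, ?_⟩
    refine hc.mono ?_
    exact Metric.closure_ball_subset_closedBall
  have h4 := Complex.norm_iteratedDeriv_le_of_forall_mem_sphere_norm_le (C := |M| + 1) n hR h3
    (fun z hz => (hM z (Metric.sphere_subset_closedBall hz)).trans (by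
      have := le_abs_self M
      linarith))
  rw [← h2, h1, norm_mul, norm_pow, norm_neg, norm_one, one_pow, one_mul] at h4
  refine h4.trans (le_of_eq ?_)
  ring

/-- bound for the moments from an analytic continuation -/
theorem LT_bound {f : ℝ → ℝ} (hf : Measurable f) {K : ℝ} (hK : ∀ t, 1 < t → |f t| ≤ K)
    (h : ℂ → ℂ) (s : ℂ) (hs : 0 < s.re) {R : ℝ} (hR : 0 < R)
    (hd : ∀ z ∈ Metric.closedBall s R, DifferentiableAt ℂ h z)
    (heq : LT f 0 =ᶠ[𝓝 s] h) : ∃ M : ℝ, 0 < M ∧ ∀ n : ℕ, ‖LT f n s‖ ≤ M * n.factorial / R ^ n :=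
  chain_bound (U := {z : ℂ | 0 < z.re}) (isOpen_lt continuous_const Complex.continuous_re)
    (LT f) (fun n _ hs => LT_hasDeriv hf hK n hs) h s hs hR hd heq

/-- the moments in the presence of a simple pole -/
theorem LT_pole {f : ℝ → ℝ} (hf : Measurable f) {K : ℝ} (hK : ∀ t, 1 < t → |f t| ≤ K)
    (h : ℂ → ℂ) (a p : ℂ) (s : ℂ) (hs : 0 < s.re) (hp : p.re ≤ 0) {R : ℝ} (hR : 0 < R)
    (hd : ∀ z ∈ Metric.closedBall s R, DifferentiableAt ℂ h z)
    (heq : ∀ᶠ z in 𝓝 s, LT f 0 z = a / (z - p) + h z) :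
    ∃ M : ℝ, 0 < M ∧ ∀ n : ℕ, ‖LT f n s - a * n.factorial / (s - p) ^ (n + 1)‖ ≤
      M * n.factorial / R ^ n := by
  refine chain_bound (U := {z : ℂ | 0 < z.re}) (isOpen_lt continuous_const Complex.continuous_re)
    (fun n z => LT f n z - a * n.factorial / (z - p) ^ (n + 1)) (fun n z hz => ?_) h s hs hR hd ?_
  · have hz' : 0 < z.re := hz
    have hne : z - p ≠ 0 := by
      intro h0
      have := congrArg Complex.re h0
      simp at this
      linarith
    have h1 := LT_hasDeriv hf hK n hz'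
    have h2 : HasDerivAt (fun z : ℂ => z - p) 1 z := (hasDerivAt_id z).sub_const p
    have h3 := ((h2.fun_pow (n + 1)).fun_inv (pow_ne_zero _ hne)).const_mul (a * n.factorial)
    have h4 := h1.fun_sub h3
    simp only [← div_eq_mul_inv] at h4
    refine h4.congr_deriv ?_
    rw [Nat.factorial_succ]
    push_cast
    field_simp
    ring
  · filter_upwards [heq] with z hz
    simp only [Nat.factorial_zero, Nat.cast_one, mul_one, zero_add, pow_one]
    rw [hz]
    ring

end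

end Pool.Agent.R303.Rob
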