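import Pool.Agent.R303.Rob.Up3

/-! # Swapping primes: lower bound for the number of exceptions -/

set_option autoImplicit false

open Finset Filter Topology

namespace Pool.Agent.R303.Rob

noncomputable section

/-- the primes in `(a, b]` -/
def PP (a b : ℝ) : Finset ℕ := (Finset.Ioc ⌊a⌋₊ ⌊b⌋₊).filter Nat.Prime

theorem PP_mem {a b : ℝ} (ha : 0 ≤ a) (hb : 0 ≤ b) {p : ℕ} : p ∈ PP a b ↔ (a < p ∧ (p:ℝ) ≤ b) ∧ p.Prime := by
  unfold PP
  rw [Finset.mem_filter, Finset.mem_Ioc, Nat.floor_lt ha, Nat.le_floor_iff hb]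

/-- the primes up to `y` -/
def Q1 (y : ℝ) : Finset ℕ := (Finset.Icc 1 ⌊y⌋₊).filter Nat.Prime

theorem Q1_mem {y : ℝ} (hy : 0 ≤ y) {p : ℕ} : p ∈ Q1 y ↔ (p:ℝ) ≤ y ∧ p.Prime := by
  unfold Q1
  rw [Finset.mem_filter, Finset.mem_Icc, Nat.le_floor_iff hy]
  constructor
  · rintro ⟨⟨_, h2⟩, h3⟩; exact ⟨h2, h3⟩
  · rintro ⟨h2, h3⟩; exact ⟨⟨h3.one_lt.le, h2⟩, h3⟩

theorem Q1_theta (y : ℝ) : ∑ p ∈ Q1 y, Real.log p = Chebyshev.theta y := by
  unfold Q1 Chebyshev.theta
  rfl

theorem Q1_LL (y : ℝ) : ∑ p ∈ Q1 y, gg p = LL y := rfl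

theorem PP_card {a b : ℝ} (ha : 0 ≤ a) (hab : a ≤ b) (hb : 1 < b) :
    (Chebyshev.theta b - Chebyshev.theta a) / Real.log b ≤ ((PP a b).card : ℝ) := by
  have hl : 0 < Real.log b := Real.log_pos hb
  rw [div_le_iff₀ hl, ← nsmul_eq_mul]
  have h1 : Chebyshev.theta b - Chebyshev.theta a = ∑ p ∈ PP a b, Real.log p := by
    rw [← Q1_theta, ← Q1_theta]
    have e : Q1 b = Q1 a ∪ PP a b := by
      ext p
      rw [Finset.mem_union, Q1_mem (by linarith), Q1_mem ha, PP_mem ha (by linarith)]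
      constructor
      · rintro ⟨h1, h2⟩
        by_cases h : (p:ℝ) ≤ a
        · exact Or.inl ⟨h, h2⟩
        · exact Or.inr ⟨⟨not_le.1 h, h1⟩, h2⟩
      · rintro (⟨h1, h2⟩ | ⟨⟨h1, h2⟩, h3⟩)
        · exact ⟨h1.trans hab, h2⟩
        · exact ⟨h2, h3⟩
    rw [e, Finset.sum_union]
    · ring
    · rw [Finset.disjoint_left]
      intro p hp hp'
      rw [Q1_mem ha] at hp
      rw [PP_mem ha (by linarith)] at hp'
      linarith [hp.1, hp'.1.1]
  rw [h1]
  refine Finset.sum_le_card_nsmul _ _ _ fun p hp => ?_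
  rw [PP_mem ha (by linarith)] at hp
  exact Real.log_le_log (by exact_mod_cast hp.2.pos) hp.1.2

/-- the swapped set -/
def SW (y : ℝ) (Pm Pp : Finset ℕ) : Finset ℕ := (Q1 y \ Pm) ∪ Pp

theorem SW_sum {y z : ℝ} (hy : 0 ≤ y) (hz : 0 ≤ z) {Pm Pp : Finset ℕ} (hm : Pm ⊆ PP (y - z) y) (hzy : z ≤ y)
    (hp : Pp ⊆ PP y (y + z)) (f : ℕ → ℝ) :
    ∑ p ∈ SW y Pm Pp, f p = ∑ p ∈ Q1 y, f p - ∑ p ∈ Pm, f p + ∑ p ∈ Pp, f p := by
  unfold SW
  rw [Finset.sum_union, Finset.sum_sdiff_eq_sub]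
  · intro p h
    have := hm h
    rw [PP_mem (by linarith) hy] at this
    rw [Q1_mem hy]
    exact ⟨this.1.2, this.2⟩
  · rw [Finset.disjoint_left]
    intro p h h'
    rw [Finset.mem_sdiff, Q1_mem hy] at h
    have := hp h'
    rw [PP_mem hy (by linarith)] at this
    linarith [h.1.1, this.1.1]

theorem SW_prime {y z : ℝ} (hy : 0 ≤ y) (hz : 0 ≤ z) {Pm Pp : Finset ℕ} (hp : Pp ⊆ PP y (y + z)) :
    ∀ p ∈ SW y Pm Pp, p.Prime := by
  intro p h
  unfold SW at h
  rw [Finset.mem_union, Finset.mem_sdiff] at h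
  rcases h with h | h
  · exact ((Q1_mem hy).1 h.1).2
  · exact ((PP_mem hy (by linarith)).1 (hp h)).2

/-- the logarithm of the swapped product -/
theorem SW_log {y z : ℝ} (hz : 0 ≤ z) (hzy : z ≤ y / 2) (hy : 1 ≤ y) {Pm Pp : Finset ℕ} {k : ℕ}
    (hm : Pm ⊆ PP (y - z) y) (hp : Pp ⊆ PP y (y + z)) (hmc : Pm.card = k) (hpc : Pp.card = k) :
    ∑ p ∈ SW y Pm Pp, Real.log p ≤ Chebyshev.theta y + 4 * k * z / y := by
  rw [SW_sum (by linarith) hz hm (by linarith) hp, Q1_theta]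
  have h1 : ∑ p ∈ Pp, Real.log p ≤ k * Real.log (y + z) := by
    rw [← hpc, ← nsmul_eq_mul]
    refine Finset.sum_le_card_nsmul _ _ _ fun p h => ?_
    have := hp h
    rw [PP_mem (by linarith) (by linarith)] at this
    exact Real.log_le_log (by exact_mod_cast this.2.pos) this.1.2
  have h2 : k * Real.log (y - z) ≤ ∑ p ∈ Pm, Real.log p := by
    rw [← hmc, ← nsmul_eq_mul]
    refine Finset.card_nsmul_le_sum _ _ _ fun p h => ?_
    have := hm h
    rw [PP_mem (by linarith) (by linarith)] at this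
    exact Real.log_le_log (by linarith) this.1.1.le
  have h3 : Real.log (y + z) - Real.log (y - z) ≤ 4 * z / y := by
    rw [← Real.log_div (by linarith) (by linarith)]
    have h4 := Real.log_le_sub_one_of_pos (show 0 < (y + z) / (y - z) by
      have : 0 < y - z := by linarith
      positivity)
    refine h4.trans ?_
    have h5 : (y + z) / (y - z) - 1 = 2 * z / (y - z) := by
      have : y - z ≠ 0 := by linarith
      field_simp; ring
    rw [h5, div_le_div_iff₀ (by linarith) (by linarith)]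
    nlinarith
  have h6 := mul_le_mul_of_nonneg_left h3 (Nat.cast_nonneg (α := ℝ) k)
  have e : 4 * (k:ℝ) * z / y = k * (4 * z / y) := by ring
  rw [e]
  nlinarith

/-- the sum of `gg` over the swapped set -/
theorem SW_gg {y z : ℝ} (hz : 1 ≤ z) (hzy : z ≤ y / 2) (hy : 4 ≤ y) {Pm Pp : Finset ℕ} {k : ℕ}
    (hm : Pm ⊆ PP (y - z) y) (hp : Pp ⊆ PP y (y + z)) (hmc : Pm.card = k) (hpc : Pp.card = k) :
    LL y - 7 * k * z / y ^ 2 ≤ ∑ p ∈ SW y Pm Pp, gg p := by
  rw [SW_sum (by linarith) (by linarith) hm (by linarith) hp, Q1_LL]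
  have hyz : 0 < y - z := by linarith
  have h1 : k * (1 / (y + z)) ≤ ∑ p ∈ Pp, gg p := by
    rw [← hpc, ← nsmul_eq_mul]
    refine Finset.card_nsmul_le_sum _ _ _ fun p h => ?_
    have := hp h
    rw [PP_mem (by linarith) (by linarith)] at this
    have h2 := (gg_bd this.2.two_le).1
    have hp0 : (0:ℝ) < p := by exact_mod_cast this.2.pos
    refine le_trans ?_ h2
    rw [one_div]
    exact inv_anti₀ hp0 this.1.2
  have h2 : ∑ p ∈ Pm, gg p ≤ k * (1 / (y - z) + 1 / (y - z) ^ 2) := by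
    rw [← hmc, ← nsmul_eq_mul]
    refine Finset.sum_le_card_nsmul _ _ _ fun p h => ?_
    have := hm h
    rw [PP_mem (by linarith) (by linarith)] at this
    have h2 := (gg_bd this.2.two_le).2
    refine h2.trans ?_
    rw [one_div, one_div]
    have h3 := inv_anti₀ hyz this.1.1.le
    have h4 : ((p:ℝ) ^ 2)⁻¹ ≤ ((y - z) ^ 2)⁻¹ := inv_anti₀ (by positivity) (pow_le_pow_left₀ hyz.le this.1.1.le 2)
    linarith
  have h3 : 1 / (y - z) + 1 / (y - z) ^ 2 - 1 / (y + z) ≤ 7 * z / y ^ 2 := by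
    have hq : y / 2 ≤ y - z := by linarith
    have e1 : 1 / (y - z) - 1 / (y + z) = 2 * z / ((y - z) * (y + z)) := by
      have : y + z ≠ 0 := by linarith
      have : y - z ≠ 0 := hyz.ne'
      field_simp; ring
    have e2 : 2 * z / ((y - z) * (y + z)) ≤ 3 * z / y ^ 2 := by
      rw [div_le_div_iff₀ (by nlinarith) (by positivity)]
      have h5 : (y - z) * (y + z) ≥ (3 / 4) * y ^ 2 := by nlinarith
      have h6 : 0 ≤ z := by linarith
      have h7 : 3 * z * ((3 / 4) * y ^ 2) ≤ 3 * z * ((y - z) * (y + z)) := by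
        refine mul_le_mul_of_nonneg_left h5 (by linarith)
      nlinarith [mul_nonneg h6 (sq_nonneg y)]
    have e3 : 1 / (y - z) ^ 2 ≤ 4 * z / y ^ 2 := by
      rw [div_le_div_iff₀ (by positivity) (by positivity)]
      have h5 : y ^ 2 / 4 ≤ (y - z) ^ 2 := by nlinarith
      have h6 : 0 < (y - z) ^ 2 := by positivity
      nlinarith
    have e4 : 7 * z / y ^ 2 = 3 * z / y ^ 2 + 4 * z / y ^ 2 := by ring
    rw [e4]
    linarith
  have h6 := mul_le_mul_of_nonneg_left h3 (Nat.cast_nonneg (α := ℝ) k)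
  have e : 7 * (k:ℝ) * z / y ^ 2 = k * (7 * z / y ^ 2) := by ring
  rw [e]
  nlinarith

/-- comparison of iterated logarithms -/
theorem logs {y X l : ℝ} (hy : 1 ≤ Real.log y) (hy0 : 0 < y) (hl : 1 < l) (hX : l ≤ Chebyshev.theta y + X) :
    Real.log (Real.log l) ≤ Real.log (Real.log y) + (Chebyshev.theta y - y) / (y * Real.log y) + X / (y * Real.log y) := by
  have h1 : ∀ a b : ℝ, 0 < a → 0 < b → Real.log a ≤ Real.log b + (a - b) / b := by
    intro a b ha hb
    have := Real.log_le_sub_one_of_pos (show 0 < a / b by positivity)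
    rw [Real.log_div ha.ne' hb.ne'] at this
    have e : (a - b) / b = a / b - 1 := by field_simp
    rw [e]
    linarith
  have hll : 0 < Real.log l := Real.log_pos hl
  have h2 := h1 l y (by linarith) hy0
  have h3 := h1 (Real.log l) (Real.log y) hll (by linarith)
  have h4 : (Real.log l - Real.log y) / Real.log y ≤ ((l - y) / y) / Real.log y :=
    div_le_div_of_nonneg_right (by linarith) (by linarith)
  have h5 : ((l - y) / y) / Real.log y ≤ ((Chebyshev.theta y + X - y) / y) / Real.log y := by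
    refine div_le_div_of_nonneg_right ?_ (by linarith)
    exact div_le_div_of_nonneg_right (by linarith) hy0.le
  have h6 : ((Chebyshev.theta y + X - y) / y) / Real.log y =
      (Chebyshev.theta y - y) / (y * Real.log y) + X / (y * Real.log y) := by
    field_simp
    ring
  linarith

/-- many subsets -/
theorem choose_ge (k m : ℕ) (h : 2 * k ≤ m) : 2 ^ k ≤ m.choose k := by
  have h1 : ∀ k : ℕ, 2 ^ k ≤ Nat.centralBinom k := by
    intro k
    induction k with
    | zero => simp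
    | succ k ih =>
      have h2 := Nat.succ_mul_centralBinom_succ k
      have h3 : (k + 1) * 2 ^ (k + 1) ≤ (k + 1) * Nat.centralBinom (k + 1) := by
        rw [h2, pow_succ]
        nlinarith [Nat.centralBinom_pos k]
      exact Nat.le_of_mul_le_mul_left h3 (by omega)
  refine (h1 k).trans ?_
  rw [Nat.centralBinom_eq_two_mul_choose]
  exact Nat.choose_le_choose k h

end

end Pool.Agent.R303.Rob
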