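import Pool.Agent.R303.Rob.Lo1

/-! # A large family of sets of primes -/

set_option autoImplicit false

open Finset Filter Topology

namespace Pool.Agent.R303.Rob

noncomputable section

open H353 (FF)

/-- the error term of the prime number theorem is `o(u ^ η)` -/
def Small (η : ℝ) : Prop := ∀ ε : ℝ, 0 < ε → ∀ᶠ u : ℝ in atTop, |Chebyshev.theta u - u| ≤ ε * u ^ η

theorem small_one : Small 1 := by
  intro ε hε
  obtain ⟨C, hC, h⟩ := Pool.Agent.Helper923.PNTQ.theta_quant
  have h1 : Tendsto (fun x : ℝ => (Real.log x) ^ (1 / 50 : ℝ)) atTop atTop :=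
    (tendsto_rpow_atTop (by norm_num)).comp Real.tendsto_log_atTop
  filter_upwards [h1.eventually_ge_atTop (C / ε), eventually_ge_atTop 2] with u hu hu2
  refine (h u hu2).trans ?_
  have hp : 0 < C / ε := by positivity
  rw [Real.rpow_one, div_le_iff₀ (by linarith)]
  rw [div_le_iff₀ hε] at hu
  nlinarith

theorem small_free {Θ : ℝ} (h0 : 1 / 2 ≤ Θ) (hΘ : ∀ ρ : ℂ, FF ρ = 0 → ρ.re ≤ Θ) {η : ℝ} (h1 : Θ < η)
    (h2 : η ≤ 1) : Small η := by
  intro ε hε
  obtain ⟨θ', h3, h4⟩ := exists_between h1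
  obtain ⟨C, hC, hCb⟩ := theta_free h0 hΘ h3 (by linarith)
  filter_upwards [plog θ' η (C / ε) h4, eventually_ge_atTop 3] with u hu hu3
  refine (hCb u (by linarith)).trans ?_
  have hl := log_one_le hu3
  have hp : 0 < u ^ θ' := Real.rpow_pos_of_pos (by linarith) _
  have h5 : C / ε * u ^ θ' ≤ u ^ η := by
    refine le_trans ?_ hu
    have : 0 < C / ε * u ^ θ' := by positivity
    nlinarith
  calc C * u ^ θ' = ε * (C / ε * u ^ θ') := by field_simp
    _ ≤ _ := by gcongr

/-- primes in short intervals on both sides -/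
theorem short {η : ℝ} (h0 : 0 < η) (h1 : η ≤ 1) (hs : Small η) :
    ∀ᶠ y : ℝ in atTop, (y ^ η / 2) / 2 ≤ Chebyshev.theta (y + y ^ η / 2) - Chebyshev.theta y ∧
      (y ^ η / 2) / 2 ≤ Chebyshev.theta y - Chebyshev.theta (y - y ^ η / 2) := by
  obtain ⟨u0, hu0⟩ := eventually_atTop.1 (hs (1 / 16) (by norm_num))
  filter_upwards [eventually_ge_atTop (2 * u0), eventually_ge_atTop 1] with y hy hy1
  have hyη : y ^ η ≤ y := by
    nth_rewrite 2 [← Real.rpow_one y]
    exact Real.rpow_le_rpow_of_exponent_le hy1 h1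
  have hp : 0 < y ^ η := Real.rpow_pos_of_pos (by linarith) _
  have key : ∀ u : ℝ, y / 2 ≤ u → u ≤ 2 * y → |Chebyshev.theta u - u| ≤ y ^ η / 8 := by
    intro u h3 h4
    refine (hu0 u (by linarith)).trans ?_
    have h5 : u ^ η ≤ (2 * y) ^ η := Real.rpow_le_rpow (by linarith) h4 h0.le
    have h6 : (2 * y) ^ η = 2 ^ η * y ^ η := Real.mul_rpow (by norm_num) (by linarith)
    have h7 : (2:ℝ) ^ η ≤ 2 := by
      nth_rewrite 2 [← Real.rpow_one (2:ℝ)]
      exact Real.rpow_le_rpow_of_exponent_le (by norm_num) h1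
    nlinarith
  have k1 := abs_le.1 (key y (by linarith) (by linarith))
  have k2 := abs_le.1 (key (y + y ^ η / 2) (by linarith) (by linarith))
  have k3 := abs_le.1 (key (y - y ^ η / 2) (by linarith) (by linarith))
  constructor <;> linarith [k1.1, k1.2, k2.1, k2.2, k3.1, k3.2]

/-- a large family of sets of primes close to the set of primes up to `y` -/
theorem family {η κ b1 : ℝ} (h0 : 0 < η) (h1 : η ≤ 1) (hs : Small η) (hκ0 : 0 < κ) (hκ : κ < η)
    (hκb : κ + η < 2 - b1) :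
    ∀ᶠ y : ℝ in atTop, ∃ (𝓕 : Finset (Finset ℕ)) (D : ℝ), 0 ≤ D ∧ 22 * D ≤ y ^ (-b1) ∧
      2 ^ ⌊y ^ κ⌋₊ ≤ 𝓕.card ∧ ∀ S ∈ 𝓕, (∀ p ∈ S, p.Prime) ∧ (∀ p : ℕ, p.Prime → (p:ℝ) ≤ y / 2 → p ∈ S) ∧
        ∑ p ∈ S, Real.log p ≤ Chebyshev.theta y + 4 * D * y ∧ LL y - 7 * D ≤ ∑ p ∈ S, gg p := by
  filter_upwards [short h0 h1 hs, plog κ η 16 hκ, plog (κ + η - 2) (-b1) 11 (by linarith),
    (tendsto_rpow_atTop h0).eventually_ge_atTop 2, eventually_ge_atTop 4] with y hsh hp1 hp2 hp3 hy4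
  have hy0 : 0 < y := by linarith
  have hl1 : 1 ≤ Real.log y := log_one_le (by linarith)
  have hyη : y ^ η ≤ y := by
    nth_rewrite 2 [← Real.rpow_one y]
    exact Real.rpow_le_rpow_of_exponent_le (by linarith) h1
  set z : ℝ := y ^ η / 2 with hz
  have hz1 : 1 ≤ z := by rw [hz]; linarith
  have hzy : z ≤ y / 2 := by rw [hz]; linarith
  set k : ℕ := ⌊y ^ κ⌋₊ with hk
  have hyκ : 0 < y ^ κ := Real.rpow_pos_of_pos hy0 _
  have hk1 : (k : ℝ) ≤ y ^ κ := Nat.floor_le hyκ.le
  have hlog2 : Real.log (y + z) ≤ 2 * Real.log y := by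
    have : Real.log (y + z) ≤ Real.log (y ^ 2) := Real.log_le_log (by linarith) (by nlinarith)
    rw [Real.log_pow] at this
    exact_mod_cast this
  -- cardinalities
  have c1 : (2 * k : ℝ) ≤ ((PP y (y + z)).card : ℝ) := by
    refine le_trans ?_ (PP_card hy0.le (by linarith) (by linarith))
    rw [le_div_iff₀ (Real.log_pos (by linarith))]
    have : 2 * (k:ℝ) * Real.log (y + z) ≤ 2 * y ^ κ * (2 * Real.log y) := by
      have : 0 ≤ Real.log (y + z) := Real.log_nonneg (by linarith)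
      gcongr
    linarith [hsh.1]
  have c2 : (k : ℝ) ≤ ((PP (y - z) y).card : ℝ) := by
    refine le_trans ?_ (PP_card (by linarith) (by linarith) (by linarith))
    rw [le_div_iff₀ (by linarith)]
    have : (k:ℝ) * Real.log y ≤ y ^ κ * Real.log y := by gcongr
    have h5 : 0 < y ^ κ * Real.log y := by positivity
    linarith [hsh.2]
  have c1' : 2 * k ≤ (PP y (y + z)).card := by exact_mod_cast c1
  have c2' : k ≤ (PP (y - z) y).card := by exact_mod_cast c2
  obtain ⟨Pm, hPm, hPmc⟩ := Finset.exists_subset_card_eq c2'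
  set D : ℝ := k * z / y ^ 2 with hD
  have hD0 : 0 ≤ D := by positivity
  have hDle : 22 * D ≤ y ^ (-b1) := by
    have e1 : 22 * D ≤ 11 * y ^ (κ + η - 2) := by
      have e2 : y ^ (κ + η - 2) = y ^ κ * y ^ η / y ^ 2 := by
        rw [Real.rpow_sub hy0, Real.rpow_add hy0]
        norm_cast
      rw [e2, hD, hz]
      have : (k:ℝ) * (y ^ η / 2) / y ^ 2 ≤ y ^ κ * (y ^ η / 2) / y ^ 2 := by gcongr
      have e3 : 11 * (y ^ κ * y ^ η / y ^ 2) = 22 * (y ^ κ * (y ^ η / 2) / y ^ 2) := by ring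
      rw [e3]
      linarith
    have e2 : 11 * y ^ (κ + η - 2) ≤ 11 * y ^ (κ + η - 2) * Real.log y := by
      have : 0 < 11 * y ^ (κ + η - 2) := by positivity
      nlinarith
    linarith
  refine ⟨((PP y (y + z)).powersetCard k).image (SW y Pm), D, hD0, hDle, ?_, ?_⟩
  · rw [Finset.card_image_of_injOn, Finset.card_powersetCard]
    · exact choose_ge k _ c1'
    · intro A hA B hB hAB
      rw [Finset.mem_coe, Finset.mem_powersetCard] at hA hB
      have key : ∀ A : Finset ℕ, A ⊆ PP y (y + z) → (SW y Pm A).filter (fun p : ℕ => y < p) = A := by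
        intro A hA
        ext p
        unfold SW
        rw [Finset.mem_filter, Finset.mem_union, Finset.mem_sdiff, Q1_mem hy0.le]
        constructor
        · rintro ⟨h1 | h1, h2⟩
          · linarith [h1.1.1]
          · exact h1
        · intro h
          have := (PP_mem hy0.le (by linarith)).1 (hA h)
          exact ⟨Or.inr h, this.1.1⟩
      rw [← key A hA.1, ← key B hB.1, hAB]
  · intro S hS
    rw [Finset.mem_image] at hS
    obtain ⟨Pp, hPp, rfl⟩ := hS
    rw [Finset.mem_powersetCard] at hPp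
    refine ⟨SW_prime hy0.le (by linarith) hPp.1, ?_, ?_, ?_⟩
    · intro p hp hpy
      unfold SW
      rw [Finset.mem_union, Finset.mem_sdiff]
      left
      refine ⟨(Q1_mem hy0.le).2 ⟨by linarith, hp⟩, fun h => ?_⟩
      have := (PP_mem (by linarith) hy0.le).1 (hPm h)
      linarith [this.1.1]
    · refine (SW_log (by linarith) hzy (by linarith) hPm hPp.1 hPmc hPp.2).trans (le_of_eq ?_)
      rw [hD]
      field_simp
    · refine le_trans (le_of_eq ?_) (SW_gg hz1 hzy hy4 hPm hPp.1 hPmc hPp.2)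
      rw [hD]
      ring

end

end Pool.Agent.R303.Rob
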