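import Pool.Agent.R303.Rob.Sig

/-! # Lower bounds for the numbers of exceptions at a good point -/

set_option autoImplicit false

open Finset Filter Topology

namespace Pool.Agent.R303.Rob

noncomputable section

theorem theta_up {y : ℝ} (hy : 0 ≤ y) : Chebyshev.theta y ≤ (7 / 5) * y := by
  have h1 := Chebyshev.theta_le_log4_mul_x hy
  have h2 : Real.log 4 ≤ 7 / 5 := by
    have : Real.log 4 = 2 * Real.log 2 := by
      rw [show (4 : ℝ) = 2 ^ 2 by norm_num, Real.log_pow]; norm_num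
    have := Real.log_two_lt_d9
    linarith
  nlinarith

theorem NC_swap {η κ b1 : ℝ} (h0 : 0 < η) (h1 : η ≤ 1) (hs : Small η) (hκ0 : 0 < κ) (hκ : κ < η)
    (hκb : κ + η < 2 - b1) (hb1 : b1 < 1) (hb0 : 0 < b1) :
    ∀ᶠ y : ℝ in atTop, y ^ (-b1) ≤ bb ethe (Real.log y) → 2 ^ ⌊y ^ κ⌋₊ ≤ NC (Real.exp (2 * y)) := by
  classical
  filter_upwards [family h0 h1 hs hκ0 hκ hκb, plog (-1) (-b1) 5 (by linarith), eventually_ge_atTop 10]
    with y hfam hp hy10 hbb
  obtain ⟨𝓕, D, hD0, hD, hcard, hF⟩ := hfam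
  have hy0 : 0 < y := by linarith
  have hl1 : 1 ≤ Real.log y := log_one_le (by linarith)
  have hb1y : y ^ (-b1) ≤ 1 := Real.rpow_le_one_of_one_le_of_nonpos (by linarith) (by linarith)
  refine hcard.trans ?_
  unfold NC
  refine Finset.card_le_card_of_injOn (fun S => ∏ p ∈ S, p) ?_ ?_
  · intro S hS
    obtain ⟨hpr, hsm, hlog, hgg⟩ := hF S hS
    simp only [Finset.coe_filter, Set.mem_setOf_eq, Finset.mem_Icc]
    set n : ℕ := ∏ p ∈ S, p with hn
    have hpf : n.primeFactors = S := Nat.primeFactors_prod hpr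
    have h5 : 5 ∈ S := hsm 5 (by norm_num) (by norm_num; linarith)
    have hn0 : 0 < n := Finset.prod_pos fun p hp => (hpr p hp).pos
    have hn5 : 5 ≤ n := Nat.le_of_dvd hn0 (Finset.dvd_prod_of_mem (fun p => p) h5)
    have hlogn : Real.log n = ∑ p ∈ S, Real.log p := by
      rw [hn]
      push_cast
      exact Real.log_prod (fun p hp => by exact_mod_cast (hpr p hp).ne_zero)
    have hn5' : (5:ℝ) ≤ n := by exact_mod_cast hn5
    refine ⟨⟨by omega, Nat.le_floor ?_⟩, ?_⟩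
    · rw [← Real.log_le_iff_le_exp (by linarith), hlogn]
      have := theta_up hy0.le
      nlinarith
    · rw [NE_iff (by omega), hpf]
      have hl : 1 < Real.log n := by
        rw [Real.lt_log_iff_exp_lt (by linarith)]
        have := Real.exp_one_lt_three
        linarith
      have h6 := logs hl1 hy0 hl (X := 4 * D * y) (by rw [hlogn]; exact hlog)
      have h7 : 4 * D * y / (y * Real.log y) ≤ 4 * D := by
        rw [div_le_iff₀ (by positivity)]
        have : 0 ≤ 4 * D * y := by positivity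
        nlinarith
      have h8 := mertens_id hl1 hy0
      have h9 := rr_le (show 1 ≤ y by linarith)
      have h10 : 2 / y < y ^ (-b1) / 2 := by
        have e : y ^ (-1 : ℝ) = 1 / y := by rw [Real.rpow_neg_one, one_div]
        rw [e] at hp
        have h11 : 5 * (1 / y) ≤ 5 * (1 / y) * Real.log y := by
          have : 0 < 5 * (1 / y) := by positivity
          nlinarith
        have h12 : 0 < 1 / y := by positivity
        have e2 : 2 / y = 2 * (1 / y) := by ring
        rw [e2]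
        linarith
      linarith
  · intro S hS T hT hST
    have h1 := Nat.primeFactors_prod (hF S hS).1
    have h2 := Nat.primeFactors_prod (hF T hT).1
    rw [← h1, ← h2]
    exact congrArg _ hST

/-- exponents -/
def ee (y : ℝ) (p : ℕ) : ℕ := max 1 (Nat.log p ⌊y⌋₊)

theorem ee_pos (y : ℝ) (p : ℕ) : 1 ≤ ee y p := le_max_left _ _

/-- if the exponent exceeds one then the prime is small -/
theorem ee_small {y : ℝ} (hy : 1 ≤ y) {p : ℕ} (hp : p.Prime) (h : 1 < ee y p) :
    (p:ℝ) ≤ Real.sqrt y ∧ ((p:ℝ) ^ ee y p ≤ y) := by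
  have h1 : ee y p = Nat.log p ⌊y⌋₊ := by
    unfold ee at h ⊢
    omega
  have hfl : ⌊y⌋₊ ≠ 0 := by
    have := (Nat.one_le_floor_iff y).2 hy
    omega
  have h2 : p ^ ee y p ≤ ⌊y⌋₊ := by rw [h1]; exact Nat.pow_log_le_self p hfl
  have h3 : ((p ^ ee y p : ℕ) : ℝ) ≤ y := (Nat.le_floor_iff (by linarith)).1 h2
  push_cast at h3
  refine ⟨?_, h3⟩
  apply Real.le_sqrt_of_sq_le
  refine le_trans ?_ h3
  exact pow_le_pow_right₀ (by exact_mod_cast hp.one_lt.le) h

/-- the inverse powers are small -/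
theorem ee_inv {y : ℝ} (hy : 1 ≤ y) {p : ℕ} (hp : p.Prime) :
    ((p:ℝ) ^ (ee y p + 1))⁻¹ ≤ (if (p:ℝ) ≤ Real.sqrt y then 1 / y else ((p:ℝ) ^ 2)⁻¹) := by
  have hp1 : (1:ℝ) < p := by exact_mod_cast hp.one_lt
  split_ifs with h
  · rw [one_div]
    refine inv_anti₀ (by linarith) ?_
    have h1 : ⌊y⌋₊ < p ^ (Nat.log p ⌊y⌋₊ + 1) := Nat.lt_pow_succ_log_self hp.one_lt _
    have h2 : y < (p:ℝ) ^ (Nat.log p ⌊y⌋₊ + 1) := by
      have h3 := Nat.lt_floor_add_one y
      have h4 : ((⌊y⌋₊ + 1 : ℕ) : ℝ) ≤ ((p ^ (Nat.log p ⌊y⌋₊ + 1) : ℕ) : ℝ) := by exact_mod_cast h1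
      push_cast at h4
      linarith
    refine h2.le.trans (pow_le_pow_right₀ hp1.le ?_)
    unfold ee
    omega
  · refine inv_anti₀ (by positivity) (pow_le_pow_right₀ hp1.le ?_)
    have := ee_pos y p
    omega

/-- the total loss -/
theorem loss {y : ℝ} (hy : 4 ≤ y) (S : Finset ℕ) (hS : ∀ p ∈ S, p.Prime) :
    ∑ p ∈ S, ((p:ℝ) ^ (ee y p + 1))⁻¹ ≤ 3 / Real.sqrt y := by
  have hy0 : 0 < y := by linarith
  have hs : 2 ≤ Real.sqrt y := by
    rw [show (2:ℝ) = Real.sqrt 4 by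
      rw [show (4:ℝ) = 2 ^ 2 by norm_num, Real.sqrt_sq (by norm_num)]]
    exact Real.sqrt_le_sqrt hy
  have hsq : Real.sqrt y * Real.sqrt y = y := Real.mul_self_sqrt hy0.le
  have h1 : ∑ p ∈ S, ((p:ℝ) ^ (ee y p + 1))⁻¹ ≤ ∑ p ∈ S, (if (p:ℝ) ≤ Real.sqrt y then 1 / y else ((p:ℝ) ^ 2)⁻¹) :=
    Finset.sum_le_sum fun p hp => ee_inv (by linarith) (hS p hp)
  refine h1.trans ?_
  rw [Finset.sum_ite]
  have h2 : ∑ p ∈ S.filter (fun p : ℕ => (p:ℝ) ≤ Real.sqrt y), 1 / y ≤ 1 / Real.sqrt y := by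
    rw [Finset.sum_const, nsmul_eq_mul]
    have h3 : (S.filter (fun p : ℕ => (p:ℝ) ≤ Real.sqrt y)).card ≤ ⌊Real.sqrt y⌋₊ := by
      have h4 : S.filter (fun p : ℕ => (p:ℝ) ≤ Real.sqrt y) ⊆ Finset.Icc 1 ⌊Real.sqrt y⌋₊ := by
        intro p hp
        rw [Finset.mem_filter] at hp
        rw [Finset.mem_Icc]
        exact ⟨(hS p hp.1).one_lt.le, Nat.le_floor hp.2⟩
      have := Finset.card_le_card h4
      rwa [Nat.card_Icc, Nat.add_sub_cancel] at this
    have h4 : ((S.filter (fun p : ℕ => (p:ℝ) ≤ Real.sqrt y)).card : ℝ) ≤ Real.sqrt y :=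
      (by exact_mod_cast h3 : ((S.filter (fun p : ℕ => (p:ℝ) ≤ Real.sqrt y)).card : ℝ) ≤ (⌊Real.sqrt y⌋₊ : ℝ)).trans
        (Nat.floor_le (Real.sqrt_nonneg y))
    calc ((S.filter (fun p : ℕ => (p:ℝ) ≤ Real.sqrt y)).card : ℝ) * (1 / y) ≤ Real.sqrt y * (1 / y) := by gcongr
      _ = 1 / Real.sqrt y := by
          nth_rewrite 2 [← hsq]
          field_simp
  have h3 : ∑ p ∈ S.filter (fun p : ℕ => ¬ (p:ℝ) ≤ Real.sqrt y), ((p:ℝ) ^ 2)⁻¹ ≤ 2 / Real.sqrt y := by
    have h4 : S.filter (fun p : ℕ => ¬ (p:ℝ) ≤ Real.sqrt y) ⊆ Finset.Ioc ⌊Real.sqrt y⌋₊ (S.sup id) := by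
      intro p hp
      rw [Finset.mem_filter] at hp
      rw [Finset.mem_Ioc]
      refine ⟨?_, Finset.le_sup (f := id) hp.1⟩
      rw [Nat.floor_lt (Real.sqrt_nonneg y)]
      exact not_le.1 hp.2
    refine (Finset.sum_le_sum_of_subset_of_nonneg h4 fun _ _ _ => by positivity).trans ?_
    have hN : 1 ≤ ⌊Real.sqrt y⌋₊ := (Nat.one_le_floor_iff _).2 (by linarith)
    refine (inv_sq_tail _ hN _).trans ?_
    have h6 : Real.sqrt y < ⌊Real.sqrt y⌋₊ + 1 := Nat.lt_floor_add_one _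
    have h7 : (1:ℝ) ≤ (⌊Real.sqrt y⌋₊ : ℝ) := by exact_mod_cast hN
    rw [div_le_div_iff₀ (by linarith) (by linarith)]
    linarith
  have e : 3 / Real.sqrt y = 1 / Real.sqrt y + 2 / Real.sqrt y := by ring
  rw [e]
  linarith

/-- the additional size -/
theorem extra {y : ℝ} (hy : 4 ≤ y) (S : Finset ℕ) (hS : ∀ p ∈ S, p.Prime) :
    ∑ p ∈ S, (ee y p : ℝ) * Real.log p ≤ ∑ p ∈ S, Real.log p + Real.sqrt y * Real.log y := by
  have hy0 : 0 < y := by linarith
  have hl0 : 0 ≤ Real.log y := Real.log_nonneg (by linarith)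
  have h1 : ∀ p ∈ S, (ee y p : ℝ) * Real.log p ≤ Real.log p + (if (p:ℝ) ≤ Real.sqrt y then Real.log y else 0) := by
    intro p hp
    have hp1 : (1:ℝ) < p := by exact_mod_cast (hS p hp).one_lt
    have hlp : 0 < Real.log p := Real.log_pos hp1
    by_cases h : 1 < ee y p
    · obtain ⟨h2, h3⟩ := ee_small (by linarith) (hS p hp) h
      rw [if_pos h2]
      have h4 := Real.log_le_log (by positivity) h3
      rw [Real.log_pow] at h4
      linarith
    · have h2 : ee y p = 1 := le_antisymm (not_lt.1 h) (ee_pos y p)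
      rw [h2, Nat.cast_one, one_mul]
      split_ifs <;> linarith
  refine (Finset.sum_le_sum h1).trans ?_
  rw [Finset.sum_add_distrib, ← Finset.sum_filter, Finset.sum_const, nsmul_eq_mul]
  have h3 : (S.filter (fun p : ℕ => (p:ℝ) ≤ Real.sqrt y)).card ≤ ⌊Real.sqrt y⌋₊ := by
    have h4 : S.filter (fun p : ℕ => (p:ℝ) ≤ Real.sqrt y) ⊆ Finset.Icc 1 ⌊Real.sqrt y⌋₊ := by
      intro p hp
      rw [Finset.mem_filter] at hp
      rw [Finset.mem_Icc]
      exact ⟨(hS p hp.1).one_lt.le, Nat.le_floor hp.2⟩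
    have := Finset.card_le_card h4
    rwa [Nat.card_Icc, Nat.add_sub_cancel] at this
  have h4 : ((S.filter (fun p : ℕ => (p:ℝ) ≤ Real.sqrt y)).card : ℝ) ≤ Real.sqrt y :=
    (by exact_mod_cast h3 : ((S.filter (fun p : ℕ => (p:ℝ) ≤ Real.sqrt y)).card : ℝ) ≤ (⌊Real.sqrt y⌋₊ : ℝ)).trans
      (Nat.floor_le (Real.sqrt_nonneg y))
  have := mul_le_mul_of_nonneg_right h4 hl0
  linarith

theorem RC_swap {η κ b1 : ℝ} (h0 : 0 < η) (h1 : η ≤ 1) (hs : Small η) (hκ0 : 0 < κ) (hκ : κ < η)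
    (hκb : κ + η < 2 - b1) (hb1 : b1 < 1 / 2) (hb0 : 0 < b1) :
    ∀ᶠ y : ℝ in atTop, y ^ (-b1) ≤ bb ethe (Real.log y) → 2 ^ ⌊y ^ κ⌋₊ ≤ RC (Real.exp (2 * y)) := by
  classical
  filter_upwards [family h0 h1 hs hκ0 hκ hκb, plog (-(1 / 2)) (-b1) 24 (by linarith),
    plog (1 / 2) 1 10 (by norm_num), eventually_ge_atTop 10]
    with y hfam hp hp2 hy10 hbb
  obtain ⟨𝓕, D, hD0, hD, hcard, hF⟩ := hfam
  have hy0 : 0 < y := by linarith
  have hl1 : 1 ≤ Real.log y := log_one_le (by linarith)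
  have hb1y : y ^ (-b1) ≤ 1 := Real.rpow_le_one_of_one_le_of_nonpos (by linarith) (by linarith)
  rw [← Real.sqrt_eq_rpow, Real.rpow_one] at hp2
  have hs0 : 0 < Real.sqrt y := Real.sqrt_pos.2 hy0
  have hs1 : 1 ≤ Real.sqrt y := by
    rw [show (1:ℝ) = Real.sqrt 1 by simp]
    exact Real.sqrt_le_sqrt (by linarith)
  have hsq : Real.sqrt y * Real.sqrt y = y := Real.mul_self_sqrt hy0.le
  refine hcard.trans ?_
  unfold RC
  refine Finset.card_le_card_of_injOn (fun S => ∏ p ∈ S, p ^ ee y p) ?_ ?_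
  · intro S hS
    obtain ⟨hpr, hsm, hlog, hgg⟩ := hF S hS
    simp only [Finset.coe_filter, Set.mem_setOf_eq, Finset.mem_Icc]
    set n : ℕ := ∏ p ∈ S, p ^ ee y p with hn
    have h5 : 5 ∈ S := hsm 5 (by norm_num) (by norm_num; linarith)
    have hn0 : 0 < n := Finset.prod_pos fun p hp => pow_pos (hpr p hp).pos _
    have hn5 : 5 ≤ n := by
      refine Nat.le_of_dvd hn0 (dvd_trans ?_ (Finset.dvd_prod_of_mem (fun p => p ^ ee y p) h5))
      exact dvd_pow_self 5 (by have := ee_pos y 5; omega)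
    have hlogn : Real.log n = ∑ p ∈ S, (ee y p : ℝ) * Real.log p := by
      rw [hn]
      push_cast
      rw [Real.log_prod (fun p hp => by
        have : (p:ℝ) ≠ 0 := by exact_mod_cast (hpr p hp).ne_zero
        positivity)]
      refine Finset.sum_congr rfl fun p _ => ?_
      rw [Real.log_pow]
    have hex := extra (show 4 ≤ y by linarith) S hpr
    have hlos := loss (show 4 ≤ y by linarith) S hpr
    have hn5' : (5:ℝ) ≤ n := by exact_mod_cast hn5
    refine ⟨⟨by omega, Nat.le_floor ?_⟩, ?_⟩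
    · rw [← Real.log_le_iff_le_exp (by linarith), hlogn]
      have := theta_up hy0.le
      nlinarith
    · rw [RE_iff (by omega), hn, sigma_prod S hpr (ee y), ← hn]
      have hl : 1 < Real.log n := by
        rw [Real.lt_log_iff_exp_lt (by linarith)]
        have := Real.exp_one_lt_three
        linarith
      have h6 := logs hl1 hy0 hl (X := 4 * D * y + Real.sqrt y * Real.log y) (by rw [hlogn]; linarith)
      have h7 : (4 * D * y + Real.sqrt y * Real.log y) / (y * Real.log y) ≤ 4 * D + 1 / Real.sqrt y := by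
        rw [add_div]
        have a1 : 4 * D * y / (y * Real.log y) ≤ 4 * D := by
          rw [div_le_iff₀ (by positivity)]
          have : 0 ≤ 4 * D * y := by positivity
          nlinarith
        have a2 : Real.sqrt y * Real.log y / (y * Real.log y) = 1 / Real.sqrt y := by
          nth_rewrite 3 [← hsq]
          field_simp
        rw [a2]
        linarith
      have h8 := mertens_id hl1 hy0
      have h9 := rr_le (show 1 ≤ y by linarith)
      have h10 : 2 / y + 7 / Real.sqrt y ≤ y ^ (-b1) / 2 := by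
        have e : y ^ (-(1 / 2) : ℝ) = 1 / Real.sqrt y := by
          rw [Real.rpow_neg hy0.le, ← Real.sqrt_eq_rpow, one_div]
        rw [e] at hp
        have h11 : 24 * (1 / Real.sqrt y) ≤ 24 * (1 / Real.sqrt y) * Real.log y := by
          have : 0 < 24 * (1 / Real.sqrt y) := by positivity
          nlinarith
        have h12 : 2 / y ≤ 2 / Real.sqrt y := by
          refine div_le_div_of_nonneg_left (by norm_num) hs0 ?_
          nlinarith
        have e2 : 2 / Real.sqrt y = 2 * (1 / Real.sqrt y) := by ring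
        have e3 : 7 / Real.sqrt y = 7 * (1 / Real.sqrt y) := by ring
        rw [e3]
        rw [e2] at h12
        have h13 : 0 < 1 / Real.sqrt y := by positivity
        linarith
      -- the loss
      have h11 : ∑ p ∈ S, gg p - 2 * (3 / Real.sqrt y) ≤
          ∑ p ∈ S, (gg p + Real.log (1 - ((p:ℝ) ^ (ee y p + 1))⁻¹)) := by
        rw [Finset.sum_add_distrib]
        have h12 : ∀ p ∈ S, -(2 * ((p:ℝ) ^ (ee y p + 1))⁻¹) ≤ Real.log (1 - ((p:ℝ) ^ (ee y p + 1))⁻¹) := by
          intro p hp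
          have hp2 : 2 ≤ p := (hpr p hp).two_le
          have hq2 : 2 ≤ p ^ (ee y p + 1) := hp2.trans (Nat.le_self_pow (by omega) p)
          have h13 := (gg_bd (p := p ^ (ee y p + 1)) hq2).2
          unfold gg at h13
          push_cast at h13
          have hq2' : (2:ℝ) ≤ (p:ℝ) ^ (ee y p + 1) := by exact_mod_cast hq2
          set x : ℝ := ((p:ℝ) ^ (ee y p + 1))⁻¹ with hx
          have hx0 : 0 < x := by positivity
          have hx1 : x ≤ 2⁻¹ := inv_anti₀ (by norm_num) hq2'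
          have h14 : (((p:ℝ) ^ (ee y p + 1)) ^ 2)⁻¹ = x ^ 2 := by rw [hx, inv_pow]
          rw [h14] at h13
          norm_num at hx1
          nlinarith
        have h13 := Finset.sum_le_sum h12
        rw [Finset.sum_neg_distrib, ← Finset.mul_sum] at h13
        linarith
      have e4 : 2 * (3 / Real.sqrt y) = 6 / Real.sqrt y := by ring
      have e5 : 7 / Real.sqrt y = 6 / Real.sqrt y + 1 / Real.sqrt y := by ring
      rw [e4] at h11
      rw [e5] at h10
      linarith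
  · intro S hS T hT hST
    have key : ∀ S ∈ 𝓕, ∀ p : ℕ, p ∈ S ↔ p.Prime ∧ p ∣ ∏ q ∈ S, q ^ ee y q := by
      intro S hS p
      obtain ⟨hpr, _, _, _⟩ := hF S hS
      constructor
      · intro h
        refine ⟨hpr p h, dvd_trans ?_ (Finset.dvd_prod_of_mem (fun p => p ^ ee y p) h)⟩
        exact dvd_pow_self p (by have := ee_pos y p; omega)
      · rintro ⟨h1, h2⟩
        obtain ⟨q, hq, hpq⟩ := (h1.prime.dvd_finset_prod_iff _).1 h2
        have := (Nat.prime_dvd_prime_iff_eq h1 (hpr q hq)).1 (h1.dvd_of_dvd_pow hpq)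
        rwa [this]
    have hST' : ∏ q ∈ S, q ^ ee y q = ∏ q ∈ T, q ^ ee y q := hST
    ext p
    rw [key S hS, key T hT, hST']

end

end Pool.Agent.R303.Rob
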