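import Pool.Agent.R303.Rob.Zet
import Pool.Agent.H305R2.MertensE

/-! # Mertens' theorem with the tail integral of the error term -/

set_option autoImplicit false

open MeasureTheory Filter Topology Set

namespace Pool.Agent.R303.Rob

noncomputable section

/-- `-log (1 - 1/p)` -/
def gg (p : ℕ) : ℝ := -Real.log (1 - (p : ℝ)⁻¹)

/-- the logarithm of the Euler product up to `y` -/
def LL (y : ℝ) : ℝ := ∑ p ∈ (Finset.Icc 1 ⌊y⌋₊).filter Nat.Prime, gg p

/-- the weight in the original variable -/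
def WW (u : ℝ) : ℝ := (1 + Real.log u) / (u ^ 2 * Real.log u ^ 2)

theorem WW_exp (x : ℝ) (hx : 0 < x) : Real.exp x * ((Chebyshev.theta (Real.exp x) - Real.exp x) * WW (Real.exp x)) =
    ethe x * wt x := by
  unfold WW ethe wt
  rw [Real.log_exp, Real.exp_neg]
  have := Real.exp_pos x
  field_simp

theorem WW_int {y : ℝ} (hy : 1 ≤ Real.log y) (hy0 : 0 < y) :
    IntegrableOn (fun u => (Chebyshev.theta u - u) * WW u) (Ioi y) ∧
      ∫ u in Ioi y, (Chebyshev.theta u - u) * WW u = -bb ethe (Real.log y) := by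
  have h1 := integral_comp_exp_Ioi (fun u => (Chebyshev.theta u - u) * WW u) (Real.log y)
  have h2 := integrableOn_comp_exp_Ioi (fun u => (Chebyshev.theta u - u) * WW u) (Real.log y)
  rw [Real.exp_log hy0] at h1 h2
  have h3 : ∀ x ∈ Ioi (Real.log y), Real.exp x • ((Chebyshev.theta (Real.exp x) - Real.exp x) * WW (Real.exp x)) =
      ew ethe x := by
    intro x hx
    have hx1 : Real.log y < x := hx
    rw [smul_eq_mul, WW_exp x (by linarith)]
    unfold ew
    rw [indicator_of_mem (show x ∈ Ioi (1:ℝ) from lt_of_le_of_lt hy hx1)]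
  constructor
  · rw [← h2]
    refine IntegrableOn.congr_fun (f := ew ethe) ethe_adm.int.integrableOn (fun x hx => ?_) measurableSet_Ioi
    exact (h3 x hx).symm
  · rw [← h1, setIntegral_congr_fun measurableSet_Ioi h3]
    unfold bb
    ring

theorem ff_deriv {u : ℝ} (hu : 1 < u) :
    HasDerivAt (fun u : ℝ => (u * Real.log u)⁻¹) (-WW u) u := by
  have hl : 0 < Real.log u := Real.log_pos hu
  have hu0 : 0 < u := by linarith
  have h1 : HasDerivAt (fun u : ℝ => u * Real.log u) (Real.log u + 1) u := Real.hasDerivAt_mul_log hu0.ne'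
  have h2 := h1.fun_inv (by positivity)
  refine h2.congr_deriv ?_
  unfold WW
  field_simp
  ring

theorem gg2_deriv {u : ℝ} (hu : 1 < u) :
    HasDerivAt (fun u : ℝ => Real.log (Real.log u) - (Real.log u)⁻¹) (u * WW u) u := by
  have hl : 0 < Real.log u := Real.log_pos hu
  have hu0 : 0 < u := by linarith
  have h1 : HasDerivAt Real.log u⁻¹ u := Real.hasDerivAt_log hu0.ne'
  have h2 := (h1.log hl.ne').fun_sub (h1.fun_inv hl.ne')
  refine h2.congr_deriv ?_
  unfold WW
  field_simp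
  ring

theorem WW_cont {a b : ℝ} (ha : 1 < a) : ContinuousOn WW (Icc a b) := by
  unfold WW
  have h1 : ContinuousOn Real.log (Icc a b) := fun x hx =>
    (Real.continuousAt_log (by have := hx.1; linarith)).continuousWithinAt
  refine ContinuousOn.div (continuousOn_const.add h1) ((continuousOn_id.pow 2).mul (h1.pow 2)) fun x hx => ?_
  have hx1 : 1 < x := lt_of_lt_of_le ha hx.1
  have := Real.log_pos hx1
  have : 0 < x ^ 2 * Real.log x ^ 2 := by positivity
  simpa using this.ne'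

theorem recip_abel {a b : ℝ} (ha : 1 ≤ Real.log a) (ha0 : 0 < a) (hab : a ≤ b) :
    ∑ p ∈ (Finset.Ioc ⌊a⌋₊ ⌊b⌋₊).filter Nat.Prime, (p : ℝ)⁻¹ =
      ((Chebyshev.theta b - b) / (b * Real.log b) + Real.log (Real.log b) + bb ethe (Real.log b)) -
      ((Chebyshev.theta a - a) / (a * Real.log a) + Real.log (Real.log a) + bb ethe (Real.log a)) := by
  have ha1 : 1 < a := by
    by_contra h
    push Not at h
    have := Real.log_nonpos ha0.le h
    linarith
  have hb0 : 0 < b := by linarith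
  have hlb : 1 ≤ Real.log b := ha.trans (Real.log_le_log ha0 hab)
  have hdiff : ∀ t ∈ Icc a b, DifferentiableAt ℝ (fun u : ℝ => (u * Real.log u)⁻¹) t := fun t ht =>
    (ff_deriv (lt_of_lt_of_le ha1 ht.1)).differentiableAt
  have hder : ∀ t ∈ Icc a b, deriv (fun u : ℝ => (u * Real.log u)⁻¹) t = -WW t := fun t ht =>
    (ff_deriv (lt_of_lt_of_le ha1 ht.1)).deriv
  have hint : IntegrableOn (deriv (fun u : ℝ => (u * Real.log u)⁻¹)) (Icc a b) := by
    have h1 : IntegrableOn (fun t => -WW t) (Icc a b) := (WW_cont ha1).neg.integrableOn_compact isCompact_Icc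
    exact h1.congr_fun (fun t ht => (hder t ht).symm) measurableSet_Icc
  have key := sum_mul_eq_sub_sub_integral_mul (fun k : ℕ => if k.Prime then Real.log k else 0) ha0.le hab hdiff hint
  have hth : ∀ t : ℝ, ∑ k ∈ Finset.Icc 0 ⌊t⌋₊, (if k.Prime then Real.log k else 0) = Chebyshev.theta t := by
    intro t
    rw [Chebyshev.theta_eq_sum_Icc, Finset.sum_filter]
  simp_rw [hth] at key
  have e1 : ∑ k ∈ Finset.Ioc ⌊a⌋₊ ⌊b⌋₊, ((k : ℝ) * Real.log k)⁻¹ * (if k.Prime then Real.log k else 0) =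
      ∑ p ∈ (Finset.Ioc ⌊a⌋₊ ⌊b⌋₊).filter Nat.Prime, (p : ℝ)⁻¹ := by
    rw [Finset.sum_filter]
    refine Finset.sum_congr rfl fun k _ => ?_
    split_ifs with h
    · have h1 : (1:ℝ) < k := by exact_mod_cast h.one_lt
      have h2 := Real.log_pos h1
      field_simp
    · rw [mul_zero]
  rw [e1] at key
  rw [key]
  -- the integral
  obtain ⟨i1, i2⟩ := WW_int ha ha0
  obtain ⟨i3, i4⟩ := WW_int hlb hb0
  have i5 : ∫ u in Ioc a b, (Chebyshev.theta u - u) * WW u = -bb ethe (Real.log a) + bb ethe (Real.log b) := by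
    have hsplit : Ioc a b ∪ Ioi b = Ioi a := Ioc_union_Ioi_eq_Ioi hab
    have hdisj : Disjoint (Ioc a b) (Ioi b) := by
      rw [Set.disjoint_left]
      intro x hx hx'
      exact absurd hx.2 (not_le.2 hx')
    have := setIntegral_union hdisj measurableSet_Ioi (i1.mono_set (by rw [← hsplit]; exact subset_union_left))
      (i1.mono_set (by rw [← hsplit]; exact subset_union_right))
    rw [hsplit, i2, i4] at this
    linarith
  have i6 : ∫ u in Ioc a b, u * WW u = (Real.log (Real.log b) - (Real.log b)⁻¹) - (Real.log (Real.log a) - (Real.log a)⁻¹) := by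
    rw [← intervalIntegral.integral_of_le hab]
    have hc : ContinuousOn (fun u => u * WW u) (Icc a b) := continuousOn_id.mul (WW_cont ha1)
    refine intervalIntegral.integral_eq_sub_of_hasDerivAt
      (f := fun u : ℝ => Real.log (Real.log u) - (Real.log u)⁻¹) (f' := fun u => u * WW u) (fun u hu => ?_) ?_
    · rw [uIcc_of_le hab] at hu
      exact gg2_deriv (lt_of_lt_of_le ha1 hu.1)
    · rw [intervalIntegrable_iff_integrableOn_Icc_of_le hab]
      exact hc.integrableOn_compact isCompact_Icc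
  have i7 : ∫ t in Ioc a b, deriv (fun u : ℝ => (u * Real.log u)⁻¹) t * Chebyshev.theta t =
      -((∫ u in Ioc a b, (Chebyshev.theta u - u) * WW u) + ∫ u in Ioc a b, u * WW u) := by
    have hI1 : IntegrableOn (fun u => (Chebyshev.theta u - u) * WW u) (Ioc a b) := i1.mono_set Ioc_subset_Ioi_self
    have hI2 : IntegrableOn (fun u => u * WW u) (Ioc a b) :=
      ((continuousOn_id.mul (WW_cont ha1)).integrableOn_compact isCompact_Icc).mono_set Ioc_subset_Icc_self
    rw [← integral_add hI1 hI2, ← integral_neg]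
    refine setIntegral_congr_fun measurableSet_Ioc fun t ht => ?_
    rw [hder t (Ioc_subset_Icc_self ht)]
    ring
  rw [i7, i5, i6]
  have hla : Real.log a ≠ 0 := by linarith
  have hlb' : Real.log b ≠ 0 := by linarith
  field_simp
  ring

/-- the excess of `gg p` over `1 / p` -/
def hh (p : ℕ) : ℝ := if p.Prime then gg p - (p : ℝ)⁻¹ else 0

theorem gg_bd {p : ℕ} (hp : 2 ≤ p) : (p : ℝ)⁻¹ ≤ gg p ∧ gg p ≤ (p : ℝ)⁻¹ + ((p : ℝ) ^ 2)⁻¹ := by
  have h2 : (2:ℝ) ≤ p := by exact_mod_cast hp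
  have h0 : (0:ℝ) < p := by linarith
  have h3 : 0 < 1 - (p : ℝ)⁻¹ := by
    have : (p : ℝ)⁻¹ ≤ 2⁻¹ := inv_anti₀ (by norm_num) h2
    norm_num at this ⊢
    linarith
  unfold gg
  constructor
  · have := Real.log_le_sub_one_of_pos h3
    linarith
  · have h4 : (p : ℝ)⁻¹ ≤ 1 / 2 := by
      rw [one_div]
      exact inv_anti₀ (by norm_num) h2
    set x : ℝ := (p : ℝ)⁻¹ with hx
    have hx0 : 0 < x := by positivity
    have h5 : ((p : ℝ) ^ 2)⁻¹ = x ^ 2 := by rw [hx, inv_pow]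
    rw [h5]
    have h6 : Real.exp (-(x + x ^ 2)) ≤ 1 - x := by
      have h7 : 0 ≤ x + x ^ 2 := by positivity
      have h8 : 1 + (x + x ^ 2) + (x + x ^ 2) ^ 2 / 2 ≤ Real.exp (x + x ^ 2) := Real.quadratic_le_exp_of_nonneg h7
      rw [Real.exp_neg]
      have h9 : (1 - x)⁻¹ ≤ Real.exp (x + x ^ 2) := by
        refine le_trans ?_ h8
        rw [inv_le_iff_one_le_mul₀ h3]
        have : (1 + (x + x ^ 2) + (x + x ^ 2) ^ 2 / 2) * (1 - x) = 1 + x ^ 2 / 2 - x ^ 3 / 2 - x ^ 4 / 2 - x ^ 5 / 2 := by ring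
        rw [this]
        have a1 : x ^ 3 ≤ x ^ 2 / 2 := by nlinarith [sq_nonneg x]
        have a2 : x ^ 4 ≤ x ^ 2 / 4 := by nlinarith [sq_nonneg x, pow_pos hx0 3]
        have a3 : x ^ 5 ≤ x ^ 2 / 8 := by nlinarith [sq_nonneg x, pow_pos hx0 3, pow_pos hx0 4]
        nlinarith [sq_nonneg x]
      rw [inv_le_comm₀ (Real.exp_pos _) h3]
      exact h9
    have h7 := Real.log_le_log (Real.exp_pos _) h6
    rw [Real.log_exp] at h7
    linarith

theorem gg_anti {p q : ℕ} (hp : 2 ≤ p) (hpq : p ≤ q) : gg q ≤ gg p := by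
  have h2 : (2:ℝ) ≤ p := by exact_mod_cast hp
  have h3 : (p:ℝ) ≤ q := by exact_mod_cast hpq
  have h4 : (p : ℝ)⁻¹ ≤ 2⁻¹ := inv_anti₀ (by norm_num) h2
  have h5 : (q : ℝ)⁻¹ ≤ (p : ℝ)⁻¹ := inv_anti₀ (by linarith) h3
  norm_num at h4
  unfold gg
  refine neg_le_neg (Real.log_le_log (by linarith) (by linarith))

theorem hh_bd (p : ℕ) : 0 ≤ hh p ∧ hh p ≤ ((p : ℝ) ^ 2)⁻¹ := by
  unfold hh
  split_ifs with h
  · have := gg_bd h.two_le
    constructor <;> linarith
  · exact ⟨le_rfl, by positivity⟩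

theorem hh_summable : Summable hh := by
  refine Summable.of_nonneg_of_le (fun p => (hh_bd p).1) (fun p => (hh_bd p).2) ?_
  exact Real.summable_nat_pow_inv.2 (by norm_num)

/-- the tail of the series of excesses -/
def rr (y : ℝ) : ℝ := ∑' p, hh p - ∑ p ∈ Finset.Icc 1 ⌊y⌋₊, hh p

theorem rr_nonneg (y : ℝ) : 0 ≤ rr y := by
  unfold rr
  have := hh_summable.sum_le_tsum (Finset.Icc 1 ⌊y⌋₊) (fun p _ => (hh_bd p).1)
  linarith

theorem inv_sq_tail (N : ℕ) (hN : 1 ≤ N) (M : ℕ) : ∑ p ∈ Finset.Ioc N M, ((p : ℝ) ^ 2)⁻¹ ≤ 1 / N := by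
  have h1 := sum_Ioc_inv_sq_le_sub (α := ℝ) (k := N) (n := max N M) (by omega) (le_max_left _ _)
  have h2 : ∑ p ∈ Finset.Ioc N M, ((p : ℝ) ^ 2)⁻¹ ≤ ∑ p ∈ Finset.Ioc N (max N M), ((p : ℝ) ^ 2)⁻¹ := by
    refine Finset.sum_le_sum_of_subset_of_nonneg ?_ (fun _ _ _ => by positivity)
    exact Finset.Ioc_subset_Ioc_right (le_max_right _ _)
  have h3 : (0:ℝ) ≤ ((max N M : ℕ) : ℝ)⁻¹ := by positivity
  rw [one_div]
  linarith

theorem rr_le {y : ℝ} (hy : 1 ≤ y) : rr y ≤ 2 / y := by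
  have hN : 1 ≤ ⌊y⌋₊ := (Nat.one_le_floor_iff y).2 hy
  have h1 : ∑' p, hh p ≤ ∑ p ∈ Finset.Icc 1 ⌊y⌋₊, hh p + 1 / (⌊y⌋₊ : ℝ) := by
    refine Real.tsum_le_of_sum_range_le (fun p => (hh_bd p).1) fun n => ?_
    have h2 : ∑ p ∈ Finset.range n, hh p ≤ ∑ p ∈ Finset.Icc 1 ⌊y⌋₊ ∪ Finset.Ioc ⌊y⌋₊ n, hh p := by
      have h3 : ∑ p ∈ Finset.range n, hh p = ∑ p ∈ (Finset.range n).erase 0, hh p := by
        by_cases h : 0 ∈ Finset.range n
        · rw [← Finset.add_sum_erase _ _ h]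
          have : hh 0 = 0 := by unfold hh; simp [Nat.not_prime_zero]
          rw [this, zero_add]
        · rw [Finset.erase_eq_of_notMem h]
      rw [h3]
      refine Finset.sum_le_sum_of_subset_of_nonneg ?_ (fun _ _ _ => (hh_bd _).1)
      intro p hp
      rw [Finset.mem_erase, Finset.mem_range] at hp
      rw [Finset.mem_union, Finset.mem_Icc, Finset.mem_Ioc]
      omega
    refine h2.trans ?_
    rw [Finset.sum_union]
    · have h4 : ∑ p ∈ Finset.Ioc ⌊y⌋₊ n, hh p ≤ 1 / (⌊y⌋₊ : ℝ) :=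
        (Finset.sum_le_sum fun p _ => (hh_bd p).2).trans (inv_sq_tail _ hN n)
      linarith
    · rw [Finset.disjoint_left]
      intro p hp hp'
      rw [Finset.mem_Icc] at hp
      rw [Finset.mem_Ioc] at hp'
      omega
  have h5 : (1:ℝ) / (⌊y⌋₊ : ℝ) ≤ 2 / y := by
    have h6 : y < ⌊y⌋₊ + 1 := Nat.lt_floor_add_one y
    have h7 : (1:ℝ) ≤ (⌊y⌋₊ : ℝ) := by exact_mod_cast hN
    rw [div_le_div_iff₀ (by linarith) (by linarith)]
    linarith
  unfold rr
  linarith

/-- sums of `gg` -/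
theorem LL_split (y : ℝ) : LL y = ∑ p ∈ (Finset.Icc 1 ⌊y⌋₊).filter Nat.Prime, (p : ℝ)⁻¹ + ∑ p ∈ Finset.Icc 1 ⌊y⌋₊, hh p := by
  unfold LL hh
  rw [Finset.sum_filter, Finset.sum_filter, ← Finset.sum_add_distrib]
  refine Finset.sum_congr rfl fun p _ => ?_
  split_ifs <;> ring

/-- the deviation -/
def DD (y : ℝ) : ℝ := LL y + rr y -
  ((Chebyshev.theta y - y) / (y * Real.log y) + Real.log (Real.log y) + bb ethe (Real.log y))

theorem DD_const {a b : ℝ} (ha : 1 ≤ Real.log a) (ha0 : 0 < a) (hab : a ≤ b) : DD a = DD b := by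
  have h := recip_abel ha ha0 hab
  have hfl : ⌊a⌋₊ ≤ ⌊b⌋₊ := Nat.floor_le_floor hab
  have h2 : ∑ p ∈ (Finset.Icc 1 ⌊b⌋₊).filter Nat.Prime, (p : ℝ)⁻¹ =
      ∑ p ∈ (Finset.Icc 1 ⌊a⌋₊).filter Nat.Prime, (p : ℝ)⁻¹ + ∑ p ∈ (Finset.Ioc ⌊a⌋₊ ⌊b⌋₊).filter Nat.Prime, (p : ℝ)⁻¹ := by
    have e : Finset.Icc 1 ⌊b⌋₊ = Finset.Icc 1 ⌊a⌋₊ ∪ Finset.Ioc ⌊a⌋₊ ⌊b⌋₊ := by
      ext p
      rw [Finset.mem_union, Finset.mem_Icc, Finset.mem_Icc, Finset.mem_Ioc]
      omega
    rw [e, Finset.filter_union, Finset.sum_union]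
    rw [Finset.disjoint_left]
    intro p hp hp'
    rw [Finset.mem_filter, Finset.mem_Icc] at hp
    rw [Finset.mem_filter, Finset.mem_Ioc] at hp'
    omega
  unfold DD rr
  rw [LL_split, LL_split, h2, h]
  ring

theorem LL_tendsto : Tendsto (fun N : ℕ => LL N - Real.log (Real.log N)) atTop (𝓝 Real.eulerMascheroniConstant) := by
  have h := Pool.Agent.H305R2.mertens_three
  have h1 := (Real.continuousAt_log (Real.exp_pos Real.eulerMascheroniConstant).ne').tendsto.comp h
  rw [Real.log_exp] at h1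
  refine h1.congr' ?_
  filter_upwards [eventually_ge_atTop 3] with N hN
  have hN3 : (3:ℝ) ≤ N := by exact_mod_cast hN
  have hl : 0 < Real.log N := Real.log_pos (by linarith)
  have hpos : ∀ p ∈ (Finset.Icc 1 N).filter Nat.Prime, (1 - (p : ℝ)⁻¹)⁻¹ ≠ 0 := by
    intro p hp
    have h2 : (2:ℝ) ≤ p := by exact_mod_cast (Finset.mem_filter.1 hp).2.two_le
    have h3 : (p : ℝ)⁻¹ ≤ 2⁻¹ := inv_anti₀ (by norm_num) h2
    norm_num at h3
    have : 0 < 1 - (p : ℝ)⁻¹ := by linarith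
    positivity
  simp only [Function.comp_apply]
  rw [Real.log_div (Finset.prod_ne_zero_iff.2 hpos) hl.ne', Real.log_prod hpos]
  unfold LL gg
  rw [Nat.floor_natCast]
  congr 1
  refine Finset.sum_congr rfl fun p _ => ?_
  rw [Real.log_inv]

theorem DD_eq {y : ℝ} (hy : 1 ≤ Real.log y) (hy0 : 0 < y) : DD y = Real.eulerMascheroniConstant := by
  have h1 : Tendsto (fun N : ℕ => DD N) atTop (𝓝 (DD y)) := by
    refine tendsto_const_nhds.congr' ?_
    filter_upwards [eventually_ge_atTop ⌈y⌉₊] with N hN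
    exact DD_const hy hy0 ((Nat.le_ceil y).trans (by exact_mod_cast hN))
  have h2 : Tendsto (fun N : ℕ => DD N) atTop (𝓝 Real.eulerMascheroniConstant) := by
    have t1 : Tendsto (fun N : ℕ => Real.log (N : ℝ)) atTop atTop :=
      Real.tendsto_log_atTop.comp tendsto_natCast_atTop_atTop
    have t2 := (bb_tendsto ethe_adm).comp t1
    have t3 : Tendsto (fun N : ℕ => rr N) atTop (𝓝 0) := by
      refine squeeze_zero' (Eventually.of_forall fun N => rr_nonneg _) ?_ (tendsto_const_div_atTop_nhds_zero_nat 2)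
      filter_upwards [eventually_ge_atTop 1] with N hN
      exact rr_le (by exact_mod_cast hN)
    have t4 : Tendsto (fun N : ℕ => (Chebyshev.theta N - N) / (N * Real.log N)) atTop (𝓝 0) := by
      have t5 : Tendsto (fun N : ℕ => (Real.log 4 + 1) / Real.log (N : ℝ)) atTop (𝓝 0) := t1.const_div_atTop _
      refine squeeze_zero_norm' ?_ t5
      filter_upwards [eventually_ge_atTop 3] with N hN
      have hN3 : (3:ℝ) ≤ N := by exact_mod_cast hN
      have hl : 0 < Real.log N := Real.log_pos (by linarith)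
      have h4 : 0 < Real.log 4 := Real.log_pos (by norm_num)
      have a1 := Chebyshev.theta_le_log4_mul_x (Nat.cast_nonneg N : (0:ℝ) ≤ N)
      have a2 := Chebyshev.theta_nonneg (N : ℝ)
      rw [Real.norm_eq_abs, abs_div, abs_of_pos (show 0 < (N:ℝ) * Real.log N by positivity),
        div_le_div_iff₀ (by positivity) hl]
      have a3 : |Chebyshev.theta N - N| ≤ (Real.log 4 + 1) * N := by
        rw [abs_le]
        constructor <;> nlinarith
      calc |Chebyshev.theta N - N| * Real.log N ≤ ((Real.log 4 + 1) * N) * Real.log N := by gcongr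
        _ = _ := by ring
    have t6 := ((LL_tendsto.add t3).sub (t4.add t2))
    rw [add_zero, add_zero, sub_zero] at t6
    refine t6.congr fun N => ?_
    unfold DD
    simp only [Function.comp_apply]
    ring
  exact tendsto_nhds_unique h1 h2

/-- Mertens' theorem with the tail integral -/
theorem mertens_id {y : ℝ} (hy : 1 ≤ Real.log y) (hy0 : 0 < y) :
    LL y = Real.eulerMascheroniConstant + Real.log (Real.log y) + (Chebyshev.theta y - y) / (y * Real.log y) +
      bb ethe (Real.log y) - rr y := by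
  have := DD_eq hy hy0
  unfold DD at this
  linarith

end

end Pool.Agent.R303.Rob
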