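import Pool.Agent.R303.Rob.Lap

/-! # Integrals with the logarithmic weight -/

set_option autoImplicit false

open Complex MeasureTheory Filter Topology Set

namespace Pool.Agent.R303.Rob

noncomputable section

/-- the weight -/
def wt (t : ℝ) : ℝ := (1 + t) / t ^ 2

theorem wt_pos {t : ℝ} (ht : 1 ≤ t) : 0 < wt t := by unfold wt; positivity

theorem wt_le {t : ℝ} (ht : 1 ≤ t) : wt t ≤ 2 / t := by
  unfold wt
  rw [div_le_div_iff₀ (by positivity) (by positivity)]
  nlinarith

theorem wt_le2 {t : ℝ} (ht : 1 ≤ t) : wt t ≤ 2 := by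
  refine (wt_le ht).trans ?_
  rw [div_le_iff₀ (by linarith)]
  linarith

theorem wt_meas : Measurable wt := by unfold wt; fun_prop

/-- `e(t) wt(t)` on `(1, ∞)` -/
def ew (e : ℝ → ℝ) (t : ℝ) : ℝ := (Ioi (1:ℝ)).indicator (fun t => e t * wt t) t

/-- the tail integral -/
def bb (e : ℝ → ℝ) (v : ℝ) : ℝ := -∫ t in Ioi v, ew e t

/-- admissible functions -/
structure Adm (e : ℝ → ℝ) : Prop where
  meas : Measurable e
  bdd : ∃ K : ℝ, 0 < K ∧ ∀ t, 1 < t → |e t| ≤ K
  int : Integrable (ew e)

theorem ew_meas {e : ℝ → ℝ} (he : Measurable e) : Measurable (ew e) :=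
  (he.mul wt_meas).indicator measurableSet_Ioi

theorem adm_of_decay {e : ℝ → ℝ} (he : Measurable e) {K a : ℝ} (hK : 0 < K) (ha : 0 < a)
    (hb : ∀ t, 1 ≤ t → |e t| ≤ K * t ^ (-a)) : Adm e := by
  refine ⟨he, ⟨K, hK, fun t ht => ?_⟩, ?_⟩
  · refine (hb t ht.le).trans ?_
    have : t ^ (-a) ≤ 1 := Real.rpow_le_one_of_one_le_of_nonpos ht.le (by linarith)
    nlinarith
  · have h1 : IntegrableOn (fun t : ℝ => 2 * K * t ^ (-a - 1)) (Ioi 1) :=
      (integrableOn_Ioi_rpow_of_lt (by linarith) one_pos).const_mul _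
    have h2 : IntegrableOn (fun t : ℝ => e t * wt t) (Ioi 1) := by
      refine h1.mono' (he.mul wt_meas).aestronglyMeasurable ?_
      refine (ae_restrict_iff' measurableSet_Ioi).2 (ae_of_all _ fun t ht => ?_)
      have ht1 : (1:ℝ) < t := ht
      have ht0 : 0 < t := by linarith
      rw [norm_mul, Real.norm_eq_abs, Real.norm_eq_abs, abs_of_pos (wt_pos ht1.le)]
      calc |e t| * wt t ≤ (K * t ^ (-a)) * (2 / t) := by
            have := hb t ht1.le
            have := wt_le ht1.le
            have := (wt_pos ht1.le).le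
            gcongr
        _ = 2 * K * t ^ (-a - 1) := by
            rw [Real.rpow_sub ht0, Real.rpow_one]; ring
    exact h2.integrable_indicator measurableSet_Ioi

variable {e : ℝ → ℝ}

theorem bb_sub (he : Adm e) (v : ℝ) : bb e v = (∫ t in Iic v, ew e t) - ∫ t, ew e t := by
  unfold bb
  have := integral_add_compl (measurableSet_Iic (a := v)) he.int
  rw [compl_Iic] at this
  linarith

theorem bb_cont (he : Adm e) : Continuous (bb e) := by
  have h1 : bb e = fun v => (∫ t in (0:ℝ)..v, ew e t) + ((∫ t in Iic (0:ℝ), ew e t) - ∫ t, ew e t) := by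
    funext v
    rw [bb_sub he v]
    have := intervalIntegral.integral_Iic_sub_Iic (a := (0:ℝ)) (b := v) he.int.integrableOn he.int.integrableOn
    linarith
  rw [h1]
  exact (intervalIntegral.continuous_primitive (fun a b => he.int.intervalIntegrable) 0).add continuous_const

theorem bb_bdd (he : Adm e) (v : ℝ) : |bb e v| ≤ ∫ t, |ew e t| := by
  unfold bb
  rw [abs_neg]
  refine (abs_integral_le_integral_abs).trans ?_
  exact setIntegral_le_integral he.int.abs (ae_of_all _ fun t => abs_nonneg _)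

theorem bb_tendsto (he : Adm e) : Tendsto (bb e) atTop (𝓝 0) := by
  have h1 : Tendsto (fun v : ℝ => ∫ t in Iic v, ew e t) atTop (𝓝 (∫ t, ew e t)) := by
    have := tendsto_setIntegral_of_monotone (μ := volume) (s := fun v : ℝ => Iic v) (f := ew e)
      (fun v => measurableSet_Iic) (fun a b h => Iic_subset_Iic.2 h) he.int.integrableOn
    rwa [iUnion_Iic, setIntegral_univ] at this
  have h2 := h1.sub_const (∫ t, ew e t)
  rw [sub_self] at h2
  refine h2.congr fun v => ?_
  rw [bb_sub he v]

/-- the basic identity, by Fubini's theorem -/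
theorem bb_lap (he : Adm e) {s : ℂ} (hs : 0 < s.re) :
    s * LT (bb e) 0 s = bb e 1 * cexp (-s) + LT (fun t => e t * wt t) 0 s := by
  have hs0 : s ≠ 0 := by
    rintro rfl
    simp at hs
  set F : ℝ → ℝ → ℂ := fun v t => (Ioi v).indicator (fun t => (ew e t : ℂ) * cexp (-s * v)) t with hF
  have hexp : Integrable (fun v : ℝ => cexp (-s * v)) (volume.restrict (Ioi (1:ℝ))) := by
    have := LT_integrable (f := fun _ => (1:ℝ)) measurable_const (K := 1) (fun t _ => by simp) 0 hs
    simp only [pow_zero, mul_one, ofReal_one, one_mul] at this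
    exact this
  have hprod : Integrable (fun q : ℝ × ℝ => cexp (-s * q.1) * (ew e q.2 : ℂ))
      ((volume.restrict (Ioi (1:ℝ))).prod volume) := hexp.mul_prod he.int.ofReal
  have hFi : Integrable (Function.uncurry F) ((volume.restrict (Ioi (1:ℝ))).prod volume) := by
    have hset : MeasurableSet {q : ℝ × ℝ | q.1 < q.2} := measurableSet_lt measurable_fst measurable_snd
    have e1 : Function.uncurry F = {q : ℝ × ℝ | q.1 < q.2}.indicator
        (fun q : ℝ × ℝ => cexp (-s * q.1) * (ew e q.2 : ℂ)) := by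
      funext q
      obtain ⟨v, t⟩ := q
      rw [Function.uncurry_apply_pair, hF]
      simp only [indicator, mem_Ioi, mem_setOf_eq]
      split_ifs
      · ring
      · rfl
    rw [e1]
    exact hprod.indicator hset
  have hswap := integral_integral_swap (μ := volume.restrict (Ioi (1:ℝ))) (ν := volume) (f := F) hFi
  -- left side
  have hL : ∫ v in Ioi (1:ℝ), ∫ t, F v t = -LT (bb e) 0 s := by
    unfold LT
    rw [← integral_neg]
    refine integral_congr_ae (ae_of_all _ fun v => ?_)
    simp only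
    rw [hF]
    simp only
    rw [integral_indicator measurableSet_Ioi, integral_mul_const]
    unfold bb
    rw [integral_complex_ofReal]
    push_cast
    simp
  have hR : ∫ t, ∫ v in Ioi (1:ℝ), F v t = ∫ t in Ioi (1:ℝ), ((e t * wt t : ℝ) : ℂ) * ((cexp (-s) - cexp (-s * t)) / s) := by
    rw [← integral_indicator measurableSet_Ioi]
    refine integral_congr_ae (ae_of_all _ fun t => ?_)
    simp only
    by_cases ht : t ∈ Ioi (1:ℝ)
    · rw [indicator_of_mem ht]
      have ht1 : (1:ℝ) < t := ht
      have e2 : ∀ v : ℝ, F v t = (Iio t).indicator (fun v : ℝ => (ew e t : ℂ) * cexp (-s * v)) v := by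
        intro v
        rw [hF]
        simp only [indicator, mem_Ioi, mem_Iio]
      simp_rw [e2]
      rw [setIntegral_indicator measurableSet_Iio, integral_const_mul]
      have e3 : ew e t = e t * wt t := by
        unfold ew
        rw [indicator_of_mem ht]
      rw [e3]
      congr 1
      have e4 : Ioi (1:ℝ) ∩ Iio t = Ioo 1 t := rfl
      rw [e4, ← integral_Ioc_eq_integral_Ioo, ← intervalIntegral.integral_of_le ht1.le]
      have e5 := integral_exp_mul_complex (a := 1) (b := t) (c := -s) (neg_ne_zero.2 hs0)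
      rw [e5]
      simp only [ofReal_one, mul_one]
      field_simp
      ring
    · rw [indicator_of_notMem ht]
      have e3 : ew e t = 0 := by
        unfold ew
        rw [indicator_of_notMem ht]
      have e2 : ∀ v : ℝ, F v t = 0 := by
        intro v
        rw [hF]
        simp only [indicator]
        rw [e3]
        simp
      simp_rw [e2]
      simp
  rw [hL, hR] at hswap
  -- split
  have hi1 : IntegrableOn (fun t : ℝ => ((e t * wt t : ℝ) : ℂ)) (Ioi 1) := by
    have h1 : IntegrableOn (ew e) (Ioi 1) := he.int.integrableOn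
    have h2 : IntegrableOn (fun t => e t * wt t) (Ioi 1) := by
      refine h1.congr_fun (fun t ht => ?_) measurableSet_Ioi
      unfold ew
      rw [indicator_of_mem ht]
    exact h2.ofReal
  obtain ⟨K, hK, hKb⟩ := he.bdd
  have hew : ∀ t, 1 < t → |e t * wt t| ≤ 2 * K := by
    intro t ht
    rw [abs_mul, abs_of_pos (wt_pos ht.le)]
    have := hKb t ht
    have := wt_le2 ht.le
    have := (wt_pos ht.le).le
    nlinarith [abs_nonneg (e t)]
  have hi2 := LT_integrable (he.meas.mul wt_meas) hew 0 hs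
  have e6 : ∫ t in Ioi (1:ℝ), ((e t * wt t : ℝ) : ℂ) * ((cexp (-s) - cexp (-s * t)) / s) =
      (1 / s) * (cexp (-s) * (∫ t in Ioi (1:ℝ), ((e t * wt t : ℝ) : ℂ)) -
        ∫ t in Ioi (1:ℝ), ((e t * wt t : ℝ) : ℂ) * cexp (-s * t)) := by
    rw [← integral_const_mul, ← integral_sub (hi1.const_mul _), ← integral_const_mul]
    · refine integral_congr_ae (ae_of_all _ fun t => ?_)
      simp only
      ring
    · simp only [pow_zero, mul_one] at hi2
      exact hi2
  have e7 : (∫ t in Ioi (1:ℝ), ((e t * wt t : ℝ) : ℂ)) = -(bb e 1 : ℂ) := by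
    unfold bb
    rw [integral_complex_ofReal]
    push_cast
    rw [neg_neg]
    congr 1
    refine setIntegral_congr_fun measurableSet_Ioi fun t ht => ?_
    unfold ew
    rw [indicator_of_mem ht]
  have e8 : (∫ t in Ioi (1:ℝ), ((e t * wt t : ℝ) : ℂ) * cexp (-s * t)) =
      LT (fun t => e t * wt t) 0 s := by
    unfold LT
    simp
  rw [e6, e7, e8] at hswap
  have h9 : LT (bb e) 0 s = (1 / s) * (cexp (-s) * bb e 1 + LT (fun t => e t * wt t) 0 s) := by
    linear_combination -hswap
  rw [h9]
  field_simp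

theorem ew_bdd (he : Adm e) : ∃ K : ℝ, 0 < K ∧ ∀ t, 1 < t → |e t * wt t| ≤ K := by
  obtain ⟨K, hK, hKb⟩ := he.bdd
  refine ⟨2 * K, by positivity, fun t ht => ?_⟩
  rw [abs_mul, abs_of_pos (wt_pos ht.le)]
  have := hKb t ht
  have := wt_le2 ht.le
  have := (wt_pos ht.le).le
  nlinarith [abs_nonneg (e t)]

/-- the identity for all the moments -/
theorem bb_moment (he : Adm e) (k : ℕ) : ∀ s : ℂ, 0 < s.re →
    s * LT (bb e) (k + 1) s - (k + 1 : ℕ) * LT (bb e) k s =
      bb e 1 * cexp (-s) + LT (fun t => e t * wt t) (k + 1) s := by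
  obtain ⟨K, hK, hKb⟩ := ew_bdd he
  have hbm : Measurable (bb e) := (bb_cont he).measurable
  have hbb : ∀ t, 1 < t → |bb e t| ≤ ∫ t, |ew e t| := fun t _ => bb_bdd he t
  have hwm : Measurable (fun t => e t * wt t) := he.meas.mul wt_meas
  have hopen : IsOpen {z : ℂ | 0 < z.re} := isOpen_lt continuous_const Complex.continuous_re
  have hexp : ∀ s : ℂ, HasDerivAt (fun s : ℂ => (bb e 1 : ℂ) * cexp (-s)) (-((bb e 1 : ℂ) * cexp (-s))) s := by
    intro s
    have h1 : HasDerivAt (fun s : ℂ => cexp (-s)) (cexp (-s) * (-1)) s := (hasDerivAt_id s).neg.cexp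
    refine (h1.const_mul (bb e 1 : ℂ)).congr_deriv ?_
    ring
  induction k with
  | zero =>
    intro s hs
    have hL : HasDerivAt (fun s => s * LT (bb e) 0 s) (1 * LT (bb e) 0 s + s * (-LT (bb e) 1 s)) s :=
      (hasDerivAt_id s).mul (LT_hasDeriv hbm hbb 0 hs)
    have hR : HasDerivAt (fun s => (bb e 1 : ℂ) * cexp (-s) + LT (fun t => e t * wt t) 0 s)
        (-((bb e 1 : ℂ) * cexp (-s)) + -LT (fun t => e t * wt t) 1 s) s :=
      (hexp s).add (LT_hasDeriv hwm hKb 0 hs)
    have heq : (fun s => s * LT (bb e) 0 s) =ᶠ[𝓝 s]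
        fun s => (bb e 1 : ℂ) * cexp (-s) + LT (fun t => e t * wt t) 0 s := by
      filter_upwards [hopen.mem_nhds hs] with z hz using bb_lap he hz
    have := hL.unique (hR.congr_of_eventuallyEq heq)
    push_cast
    linear_combination -this
  | succ k ih =>
    intro s hs
    have hL : HasDerivAt (fun s => s * LT (bb e) (k + 1) s - (k + 1 : ℕ) * LT (bb e) k s)
        ((1 * LT (bb e) (k + 1) s + s * (-LT (bb e) (k + 1 + 1) s)) - (k + 1 : ℕ) * (-LT (bb e) (k + 1) s)) s :=
      ((hasDerivAt_id s).mul (LT_hasDeriv hbm hbb (k + 1) hs)).sub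
        ((LT_hasDeriv hbm hbb k hs).const_mul _)
    have hR : HasDerivAt (fun s => (bb e 1 : ℂ) * cexp (-s) + LT (fun t => e t * wt t) (k + 1) s)
        (-((bb e 1 : ℂ) * cexp (-s)) + -LT (fun t => e t * wt t) (k + 1 + 1) s) s :=
      (hexp s).add (LT_hasDeriv hwm hKb (k + 1) hs)
    have heq : (fun s => s * LT (bb e) (k + 1) s - (k + 1 : ℕ) * LT (bb e) k s) =ᶠ[𝓝 s]
        fun s => (bb e 1 : ℂ) * cexp (-s) + LT (fun t => e t * wt t) (k + 1) s := by
      filter_upwards [hopen.mem_nhds hs] with z hz using ih z hz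
    have := hL.unique (hR.congr_of_eventuallyEq heq)
    push_cast at this ⊢
    linear_combination -this

/-- the weight and the moments -/
theorem wt_moment (he : Adm e) (k : ℕ) {s : ℂ} (hs : 0 < s.re) :
    LT (fun t => e t * wt t) (k + 2) s = LT e k s + LT e (k + 1) s := by
  obtain ⟨K, hK, hKb⟩ := he.bdd
  unfold LT
  rw [← integral_add (LT_integrable he.meas hKb k hs) (LT_integrable he.meas hKb (k + 1) hs)]
  refine setIntegral_congr_fun measurableSet_Ioi fun t ht => ?_
  have ht1 : (1:ℝ) < t := ht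
  have ht0 : t ≠ 0 := by linarith
  simp only
  rw [← add_mul, ← ofReal_add]
  congr 2
  unfold wt
  field_simp
  ring

end

end Pool.Agent.R303.Rob
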