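import Pool.Agent.R303.Rob.Lo2

/-! # The sum of divisors -/

set_option autoImplicit false

open Finset Filter Topology

namespace Pool.Agent.R303.Rob

noncomputable section

/-- `n` violates the Robin inequality `σ(n) < e^γ n log log n` -/
def RE (n : ℕ) : Prop :=
  Real.exp Real.eulerMascheroniConstant * n * Real.log (Real.log n) ≤ (ArithmeticFunction.sigma 1 n : ℝ)

theorem sigma_pp {p : ℕ} (hp : p.Prime) (e : ℕ) :
    (ArithmeticFunction.sigma 1 (p ^ e) : ℝ) / (p ^ e : ℕ) = (1 - ((p:ℝ) ^ (e + 1))⁻¹) * (1 - (p : ℝ)⁻¹)⁻¹ := by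
  rw [ArithmeticFunction.sigma_one_apply_prime_pow hp]
  have hp1 : (1:ℝ) < p := by exact_mod_cast hp.one_lt
  have hp0 : (0:ℝ) < p := by linarith
  push_cast
  rw [geom_sum_eq hp1.ne']
  have h1 : (p : ℝ) - 1 ≠ 0 := by linarith
  have h2 : (1 - (p : ℝ)⁻¹) ≠ 0 := by
    have : (p : ℝ)⁻¹ < 1 := inv_lt_one_of_one_lt₀ hp1
    linarith
  rw [pow_succ]
  field_simp

theorem sigma_prod (S : Finset ℕ) (hS : ∀ p ∈ S, p.Prime) (e : ℕ → ℕ) :
    Real.log ((ArithmeticFunction.sigma 1 (∏ p ∈ S, p ^ e p) : ℝ) / ((∏ p ∈ S, p ^ e p : ℕ) : ℝ)) =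
      ∑ p ∈ S, (gg p + Real.log (1 - ((p:ℝ) ^ (e p + 1))⁻¹)) := by
  have h1 : ArithmeticFunction.sigma 1 (∏ p ∈ S, p ^ e p) = ∏ p ∈ S, ArithmeticFunction.sigma 1 (p ^ e p) := by
    refine ArithmeticFunction.IsMultiplicative.map_prod (fun p : ℕ => p ^ e p) ArithmeticFunction.isMultiplicative_sigma S ?_
    intro p hp q hq hpq
    exact Nat.coprime_pow_primes _ _ (hS p hp) (hS q hq) hpq
  rw [h1]
  push_cast
  rw [← Finset.prod_div_distrib]
  have h2 : ∀ p ∈ S, (ArithmeticFunction.sigma 1 (p ^ e p) : ℝ) / (p : ℝ) ^ e p =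
      (1 - ((p:ℝ) ^ (e p + 1))⁻¹) * (1 - (p : ℝ)⁻¹)⁻¹ := by
    intro p hp
    have := sigma_pp (hS p hp) (e p)
    push_cast at this
    exact this
  rw [Finset.prod_congr rfl h2]
  have hA : ∀ p ∈ S, 0 < (1 - ((p:ℝ) ^ (e p + 1))⁻¹) := by
    intro p hp
    have hp1 : (1:ℝ) < p := by exact_mod_cast (hS p hp).one_lt
    have : ((p:ℝ) ^ (e p + 1))⁻¹ < 1 := inv_lt_one_of_one_lt₀ (one_lt_pow₀ hp1 (by omega))
    linarith
  have hB : ∀ p ∈ S, 0 < (1 - (p : ℝ)⁻¹) := by
    intro p hp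
    have hp1 : (1:ℝ) < p := by exact_mod_cast (hS p hp).one_lt
    have : (p:ℝ)⁻¹ < 1 := inv_lt_one_of_one_lt₀ hp1
    linarith
  rw [Real.log_prod (fun p hp => (mul_pos (hA p hp) (inv_pos.2 (hB p hp))).ne')]
  refine Finset.sum_congr rfl fun p hp => ?_
  rw [Real.log_mul (hA p hp).ne' (inv_pos.2 (hB p hp)).ne', Real.log_inv]
  unfold gg
  ring

theorem RE_iff {n : ℕ} (hn : 3 ≤ n) : RE n ↔ Real.eulerMascheroniConstant + Real.log (Real.log (Real.log n)) ≤
    Real.log ((ArithmeticFunction.sigma 1 n : ℝ) / n) := by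
  have hn3 : (3:ℝ) ≤ n := by exact_mod_cast hn
  have hn0 : (0:ℝ) < n := by linarith
  have hl : 0 < Real.log (Real.log n) := by
    refine Real.log_pos ?_
    rw [Real.lt_log_iff_exp_lt hn0]
    have := Real.exp_one_lt_three
    linarith
  have hσ : (0:ℝ) < ArithmeticFunction.sigma 1 n := by
    have : 0 < ArithmeticFunction.sigma 1 n := by
      rw [ArithmeticFunction.sigma_one_apply]
      exact Finset.sum_pos (fun d hd => Nat.pos_of_mem_divisors hd) (Nat.nonempty_divisors.2 (by omega))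
    exact_mod_cast this
  unfold RE
  have h1 : Real.exp Real.eulerMascheroniConstant * n * Real.log (Real.log n) ≤ (ArithmeticFunction.sigma 1 n : ℝ) ↔
      Real.exp Real.eulerMascheroniConstant * Real.log (Real.log n) ≤ (ArithmeticFunction.sigma 1 n : ℝ) / n := by
    rw [le_div_iff₀ hn0]
    constructor <;> intro h <;> linarith
  rw [h1, ← Real.log_le_log_iff (by positivity) (by positivity), Real.log_mul (Real.exp_pos _).ne' hl.ne', Real.log_exp]

theorem NE_iff {n : ℕ} (hn : 3 ≤ n) : NE n ↔ Real.eulerMascheroniConstant + Real.log (Real.log (Real.log n)) <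
    ∑ p ∈ n.primeFactors, gg p := by
  have hn3 : (3:ℝ) ≤ n := by exact_mod_cast hn
  have hn0 : (0:ℝ) < n := by linarith
  have hl : 0 < Real.log (Real.log n) := by
    refine Real.log_pos ?_
    rw [Real.lt_log_iff_exp_lt hn0]
    have := Real.exp_one_lt_three
    linarith
  have hφ : (0:ℝ) < (Nat.totient n : ℝ) := by exact_mod_cast Nat.totient_pos.2 (by omega)
  unfold NE
  rw [← log_div_totient (by omega), ← Real.log_lt_log_iff (by positivity) (by positivity),
    Real.log_mul (Real.exp_pos _).ne' hl.ne', Real.log_exp]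

/-- violating the Robin inequality implies violating the Nicolas inequality -/
theorem RE_NE {n : ℕ} (hn : 3 ≤ n) (h : RE n) : NE n := by
  rw [RE_iff hn] at h
  rw [NE_iff hn]
  refine lt_of_le_of_lt h ?_
  have hn0 : n ≠ 0 := by omega
  have h1 : ∏ p ∈ n.primeFactors, p ^ n.factorization p = n := Nat.prod_factorization_pow_eq_self hn0
  have h2 := sigma_prod n.primeFactors (fun p hp => Nat.prime_of_mem_primeFactors hp) n.factorization
  rw [h1] at h2
  rw [h2]
  have hne : n.primeFactors.Nonempty := Nat.nonempty_primeFactors.2 (by omega)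
  refine Finset.sum_lt_sum_of_nonempty hne fun p hp => ?_
  have hp1 : (1:ℝ) < p := by exact_mod_cast (Nat.prime_of_mem_primeFactors hp).one_lt
  have h3 : ((p:ℝ) ^ (n.factorization p + 1))⁻¹ < 1 := inv_lt_one_of_one_lt₀ (one_lt_pow₀ hp1 (by omega))
  have h4 : 0 < ((p:ℝ) ^ (n.factorization p + 1))⁻¹ := by positivity
  have := Real.log_neg (show 0 < 1 - ((p:ℝ) ^ (n.factorization p + 1))⁻¹ by linarith) (by linarith)
  linarith

open Classical in
/-- the number of integers `3 ≤ n ≤ x` violating the Robin inequality -/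
def RC (x : ℝ) : ℕ := ((Finset.Icc 3 ⌊x⌋₊).filter RE).card

theorem RC_le_NC (x : ℝ) : RC x ≤ NC x := by
  classical
  unfold RC NC
  refine Finset.card_le_card fun n hn => ?_
  simp only [Finset.mem_filter, Finset.mem_Icc] at hn ⊢
  exact ⟨hn.1, RE_NE hn.1.1 hn.2⟩

end

end Pool.Agent.R303.Rob
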