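import Pool.Agent.R303.Rob.Mer

/-! # Exceptional integers are close to primorials: the key inequality and the counting of sets -/

set_option autoImplicit false

open Finset

namespace Pool.Agent.R303.Rob

noncomputable section

/-- the primes up to `j` -/
def QQ (j : ℕ) : Finset ℕ := (Finset.Icc 1 j).filter Nat.Prime

/-- the weight `|log p - log j|` -/
def om (j p : ℕ) : ℝ := |Real.log p - Real.log j|

theorem om_nonneg (j p : ℕ) : 0 ≤ om j p := abs_nonneg _

/-- the key inequality -/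
theorem key_ineq {θ' C K : ℝ} (hθ' : 0 ≤ θ') (hC : 0 ≤ C) (j : ℕ) (hj : 3 ≤ j) (P : Finset ℕ)
    (hP : ∀ p ∈ P, p.Prime) (h1 : ∑ p ∈ P, Real.log p ≤ j + 1)
    (h2 : Real.eulerMascheroniConstant + Real.log (Real.log j) ≤ ∑ p ∈ P, gg p)
    (hθ : |Chebyshev.theta j - j| ≤ C * (j : ℝ) ^ θ') (hB : |bb ethe (Real.log j)| ≤ K * (j : ℝ) ^ (θ' - 1)) :
    ∑ p ∈ symmDiff P (QQ j), om j p ≤ (1 + C + K) * (j : ℝ) ^ θ' * Real.log j := by
  have hj3 : (3:ℝ) ≤ j := by exact_mod_cast hj
  have hj0 : (0:ℝ) < j := by linarith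
  have hl1 : 1 ≤ Real.log j := by
    have h3 : Real.log 3 ≤ Real.log j := Real.log_le_log (by norm_num) hj3
    have h4 : 1 < Real.log 3 := by
      rw [Real.lt_log_iff_exp_lt (by norm_num)]
      exact Real.exp_one_lt_three
    linarith
  have hl0 : 0 < Real.log j := by linarith
  obtain ⟨hg1, hg2⟩ := gg_bd (p := j) (by omega)
  set lam : ℝ := gg j / Real.log j with hlam
  have hg0 : 0 < gg j := lt_of_lt_of_le (by positivity) hg1
  have hlam0 : 0 < lam := by positivity
  have hlamlog : lam * Real.log j = gg j := by rw [hlam]; field_simp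
  -- the two sums
  have hsum : ∑ p ∈ symmDiff P (QQ j), om j p =
      ∑ p ∈ P \ QQ j, om j p + ∑ p ∈ QQ j \ P, om j p := by
    rw [symmDiff_def, Finset.sup_eq_union, Finset.sum_union]
    rw [Finset.disjoint_left]
    intro p hp hp'
    rw [Finset.mem_sdiff] at hp hp'
    exact hp'.2 hp.1
  have hT : ∑ p ∈ P \ QQ j, lam * om j p ≤ ∑ p ∈ P \ QQ j, (lam * Real.log p - gg p) := by
    refine Finset.sum_le_sum fun p hp => ?_
    rw [Finset.mem_sdiff] at hp
    have hpp := hP p hp.1
    have hjp : j < p := by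
      by_contra hcon
      apply hp.2
      unfold QQ
      rw [Finset.mem_filter, Finset.mem_Icc]
      exact ⟨⟨hpp.one_lt.le, by omega⟩, hpp⟩
    have hlog : Real.log j ≤ Real.log p := Real.log_le_log hj0 (by exact_mod_cast hjp.le)
    have hgg := gg_anti (p := j) (q := p) (by omega) hjp.le
    unfold om
    rw [abs_of_nonneg (by linarith), mul_sub, hlamlog]
    linarith
  have hS : ∑ p ∈ QQ j \ P, lam * om j p ≤ ∑ p ∈ QQ j \ P, (gg p - lam * Real.log p) := by
    refine Finset.sum_le_sum fun p hp => ?_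
    rw [Finset.mem_sdiff] at hp
    have hpQ := hp.1
    unfold QQ at hpQ
    rw [Finset.mem_filter, Finset.mem_Icc] at hpQ
    have hpp := hpQ.2
    have hpj := hpQ.1.2
    have hlog : Real.log p ≤ Real.log j := Real.log_le_log (by exact_mod_cast hpp.pos) (by exact_mod_cast hpj)
    have hgg := gg_anti (p := p) (q := j) hpp.two_le hpj
    unfold om
    rw [abs_of_nonpos (by linarith), neg_sub, mul_sub, hlamlog]
    linarith
  have hd1 := Finset.sum_sdiff_sub_sum_sdiff (s₁ := QQ j) (s₂ := P) (f := fun p : ℕ => Real.log p)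
  have hd2 := Finset.sum_sdiff_sub_sum_sdiff (s₁ := QQ j) (s₂ := P) (f := fun p : ℕ => gg p)
  have hQlog : ∑ p ∈ QQ j, Real.log p = Chebyshev.theta j := by
    unfold QQ Chebyshev.theta
    rw [Nat.floor_natCast]
    rfl
  have hQgg : ∑ p ∈ QQ j, gg p = LL j := by
    unfold QQ LL
    rw [Nat.floor_natCast]
  have hmain : lam * ∑ p ∈ symmDiff P (QQ j), om j p ≤
      lam * (j + 1 - Chebyshev.theta j) - (Real.eulerMascheroniConstant + Real.log (Real.log j) - LL j) := by
    rw [hsum, mul_add, Finset.mul_sum, Finset.mul_sum]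
    have e1 : ∑ p ∈ P \ QQ j, (lam * Real.log p - gg p) + ∑ p ∈ QQ j \ P, (gg p - lam * Real.log p) =
        lam * (∑ p ∈ P \ QQ j, Real.log p - ∑ p ∈ QQ j \ P, Real.log p) -
        (∑ p ∈ P \ QQ j, gg p - ∑ p ∈ QQ j \ P, gg p) := by
      rw [Finset.sum_sub_distrib, Finset.sum_sub_distrib, ← Finset.mul_sum, ← Finset.mul_sum]
      ring
    rw [hd1, hd2, hQlog, hQgg] at e1
    have h5 : lam * (∑ p ∈ P, Real.log p - Chebyshev.theta j) ≤ lam * (j + 1 - Chebyshev.theta j) :=
      mul_le_mul_of_nonneg_left (by linarith) hlam0.le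
    linarith
  rw [mertens_id hl1 hj0] at hmain
  have hrr := rr_nonneg (j : ℝ)
  -- `lam` is close to `1 / (j log j)`
  set x : ℝ := (j : ℝ) ^ θ' with hx
  have hx0 : 0 < x := by positivity
  have hx1 : 1 ≤ x := Real.one_le_rpow (by linarith) hθ'
  have hBx : |bb ethe (Real.log j)| ≤ K * (x / j) := by
    rw [hx]
    rw [Real.rpow_sub hj0, Real.rpow_one] at hB
    exact hB
  have hK0 : 0 ≤ K := by
    have h6 : 0 ≤ K * (x / j) := (abs_nonneg _).trans hBx
    have h7 : 0 < x / j := by positivity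
    exact nonneg_of_mul_nonneg_left h6 h7
  have hlam1 : 1 / (j * Real.log j) ≤ lam := by
    rw [hlam, one_div, mul_inv, ← div_eq_mul_inv]
    exact div_le_div_of_nonneg_right hg1 hl0.le
  have hlam2 : lam - 1 / (j * Real.log j) ≤ 1 / (j ^ 2 * Real.log j) := by
    rw [hlam]
    have h6 : gg j / Real.log j - 1 / (j * Real.log j) = (gg j - (j:ℝ)⁻¹) / Real.log j := by field_simp
    have h7 : 1 / ((j:ℝ) ^ 2 * Real.log j) = ((j:ℝ) ^ 2)⁻¹ / Real.log j := by field_simp
    rw [h6, h7]
    exact div_le_div_of_nonneg_right (by linarith) hl0.le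
  have h8 : lam * (j + 1 - Chebyshev.theta j) - (Real.eulerMascheroniConstant + Real.log (Real.log j) -
      (Real.eulerMascheroniConstant + Real.log (Real.log j) + (Chebyshev.theta j - j) / (j * Real.log j) +
      bb ethe (Real.log j) - rr j)) ≤ lam + (lam - 1 / (j * Real.log j)) * (j - Chebyshev.theta j) + bb ethe (Real.log j) := by
    have e1 : lam * (j + 1 - Chebyshev.theta j) - (Real.eulerMascheroniConstant + Real.log (Real.log j) -
      (Real.eulerMascheroniConstant + Real.log (Real.log j) + (Chebyshev.theta j - j) / (j * Real.log j) +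
      bb ethe (Real.log j) - rr j)) = lam + (lam - 1 / (j * Real.log j)) * (j - Chebyshev.theta j) +
        bb ethe (Real.log j) - rr j := by ring
    rw [e1]; linarith
  have h9 : (lam - 1 / (j * Real.log j)) * (j - Chebyshev.theta j) ≤ (1 / (j ^ 2 * Real.log j)) * (C * x) := by
    have a1 : j - Chebyshev.theta j ≤ C * x := by
      have := neg_abs_le (Chebyshev.theta j - j)
      linarith
    have a2 : 0 ≤ lam - 1 / (j * Real.log j) := by linarith
    calc (lam - 1 / (j * Real.log j)) * (j - Chebyshev.theta j) ≤ (lam - 1 / (j * Real.log j)) * (C * x) :=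
          mul_le_mul_of_nonneg_left a1 a2
      _ ≤ _ := mul_le_mul_of_nonneg_right hlam2 (by positivity)
  have h10 : lam * ∑ p ∈ symmDiff P (QQ j), om j p ≤ lam + (1 / (j ^ 2 * Real.log j)) * (C * x) + K * (x / j) := by
    have := le_abs_self (bb ethe (Real.log j))
    linarith
  -- compare with `lam * ((1 + C + K) x log j)`
  have h11 : lam + (1 / (j ^ 2 * Real.log j)) * (C * x) + K * (x / j) ≤ lam * ((1 + C + K) * x * Real.log j) := by
    have b1 : lam ≤ lam * (x * Real.log j) := by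
      have : 1 ≤ x * Real.log j := by nlinarith
      nlinarith
    have b2 : (1 / ((j:ℝ) ^ 2 * Real.log j)) * (C * x) ≤ lam * (C * x * Real.log j) := by
      have c1 : (1 / ((j:ℝ) ^ 2 * Real.log j)) * (C * x) ≤ (1 / (j * Real.log j)) * (C * x * Real.log j) := by
        have c2 : (1 / ((j:ℝ) ^ 2 * Real.log j)) ≤ (1 / (j * Real.log j)) := by
          apply one_div_le_one_div_of_le (by positivity)
          nlinarith [mul_pos hj0 hl0]
        have c3 : C * x ≤ C * x * Real.log j := by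
          have : 0 ≤ C * x := by positivity
          nlinarith
        exact mul_le_mul c2 c3 (by positivity) (by positivity)
      exact c1.trans (mul_le_mul_of_nonneg_right hlam1 (by positivity))
    have b3 : K * (x / j) ≤ lam * (K * x * Real.log j) := by
      have c1 : K * (x / j) = (1 / (j * Real.log j)) * (K * x * Real.log j) := by field_simp
      rw [c1]
      exact mul_le_mul_of_nonneg_right hlam1 (by positivity)
    have e1 : lam * ((1 + C + K) * x * Real.log j) = lam * (x * Real.log j) + lam * (C * x * Real.log j) + lam * (K * x * Real.log j) := by ring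
    rw [e1]
    linarith
  exact le_of_mul_le_mul_left (h10.trans h11) hlam0

/-- counting sets with small weight -/
theorem count_sets (A : Finset ℕ) (w : ℕ → ℝ) (V μ : ℝ) (hμ : 0 ≤ μ) :
    ((A.powerset.filter (fun U => ∑ m ∈ U, w m ≤ V)).card : ℝ) ≤
      Real.exp (μ * V + ∑ m ∈ A, Real.exp (-μ * w m)) := by
  have h1 : ((A.powerset.filter (fun U => ∑ m ∈ U, w m ≤ V)).card : ℝ) ≤
      ∑ U ∈ A.powerset, Real.exp (μ * V) * ∏ m ∈ U, Real.exp (-μ * w m) := by
    rw [Finset.card_eq_sum_ones, Nat.cast_sum]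
    refine (Finset.sum_le_sum (f := fun _ => ((1:ℕ):ℝ))
      (g := fun U => Real.exp (μ * V) * ∏ m ∈ U, Real.exp (-μ * w m)) fun U hU => ?_).trans ?_
    · rw [Finset.mem_filter] at hU
      rw [← Real.exp_sum, ← Real.exp_add, Nat.cast_one, ← Finset.mul_sum]
      rw [Real.one_le_exp_iff]
      nlinarith [hU.2]
    · exact Finset.sum_le_sum_of_subset_of_nonneg (Finset.filter_subset _ _) fun _ _ _ => by positivity
  refine h1.trans ?_
  rw [← Finset.mul_sum, ← Finset.prod_one_add, Real.exp_add]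
  refine mul_le_mul_of_nonneg_left ?_ (Real.exp_pos _).le
  rw [Real.exp_sum]
  refine Finset.prod_le_prod (fun m _ => by positivity) fun m _ => ?_
  have := Real.add_one_le_exp (Real.exp (-μ * w m))
  linarith

/-- the lower part of the exponential sum -/
theorem low_part (j : ℕ) (hj : 1 ≤ j) (μ : ℕ) (hμ : 1 ≤ μ) :
    ∑ m ∈ Finset.Icc 1 j, Real.exp (-(μ : ℝ) * om j m) ≤ 1 + j / μ := by
  have hj0 : (0:ℝ) < j := by exact_mod_cast hj
  have hμ0 : (0:ℝ) < μ := by exact_mod_cast hμ
  set q : ℝ := Real.exp (-(μ / j : ℝ)) with hq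
  have hq1 : q < 1 := by
    rw [hq, Real.exp_lt_one_iff]
    have : 0 < (μ : ℝ) / j := by positivity
    linarith
  have hq0 : 0 < q := Real.exp_pos _
  have h1 : ∀ m ∈ Finset.Icc 1 j, Real.exp (-(μ : ℝ) * om j m) ≤ q ^ (j - m) := by
    intro m hm
    rw [Finset.mem_Icc] at hm
    have hm0 : (0:ℝ) < m := by exact_mod_cast hm.1
    have hmj : (m:ℝ) ≤ j := by exact_mod_cast hm.2
    rw [hq, ← Real.exp_nat_mul]
    refine Real.exp_le_exp.2 ?_
    have h2 : Real.log m - Real.log j ≤ (m:ℝ) / j - 1 := by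
      rw [← Real.log_div hm0.ne' hj0.ne']
      exact Real.log_le_sub_one_of_pos (by positivity)
    have h3 : (j - m : ℝ) / j ≤ om j m := by
      unfold om
      rw [abs_of_nonpos (by
        have := Real.log_le_log hm0 hmj
        linarith)]
      rw [sub_div, div_self hj0.ne']
      linarith
    rw [Nat.cast_sub hm.2]
    have h4 : ((j:ℝ) - m) * -(μ / j : ℝ) = -(μ : ℝ) * ((j - m) / j) := by field_simp
    rw [h4]
    nlinarith
  refine (Finset.sum_le_sum h1).trans ?_
  have h2 : ∑ m ∈ Finset.Icc 1 j, q ^ (j - m) = ∑ i ∈ Finset.range j, q ^ i := by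
    refine Finset.sum_bij' (fun m _ => j - m) (fun i _ => j - i) ?_ ?_ ?_ ?_ ?_
    · intro m hm
      rw [Finset.mem_Icc] at hm
      rw [Finset.mem_range]
      omega
    · intro i hi
      rw [Finset.mem_range] at hi
      rw [Finset.mem_Icc]
      omega
    · intro m hm
      rw [Finset.mem_Icc] at hm
      omega
    · intro i hi
      rw [Finset.mem_range] at hi
      omega
    · intro m _
      rfl
  rw [h2]
  have h3 : ∑ i ∈ Finset.range j, q ^ i ≤ (1 - q)⁻¹ := by
    have h4 := (summable_geometric_of_lt_one hq0.le hq1).sum_le_tsum (Finset.range j) (fun i _ => by positivity)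
    rwa [tsum_geometric_of_lt_one hq0.le hq1] at h4
  refine h3.trans ?_
  -- `(1 - e^{-x})⁻¹ ≤ 1 + 1/x`
  set x : ℝ := μ / j with hx
  have hx0 : 0 < x := by positivity
  have h5 : (j : ℝ) / μ = 1 / x := by rw [hx]; field_simp
  rw [h5]
  have h6 : q * (1 + x) ≤ 1 := by
    rw [hq, Real.exp_neg, inv_mul_le_iff₀ (Real.exp_pos x), mul_one]
    have := Real.add_one_le_exp x
    linarith
  have h7 : 0 < 1 - q := by linarith
  rw [inv_le_iff_one_le_mul₀ h7]
  have h8 : (1 + 1 / x) * (1 - q) = (1 + x - q * (1 + x)) / x := by field_simp; ring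
  rw [h8, le_div_iff₀ hx0]
  linarith

/-- the upper part of the exponential sum -/
theorem high_part (j : ℕ) (hj : 1 ≤ j) (μ : ℕ) (hμ : 1 ≤ μ) (N : ℕ) :
    ∑ m ∈ Finset.Ioc j N, Real.exp (-((μ + 1 : ℕ) : ℝ) * om j m) ≤ j / μ := by
  have hj0 : (0:ℝ) < j := by exact_mod_cast hj
  have hμ0 : (0:ℝ) < μ := by exact_mod_cast hμ
  have key : ∀ k : ℕ, ∑ m ∈ Finset.Ioc j (j + k), Real.exp (-((μ + 1 : ℕ) : ℝ) * om j m) ≤
      j / μ - (j / μ) * ((j : ℝ) / ((j + k : ℕ) : ℝ)) ^ μ := by
    intro k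
    induction k with
    | zero => simp [div_self hj0.ne']
    | succ k ih =>
      rw [show j + (k + 1) = (j + k) + 1 by ring, Finset.sum_Ioc_succ_top (by omega)]
      set m : ℕ := j + k + 1 with hm
      have hm0 : (0:ℝ) < m := by exact_mod_cast (show 0 < m by omega)
      have hjk : (0:ℝ) < ((j + k : ℕ) : ℝ) := by exact_mod_cast (show 0 < j + k by omega)
      have hmj : (j:ℝ) ≤ m := by exact_mod_cast (show j ≤ m by omega)
      have hmk : (m:ℝ) = ((j + k : ℕ) : ℝ) + 1 := by rw [hm]; push_cast; ring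
      have h1 : Real.exp (-((μ + 1 : ℕ) : ℝ) * om j m) = ((j : ℝ) / m) ^ (μ + 1) := by
        unfold om
        rw [abs_of_nonneg (by
          have := Real.log_le_log hj0 hmj
          linarith), ← Real.log_div hm0.ne' hj0.ne']
        rw [← Real.exp_log (show 0 < (j:ℝ) / m by positivity), ← Real.exp_nat_mul, Real.log_div hm0.ne' hj0.ne',
          Real.log_div hj0.ne' hm0.ne']
        congr 1
        ring
      rw [h1]
      have h2 : ((j : ℝ) / m) ^ (μ + 1) ≤ (j / μ) * ((j : ℝ) / ((j + k : ℕ) : ℝ)) ^ μ - (j / μ) * ((j : ℝ) / m) ^ μ := by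
        have h3 : 1 + μ * (1 / ((j + k : ℕ) : ℝ)) ≤ (1 + 1 / ((j + k : ℕ) : ℝ)) ^ μ :=
          one_add_mul_le_pow (by have : 0 < 1 / ((j + k : ℕ) : ℝ) := by positivity
                                 linarith) μ
        have h4 : (1 + 1 / ((j + k : ℕ) : ℝ)) = m / ((j + k : ℕ) : ℝ) := by rw [hmk]; field_simp
        rw [h4] at h3
        have h5 : ((j : ℝ) / ((j + k : ℕ) : ℝ)) ^ μ = ((j : ℝ) / m) ^ μ * ((m : ℝ) / ((j + k : ℕ) : ℝ)) ^ μ := by
          rw [← mul_pow]
          congr 1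
          field_simp
        rw [h5, pow_succ]
        have h6 : 0 < ((j : ℝ) / m) ^ μ := by positivity
        have h7 : (j : ℝ) / m ≤ (j / μ) * (((m : ℝ) / ((j + k : ℕ) : ℝ)) ^ μ - 1) := by
          have h8 : (j : ℝ) / m ≤ (j / μ) * (μ * (1 / ((j + k : ℕ) : ℝ))) := by
            have h9 : (j / μ : ℝ) * (μ * (1 / ((j + k : ℕ) : ℝ))) = j / ((j + k : ℕ) : ℝ) := by field_simp
            rw [h9]
            exact div_le_div_of_nonneg_left hj0.le hjk (by linarith)
          refine h8.trans ?_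
          have : 0 < (j : ℝ) / μ := by positivity
          exact mul_le_mul_of_nonneg_left (by linarith) this.le
        have h8 := mul_le_mul_of_nonneg_left h7 h6.le
        have e1 : ((j : ℝ) / m) ^ μ * ((j / μ) * (((m : ℝ) / ((j + k : ℕ) : ℝ)) ^ μ - 1)) =
          (j / μ) * (((j : ℝ) / m) ^ μ * ((m : ℝ) / ((j + k : ℕ) : ℝ)) ^ μ) - (j / μ) * ((j : ℝ) / m) ^ μ := by ring
        rw [e1] at h8
        exact h8
      linarith
  by_cases h : N ≤ j
  · rw [Finset.Ioc_eq_empty (by omega), Finset.sum_empty]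
    positivity
  · push Not at h
    obtain ⟨k, rfl⟩ := Nat.exists_eq_add_of_le h.le
    refine (key k).trans ?_
    have : 0 ≤ ((j:ℝ) / μ) * ((j : ℝ) / ((j + k : ℕ) : ℝ)) ^ μ := by positivity
    linarith

/-- the number of sets with small weight -/
theorem count_U (j : ℕ) (hj : 1 ≤ j) (μ : ℕ) (hμ : 1 ≤ μ) (N : ℕ) (V : ℝ) :
    (((Finset.Icc 1 N).powerset.filter (fun U => ∑ m ∈ U, om j m ≤ V)).card : ℝ) ≤
      Real.exp ((μ + 1) * V + (1 + 2 * j / μ)) := by
  have h1 := count_sets (Finset.Icc 1 N) (om j) V ((μ + 1 : ℕ) : ℝ) (by positivity)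
  refine h1.trans (Real.exp_le_exp.2 ?_)
  have h2 : ∑ m ∈ Finset.Icc 1 N, Real.exp (-((μ + 1 : ℕ) : ℝ) * om j m) ≤ 1 + 2 * j / μ := by
    have h3 : ∑ m ∈ Finset.Icc 1 N, Real.exp (-((μ + 1 : ℕ) : ℝ) * om j m) ≤
        ∑ m ∈ Finset.Icc 1 j ∪ Finset.Ioc j N, Real.exp (-((μ + 1 : ℕ) : ℝ) * om j m) := by
      refine Finset.sum_le_sum_of_subset_of_nonneg ?_ fun _ _ _ => by positivity
      intro m hm
      rw [Finset.mem_Icc] at hm
      rw [Finset.mem_union, Finset.mem_Icc, Finset.mem_Ioc]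
      omega
    refine h3.trans ?_
    rw [Finset.sum_union]
    · have h4 := low_part j hj (μ + 1) (by omega)
      have h5 := high_part j hj μ hμ N
      have hμ0 : (0:ℝ) < μ := by exact_mod_cast hμ
      have hj0 : (0:ℝ) < j := by exact_mod_cast hj
      have h6 : (j:ℝ) / ((μ + 1 : ℕ) : ℝ) ≤ j / μ := by
        refine div_le_div_of_nonneg_left hj0.le hμ0 ?_
        push_cast; linarith
      have h7 : 2 * (j:ℝ) / μ = j / μ + j / μ := by ring
      rw [h7]
      linarith
    · rw [Finset.disjoint_left]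
      intro m hm hm'
      rw [Finset.mem_Icc] at hm
      rw [Finset.mem_Ioc] at hm'
      omega
  push_cast at h2 ⊢
  linarith

end

end Pool.Agent.R303.Rob
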