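import Pool.Agent.R303.Rob.Zet4

/-! # Windows when all zeros lie on the critical line -/

set_option autoImplicit false

open Complex MeasureTheory Filter Topology Set

namespace Pool.Agent.R303.Rob

noncomputable section

open H353 (FF)

/-- lower bound for `θ` -/
theorem theta_ge : ∃ x0 : ℝ, 2 ≤ x0 ∧ ∀ x : ℝ, x0 ≤ x → x / 2 ≤ Chebyshev.theta x := by
  obtain ⟨C, hC, h⟩ := Pool.Agent.Helper923.PNTQ.theta_quant
  have h1 : Tendsto (fun x : ℝ => (Real.log x) ^ (1 / 50 : ℝ)) atTop atTop :=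
    (tendsto_rpow_atTop (by norm_num)).comp Real.tendsto_log_atTop
  obtain ⟨x1, hx1⟩ := eventually_atTop.1 (h1.eventually_ge_atTop (2 * C))
  refine ⟨max x1 2, le_max_right _ _, fun x hx => ?_⟩
  have a1 : x1 ≤ x := (le_max_left _ _).trans hx
  have a2 : 2 ≤ x := (le_max_right _ _).trans hx
  have a3 := h x a2
  have a4 := hx1 x a1
  have a5 : 0 < (Real.log x) ^ (1 / 50 : ℝ) := by linarith
  have a6 : C * x / (Real.log x) ^ (1 / 50 : ℝ) ≤ x / 2 := by
    rw [div_le_iff₀ a5]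
    nlinarith
  have a7 := (abs_le.1 (a3.trans a6)).1
  linarith

theorem diff_ge : ∃ t0 : ℝ, 1 ≤ t0 ∧ ∀ t : ℝ, t0 ≤ t → (1 / 2) * Real.exp (-(t / 2)) ≤ epsi t - ethe t := by
  obtain ⟨x0, hx0, h⟩ := theta_ge
  refine ⟨2 * x0, by linarith, fun t ht => ?_⟩
  have h1 : x0 ≤ Real.exp (t / 2) := by
    have := Real.add_one_le_exp (t / 2)
    linarith
  have h2 := h _ h1
  have h3 : 2 ≤ Real.exp t := by
    have := Real.add_one_le_exp t
    linarith
  set N : ℕ := max 2 ⌊Real.log (Real.exp t) / Real.log 2⌋₊ with hN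
  have h4 := Chebyshev.psi_eq_theta_add_sum_theta' h3 (le_max_right 2 ⌊Real.log (Real.exp t) / Real.log 2⌋₊)
  have h5 : Chebyshev.theta (Real.exp t ^ ((1:ℝ) / (2:ℕ))) ≤
      ∑ n ∈ Finset.Icc 2 (max 2 ⌊Real.log (Real.exp t) / Real.log 2⌋₊), Chebyshev.theta (Real.exp t ^ ((1:ℝ) / n)) := by
    refine Finset.single_le_sum (f := fun n : ℕ => Chebyshev.theta (Real.exp t ^ ((1:ℝ) / n)))
      (fun n _ => Chebyshev.theta_nonneg _) ?_
    rw [Finset.mem_Icc]
    exact ⟨le_rfl, le_max_left _ _⟩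
  have h6 : Real.exp t ^ ((1:ℝ) / (2:ℕ)) = Real.exp (t / 2) := by
    rw [← Real.exp_mul]
    congr 1
    push_cast
    ring
  rw [h6] at h5
  have h7 : epsi t - ethe t = (Chebyshev.psi (Real.exp t) - Chebyshev.theta (Real.exp t)) * Real.exp (-t) := by
    unfold epsi ethe; ring
  rw [h7]
  have h8 : (1 / 2) * Real.exp (t / 2) ≤ Chebyshev.psi (Real.exp t) - Chebyshev.theta (Real.exp t) := by linarith
  calc (1 / 2) * Real.exp (-(t / 2)) = ((1 / 2) * Real.exp (t / 2)) * Real.exp (-t) := by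
        rw [mul_assoc, ← Real.exp_add]
        congr 2
        ring
    _ ≤ _ := mul_le_mul_of_nonneg_right h8 (Real.exp_pos _).le

/-- the bias -/
theorem bias_ge : ∃ v0 c : ℝ, 1 ≤ v0 ∧ 0 < c ∧ ∀ v : ℝ, v0 ≤ v →
    c * (Real.exp (-(v / 2)) / v) ≤ bb ethe v - bb epsi v := by
  obtain ⟨t0, ht0, h⟩ := diff_ge
  refine ⟨t0, (1 / 4) * Real.exp (-(1 / 2)), ht0, by positivity, fun v hv => ?_⟩
  have hv1 : 1 ≤ v := ht0.trans hv
  have h1 : bb ethe v - bb epsi v = ∫ t in Ioi v, (ew epsi t - ew ethe t) := by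
    unfold bb
    rw [integral_sub epsi_adm.int.integrableOn ethe_adm.int.integrableOn]
    ring
  rw [h1]
  have hpt : ∀ t ∈ Ioi v, 0 ≤ ew epsi t - ew ethe t := by
    intro t ht
    have ht1 : v < t := ht
    unfold ew
    rw [indicator_of_mem (show t ∈ Ioi (1:ℝ) from lt_of_le_of_lt hv1 ht1),
      indicator_of_mem (show t ∈ Ioi (1:ℝ) from lt_of_le_of_lt hv1 ht1)]
    have := ethe_le_epsi t
    have := (wt_pos (show (1:ℝ) ≤ t by linarith)).le
    nlinarith
  have hint : IntegrableOn (fun t => ew epsi t - ew ethe t) (Ioi v) :=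
    epsi_adm.int.integrableOn.sub ethe_adm.int.integrableOn
  have h2 : ∫ t in Ioc v (v + 1), (ew epsi t - ew ethe t) ≤ ∫ t in Ioi v, (ew epsi t - ew ethe t) := by
    refine setIntegral_mono_set hint ?_ (Ioc_subset_Ioi_self.eventuallyLE)
    exact (ae_restrict_iff' measurableSet_Ioi).2 (ae_of_all _ hpt)
  refine le_trans ?_ h2
  have h3 : ∫ t in Ioc v (v + 1), ((1 / 4) * Real.exp (-(1 / 2)) * (Real.exp (-(v / 2)) / v)) ≤
      ∫ t in Ioc v (v + 1), (ew epsi t - ew ethe t) := by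
    refine setIntegral_mono_on ?_ (hint.mono_set Ioc_subset_Ioi_self) measurableSet_Ioc fun t ht => ?_
    · exact integrableOn_const (by simp) enorm_ne_top
    · have ht1 : v < t := ht.1
      have ht2 : t ≤ v + 1 := ht.2
      have ht0 : 0 < t := by linarith
      have hv0 : 0 < v := by linarith
      unfold ew
      rw [indicator_of_mem (show t ∈ Ioi (1:ℝ) from lt_of_le_of_lt hv1 ht1),
        indicator_of_mem (show t ∈ Ioi (1:ℝ) from lt_of_le_of_lt hv1 ht1), ← sub_mul]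
      have a1 := h t (by linarith)
      have a2 : 1 / (2 * v) ≤ wt t := by
        unfold wt
        rw [div_le_div_iff₀ (by positivity) (by positivity)]
        nlinarith
      have a3 : Real.exp (-(1 / 2)) * Real.exp (-(v / 2)) ≤ Real.exp (-(t / 2)) := by
        rw [← Real.exp_add]
        exact Real.exp_le_exp.2 (by linarith)
      calc (1 / 4) * Real.exp (-(1 / 2)) * (Real.exp (-(v / 2)) / v)
          = (1 / 2) * (Real.exp (-(1 / 2)) * Real.exp (-(v / 2))) * (1 / (2 * v)) := by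
            field_simp; ring
        _ ≤ (1 / 2) * Real.exp (-(t / 2)) * (1 / (2 * v)) := by gcongr
        _ ≤ (epsi t - ethe t) * wt t := by
            have : 0 ≤ (1 / 2) * Real.exp (-(t / 2)) := by positivity
            exact mul_le_mul a1 a2 (by positivity) (this.trans a1)
  refine le_trans (le_of_eq ?_) h3
  simp

theorem PM_ge {b : ℝ → ℝ} (hb : Measurable b) {K : ℝ} (hK : ∀ t, 1 < t → |b t| ≤ K) (m : ℕ) {r : ℝ}
    (hr : 0 < r) : ∫ t in Ioi (1:ℝ), b t * (t ^ m * Real.exp (-r * t)) ≤ PM b m r := by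
  have hg := (gamma_int1 m r hr).1
  have hI : ∀ f : ℝ → ℝ, Measurable f → (∀ t, 1 < t → |f t| ≤ K) →
      IntegrableOn (fun t : ℝ => f t * (t ^ m * Real.exp (-r * t))) (Ioi 1) := by
    intro f hf hfb
    refine (hg.const_mul K).mono' (by
      refine Measurable.aestronglyMeasurable ?_
      fun_prop) ?_
    refine (ae_restrict_iff' measurableSet_Ioi).2 (ae_of_all _ fun t ht => ?_)
    have ht1 : (1:ℝ) < t := ht
    rw [norm_mul, Real.norm_eq_abs, Real.norm_eq_abs, abs_of_pos (by positivity : 0 < t ^ m * Real.exp (-r * t))]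
    have := hfb t ht1
    have h2 : 0 < t ^ m * Real.exp (-r * t) := by positivity
    gcongr
  unfold PM
  refine setIntegral_mono_on (hI b hb hK) (hI (fun t => max (b t) 0) (hb.max measurable_const) fun t ht => ?_)
    measurableSet_Ioi fun t ht => ?_
  · have h1 := hK t ht
    have h2 : 0 ≤ K := (abs_nonneg _).trans h1
    rw [abs_of_nonneg (le_max_right _ _)]
    exact max_le ((le_abs_self _).trans h1) h2
  · have ht1 : (1:ℝ) < t := ht
    have h2 : 0 < t ^ m * Real.exp (-r * t) := by positivity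
    exact mul_le_mul_of_nonneg_right (le_max_left _ _) h2.le

/-- integral over a tail -/
theorem tail_ge (v0 : ℝ) (hv0 : 1 ≤ v0) (r : ℝ) (hr : 0 < r) (k : ℕ) :
    k.factorial / r ^ (k + 1) - v0 ^ (k + 1) ≤ ∫ t in Ioi v0, t ^ k * Real.exp (-r * t) := by
  obtain ⟨h1, h2⟩ := gamma_int k r hr
  have hsplit : Ioc (0:ℝ) v0 ∪ Ioi v0 = Ioi 0 := Ioc_union_Ioi_eq_Ioi (by linarith)
  have hdisj : Disjoint (Ioc (0:ℝ) v0) (Ioi v0) := by
    rw [Set.disjoint_left]
    intro x hx hx'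
    exact absurd hx.2 (not_le.2 hx')
  rw [← hsplit, setIntegral_union hdisj measurableSet_Ioi (h1.mono_set (by rw [← hsplit]; exact subset_union_left))
    (h1.mono_set (by rw [← hsplit]; exact subset_union_right))] at h2
  have h3 : ∫ t in Ioc (0:ℝ) v0, t ^ k * Real.exp (-r * t) ≤ ∫ t in Ioc (0:ℝ) v0, v0 ^ k := by
    refine setIntegral_mono_on (h1.mono_set (by rw [← hsplit]; exact subset_union_left)) ?_ measurableSet_Ioc
      fun t ht => ?_
    · exact integrableOn_const (by simp) (by simp)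
    · have a1 : t ^ k ≤ v0 ^ k := pow_le_pow_left₀ ht.1.le ht.2 k
      have a2 : Real.exp (-r * t) ≤ 1 := by
        rw [Real.exp_le_one_iff]
        nlinarith [ht.1]
      calc t ^ k * Real.exp (-r * t) ≤ v0 ^ k * 1 := by
            have := (Real.exp_pos (-r * t)).le
            gcongr
        _ = _ := mul_one _
  have h4 : ∫ t in Ioc (0:ℝ) v0, v0 ^ k = v0 ^ (k + 1) := by
    simp
    rw [max_eq_left (by linarith)]
    ring
  linarith

/-- windows under the Riemann hypothesis -/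
theorem window_half (hΘ : ∀ ρ : ℂ, FF ρ = 0 → ρ.re ≤ 1 / 2) {b1 : ℝ} (hb1 : 1 / 2 < b1) {δ : ℝ} (hδ : 0 < δ)
    (hδ1 : δ < 1) :
    ∀ᶠ v : ℝ in atTop, ∃ t, 1 < t ∧ (1 - δ) * v ≤ t ∧ t ≤ (1 + δ) * v ∧ Real.exp (-b1 * t) ≤ bb ethe t := by
  obtain ⟨g, hg, hgz⟩ := gamma_min
  obtain ⟨κ, hκ0, hκ1, hκ2, hκ3⟩ := kappa (δ := δ / 2) (by linarith) (by linarith)
  obtain ⟨R, hR1, hR2, hR3⟩ : ∃ R : ℝ, 3 / 2 < R ∧ R ^ 2 < 9 / 4 + g ^ 2 ∧ R < 2 := by
    have hev1 : ∀ᶠ R in 𝓝[>] (3 / 2 : ℝ), R ^ 2 < 9 / 4 + g ^ 2 :=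
      nhdsWithin_le_nhds (((continuous_pow 2).tendsto (3 / 2 : ℝ)).eventually (gt_mem_nhds (by
        have : 0 < g ^ 2 := by positivity
        linarith)))
    have hev2 : ∀ᶠ R in 𝓝[>] (3 / 2 : ℝ), R < 2 := nhdsWithin_le_nhds (gt_mem_nhds (by norm_num))
    have hev3 : ∀ᶠ R in 𝓝[>] (3 / 2 : ℝ), 3 / 2 < R := self_mem_nhdsWithin
    obtain ⟨R, h1, h2, h3⟩ := (hev1.and (hev2.and hev3)).exists
    exact ⟨R, h3, h1, h2⟩
  have hz2 : ∀ z ∈ Metric.closedBall ((1:ℝ) : ℂ) R, z ≠ -1 ∧ FF (z + 1) ≠ 0 := by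
    intro z hz
    rw [Metric.mem_closedBall, dist_comm, dist_eq_norm] at hz
    constructor
    · rintro rfl
      have := (Complex.re_le_norm (((1:ℝ) : ℂ) - -1)).trans hz
      simp at this
      linarith
    · intro hF
      have h1 : 0 < (z + 1).re := by
        have := (Complex.re_le_norm (((1:ℝ) : ℂ) - z)).trans hz
        simp at this
        simp
        linarith
      have h2 := hgz (z + 1) hF h1
      have h3 := hΘ (z + 1) hF
      have h4 : ‖((1:ℝ) : ℂ) - z‖ ^ 2 ≤ R ^ 2 := pow_le_pow_left₀ (norm_nonneg _) hz 2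
      rw [norm_sq_eq] at h4
      simp only [Complex.sub_re, Complex.ofReal_re, Complex.sub_im, Complex.ofReal_im, Complex.add_re,
        Complex.one_re, Complex.add_im, Complex.one_im, zero_sub, add_zero, neg_sq] at h2 h3 h4
      have h5 : g ^ 2 ≤ z.im ^ 2 := by
        rw [← sq_abs z.im]
        exact pow_le_pow_left₀ hg.le h2 2
      have h6 : (3 / 2 : ℝ) ^ 2 ≤ (1 - z.re) ^ 2 := by
        refine pow_le_pow_left₀ (by linarith) (by linarith) 2
      linarith
  obtain ⟨M1, hM1, hbd1⟩ := real_zero_free (s := ((1:ℝ) : ℂ)) (by simp) (by linarith) hz2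
  obtain ⟨M2, hM2, hbd2⟩ := real_center epsi_adm one_pos (by linarith) hM1 hbd1
  obtain ⟨v0, c, hv0, hc, hbias⟩ := bias_ge
  obtain ⟨C, hC, hCe⟩ := ethe_exp le_rfl hΘ (η := κ / 2) (by linarith) (by linarith)
  have hdec := bb_decay ethe_adm (show 0 < κ / 2 by linarith) hC hCe
  -- bound below
  have hx : 0 < (3 / 2) / R := by positivity
  have hx1 : (3 / 2) / R < 1 := by rw [div_lt_one (by linarith)]; exact hR1
  have hsg := sq_geo hx hx1 M2
  have hev2 : ∀ᶠ m : ℕ in atTop, ((m : ℝ) + 1) ^ 2 * (M2 * ((3 / 2) / R) ^ m) < c / 8 :=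
    hsg.eventually (gt_mem_nhds (by positivity))
  have hev3 := fact_big (4 * v0 + 4) (3 / 2 * v0) (by positivity)
  obtain ⟨N2, hN2⟩ := eventually_atTop.1 hev2
  obtain ⟨N3, hN3⟩ := eventually_atTop.1 hev3
  obtain ⟨Kb, hKb⟩ : ∃ Kb : ℝ, ∀ t, |bb ethe t| ≤ Kb := ⟨_, fun t => bb_bdd ethe_adm t⟩
  obtain ⟨Ka, hKa⟩ : ∃ Ka : ℝ, ∀ t, |bb epsi t| ≤ Ka := ⟨_, fun t => bb_bdd epsi_adm t⟩
  have hPM : ∀ᶠ n : ℕ in atTop, ∃ m : ℕ, (m = n + 1 ∨ m = n + 2) ∧
      (c / 4) * m.factorial / ((m + 1) ^ 2 * (3 / 2) ^ m) ≤ PM (bb ethe) m 1 := by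
    filter_upwards [eventually_ge_atTop (N2 + N3 + 1)] with n hn
    refine ⟨n + 1, Or.inl rfl, ?_⟩
    have h1 := PM_ge (bb_cont ethe_adm).measurable (K := Kb) (fun t _ => hKb t) (n + 1) one_pos
    refine le_trans ?_ h1
    have hg := (gamma_int1 (n + 1) 1 one_pos).1
    have hI : ∀ f : ℝ → ℝ, Continuous f → (∃ K, ∀ t, |f t| ≤ K) →
        IntegrableOn (fun t : ℝ => f t * (t ^ (n + 1) * Real.exp (-1 * t))) (Ioi 1) := by
      rintro f hf ⟨K, hfb⟩
      refine (hg.const_mul K).mono' (by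
        refine Measurable.aestronglyMeasurable ?_
        have := hf.measurable
        fun_prop) ?_
      refine (ae_restrict_iff' measurableSet_Ioi).2 (ae_of_all _ fun t ht => ?_)
      have ht1 : (1:ℝ) < t := ht
      rw [norm_mul, Real.norm_eq_abs, Real.norm_eq_abs, abs_of_pos (by positivity : 0 < t ^ (n + 1) * Real.exp (-1 * t))]
      have := hfb t
      have h2 : 0 < t ^ (n + 1) * Real.exp (-1 * t) := by positivity
      gcongr
    have hI1 := hI (bb epsi) (bb_cont epsi_adm) ⟨Ka, hKa⟩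
    have hI2 := hI (fun t => bb ethe t - bb epsi t) ((bb_cont ethe_adm).sub (bb_cont epsi_adm))
      ⟨Kb + Ka, fun t => (abs_sub _ _).trans (add_le_add (hKb t) (hKa t))⟩
    have h2 : ∫ t in Ioi (1:ℝ), bb ethe t * (t ^ (n + 1) * Real.exp (-1 * t)) =
        (∫ t in Ioi (1:ℝ), bb epsi t * (t ^ (n + 1) * Real.exp (-1 * t))) +
        ∫ t in Ioi (1:ℝ), (bb ethe t - bb epsi t) * (t ^ (n + 1) * Real.exp (-1 * t)) := by
      rw [← integral_add hI1 hI2]
      refine integral_congr_ae (ae_of_all _ fun t => ?_)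
      simp only
      ring
    have h3 : |∫ t in Ioi (1:ℝ), bb epsi t * (t ^ (n + 1) * Real.exp (-1 * t))| ≤
        M2 * (n + 1).factorial / R ^ (n + 1) := by
      have h4 := hbd2 (n + 1)
      have h5 : LT (bb epsi) (n + 1) ((1:ℝ) : ℂ) =
          ((∫ t in Ioi (1:ℝ), bb epsi t * (t ^ (n + 1) * Real.exp (-1 * t)) : ℝ) : ℂ) := by
        unfold LT
        rw [← integral_complex_ofReal]
        refine integral_congr_ae (ae_of_all _ fun t => ?_)
        simp only
        push_cast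
        ring
      rw [h5, Complex.norm_real, Real.norm_eq_abs] at h4
      exact h4
    have h4 : c * ∫ t in Ioi v0, t ^ n * Real.exp (-(3 / 2) * t) ≤
        ∫ t in Ioi (1:ℝ), (bb ethe t - bb epsi t) * (t ^ (n + 1) * Real.exp (-1 * t)) := by
      have hsub : Ioi v0 ⊆ Ioi (1:ℝ) := Ioi_subset_Ioi hv0
      have h5 : ∫ t in Ioi v0, (bb ethe t - bb epsi t) * (t ^ (n + 1) * Real.exp (-1 * t)) ≤
          ∫ t in Ioi (1:ℝ), (bb ethe t - bb epsi t) * (t ^ (n + 1) * Real.exp (-1 * t)) := by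
        refine setIntegral_mono_set hI2 ?_ hsub.eventuallyLE
        refine (ae_restrict_iff' measurableSet_Ioi).2 (ae_of_all _ fun t ht => ?_)
        have ht1 : (1:ℝ) < t := ht
        have h6 := bb_mono epsi_adm ethe_adm (fun t _ => ethe_le_epsi t) t
        have h7 : 0 < t ^ (n + 1) * Real.exp (-1 * t) := by positivity
        exact mul_nonneg (by linarith) h7.le
      refine le_trans ?_ h5
      rw [← integral_const_mul]
      refine setIntegral_mono_on ?_ (hI2.mono_set hsub) measurableSet_Ioi fun t ht => ?_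
      · exact ((gamma_int n (3 / 2) (by norm_num)).1.mono_set (Ioi_subset_Ioi (by linarith))).const_mul c
      · have ht1 : v0 < t := ht
        have ht0 : 0 < t := by linarith
        have h6 := hbias t ht1.le
        have h7 : 0 < t ^ (n + 1) * Real.exp (-1 * t) := by positivity
        refine le_trans (le_of_eq ?_) (mul_le_mul_of_nonneg_right h6 h7.le)
        have h8 : Real.exp (-(3 / 2) * t) = Real.exp (-(t / 2)) * Real.exp (-1 * t) := by
          rw [← Real.exp_add]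
          congr 1
          ring
        rw [h8, pow_succ]
        field_simp
    have h5 := tail_ge v0 hv0 (3 / 2) (by norm_num) n
    have hfp : (0:ℝ) < n.factorial := by exact_mod_cast n.factorial_pos
    have hfp1 : (0:ℝ) < (n + 1).factorial := by exact_mod_cast (n + 1).factorial_pos
    have hN2' := hN2 (n + 1) (by omega)
    have hN3' := hN3 n (by omega)
    -- `v0 ^ (n+1) ≤ n! / (4 (3/2)^n)`
    have h6 : v0 ^ (n + 1) ≤ (1 / 2) * (n.factorial / (3 / 2) ^ (n + 1)) := by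
      rw [le_div_iff₀ (by positivity), mul_pow] at hN3'
      rw [mul_div_assoc', le_div_iff₀ (by positivity), pow_succ, pow_succ]
      have h7 : v0 ^ n * v0 * ((3 / 2) ^ n * (3 / 2)) ≤ (1 / 2) * ((4 * v0 + 4) * ((3 / 2) ^ n * v0 ^ n)) := by
        have h8 : 0 < v0 ^ n * (3 / 2) ^ n := by positivity
        have h9 : (3 / 2) * v0 ≤ (1 / 2) * (4 * v0 + 4) := by linarith
        nlinarith
      linarith
    set X : ℝ := (n + 1).factorial / (((n : ℝ) + 1 + 1) ^ 2 * (3 / 2) ^ (n + 1)) with hX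
    have hX0 : 0 < X := by positivity
    have h7 : X ≤ n.factorial / (3 / 2) ^ (n + 1) := by
      rw [hX, Nat.factorial_succ]
      push_cast
      rw [div_le_div_iff₀ (by positivity) (by positivity)]
      have h8 : ((n:ℝ) + 1) ≤ ((n : ℝ) + 1 + 1) ^ 2 := by nlinarith [Nat.cast_nonneg (α := ℝ) n]
      have h9 : 0 < (n.factorial : ℝ) * (3 / 2) ^ (n + 1) := by positivity
      nlinarith
    have h8 : M2 * (n + 1).factorial / R ^ (n + 1) ≤ (c / 8) * X := by
      have e1 : M2 * (n + 1).factorial / R ^ (n + 1) =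
          ((((n + 1 : ℕ) : ℝ) + 1) ^ 2 * (M2 * ((3 / 2) / R) ^ (n + 1))) * X := by
        rw [hX, div_pow]
        push_cast
        field_simp
      rw [e1]
      exact mul_le_mul_of_nonneg_right hN2'.le hX0.le
    have h9 : (c / 4) * ((n + 1).factorial : ℝ) / ((((n + 1 : ℕ) : ℝ) + 1) ^ 2 * (3 / 2) ^ (n + 1)) = (c / 4) * X := by
      rw [hX]; push_cast; ring
    rw [h9, h2]
    have h10 := (abs_le.1 h3).1
    have h11 : c * ((1 / 2) * (n.factorial / (3 / 2) ^ (n + 1))) ≤ c * ∫ t in Ioi v0, t ^ n * Real.exp (-(3 / 2) * t) := by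
      refine mul_le_mul_of_nonneg_left ?_ hc.le
      linarith
    have h12 : c * ((1 / 2) * X) ≤ c * ((1 / 2) * (n.factorial / (3 / 2) ^ (n + 1))) := by gcongr
    nlinarith
  have key := window_v (b := bb ethe) (bb_cont ethe_adm).measurable (K := 2 * C / (κ / 2)) (η := κ / 2) (r := 1)
    (δ := δ / 2) (b1 := b1) (d := 3 / 2) (c := c / 4) (by positivity) (fun t ht => hdec t ht.le) one_pos
    (by linarith) (by linarith) (by linarith) (by norm_num) (by linarith) (by positivity)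
    (by nlinarith) (by nlinarith) hPM δ (by linarith)
  exact key

end

end Pool.Agent.R303.Rob
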