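import Pool.Agent.R303.Rob.Up
import Pool.Agent.R303.Rob.Zet5

/-! # Upper bound for the number of exceptions to the Nicolas inequality -/

set_option autoImplicit false

open Finset Filter Topology

namespace Pool.Agent.R303.Rob

noncomputable section

open H353 (FF)

/-- `n` violates the bound `n / φ(n) ≤ e^γ log log n` -/
def NE (n : ℕ) : Prop :=
  Real.exp Real.eulerMascheroniConstant * Real.log (Real.log n) < n / (Nat.totient n : ℝ)

theorem log_div_totient {n : ℕ} (hn : n ≠ 0) :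
    Real.log (n / (Nat.totient n : ℝ)) = ∑ p ∈ n.primeFactors, gg p := by
  have h1 : (Nat.totient n : ℝ) = n * ∏ p ∈ n.primeFactors, (1 - (p : ℝ)⁻¹) := by
    have := Nat.totient_eq_mul_prod_factors n
    have h2 : ((Nat.totient n : ℚ) : ℝ) = ((n * ∏ p ∈ n.primeFactors, (1 - (p : ℚ)⁻¹) : ℚ) : ℝ) := by rw [this]
    push_cast at h2
    exact h2
  have hn0 : (n : ℝ) ≠ 0 := by exact_mod_cast hn
  have hpos : ∀ p ∈ n.primeFactors, (1 - (p : ℝ)⁻¹) ≠ 0 := by
    intro p hp
    have h2 : (2:ℝ) ≤ p := by exact_mod_cast (Nat.prime_of_mem_primeFactors hp).two_le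
    have h3 : (p : ℝ)⁻¹ ≤ 2⁻¹ := inv_anti₀ (by norm_num) h2
    norm_num at h3
    have : 0 < 1 - (p : ℝ)⁻¹ := by linarith
    exact this.ne'
  rw [h1, ← div_div, div_self hn0, one_div, Real.log_inv, Real.log_prod hpos, ← Finset.sum_neg_distrib]
  rfl

theorem rad_le {n : ℕ} (hn : n ≠ 0) : ∑ p ∈ n.primeFactors, Real.log p ≤ Real.log n := by
  rw [← Real.log_prod (fun p hp => by exact_mod_cast (Nat.prime_of_mem_primeFactors hp).ne_zero)]
  refine Real.log_le_log ?_ ?_
  · refine Finset.prod_pos fun p hp => ?_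
    exact_mod_cast (Nat.prime_of_mem_primeFactors hp).pos
  · have := Nat.le_of_dvd (Nat.pos_of_ne_zero hn) (Nat.prod_primeFactors_dvd n)
    rw [← Nat.cast_prod]
    exact Nat.cast_le.2 this

theorem card_S (j : ℕ) (hj : 1 ≤ j) (S : Finset ℕ) (hS : S ⊆ Finset.Icc 1 j) {V : ℝ} (hV : ∑ p ∈ S, om j p ≤ V)
    (A : ℕ) (hA : 1 ≤ A) : (S.card : ℝ) ≤ A + V * j / A := by
  have hj0 : (0:ℝ) < j := by exact_mod_cast hj
  have hA0 : (0:ℝ) < A := by exact_mod_cast hA
  have h1 : S.card = (S.filter (fun p => j < p + A)).card + (S.filter (fun p => ¬ j < p + A)).card :=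
    (Finset.card_filter_add_card_filter_not _).symm
  have h2 : (S.filter (fun p => j < p + A)).card ≤ A := by
    have : S.filter (fun p => j < p + A) ⊆ Finset.Ioc (j - A) j := by
      intro p hp
      rw [Finset.mem_filter] at hp
      have := hS hp.1
      rw [Finset.mem_Icc] at this
      rw [Finset.mem_Ioc]
      omega
    have h3 := Finset.card_le_card this
    rw [Nat.card_Ioc] at h3
    omega
  have h3 : ((S.filter (fun p => ¬ j < p + A)).card : ℝ) * (A / j) ≤ V := by
    have h4 : ∑ p ∈ S.filter (fun p => ¬ j < p + A), (A / j : ℝ) ≤ ∑ p ∈ S.filter (fun p => ¬ j < p + A), om j p := by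
      refine Finset.sum_le_sum fun p hp => ?_
      rw [Finset.mem_filter] at hp
      have hpS := hS hp.1
      rw [Finset.mem_Icc] at hpS
      have hp0 : (0:ℝ) < p := by exact_mod_cast hpS.1
      have hpj : (p:ℝ) ≤ j := by exact_mod_cast hpS.2
      have h5 : Real.log p - Real.log j ≤ (p:ℝ) / j - 1 := by
        rw [← Real.log_div hp0.ne' hj0.ne']
        exact Real.log_le_sub_one_of_pos (by positivity)
      have h6 : (A : ℝ) ≤ j - p := by
        have : p + A ≤ j := by omega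
        have : ((p + A : ℕ) : ℝ) ≤ j := by exact_mod_cast this
        push_cast at this
        linarith
      unfold om
      rw [abs_of_nonpos (by
        have := Real.log_le_log hp0 hpj
        linarith)]
      have h7 : (A : ℝ) / j ≤ (j - p) / j := div_le_div_of_nonneg_right h6 hj0.le
      rw [sub_div, div_self hj0.ne'] at h7
      linarith
    rw [Finset.sum_const, nsmul_eq_mul] at h4
    refine h4.trans (le_trans ?_ hV)
    exact Finset.sum_le_sum_of_subset_of_nonneg (Finset.filter_subset _ _) fun _ _ _ => om_nonneg _ _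
  have h4 : ((S.filter (fun p => ¬ j < p + A)).card : ℝ) ≤ V * j / A := by
    rw [le_div_iff₀ hA0]
    have : ((S.filter (fun p => ¬ j < p + A)).card : ℝ) * (A / j) * j ≤ V * j := mul_le_mul_of_nonneg_right h3 hj0.le
    have e : ((S.filter (fun p => ¬ j < p + A)).card : ℝ) * (A / j) * j = ((S.filter (fun p => ¬ j < p + A)).card : ℝ) * A := by
      field_simp
    rw [e] at this
    exact this
  rw [h1]
  push_cast
  have : ((S.filter (fun p => j < p + A)).card : ℝ) ≤ A := by exact_mod_cast h2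
  linarith

open Classical in
/-- the exceptions `n` with `⌊log n⌋ = j` -/
def XX (j : ℕ) : Finset ℕ :=
  (Finset.Icc 3 ⌊Real.exp (j + 1)⌋₊).filter (fun n => ⌊Real.log n⌋₊ = j ∧ NE n)

theorem XX_mem {j n : ℕ} : n ∈ XX j ↔ (3 ≤ n ∧ n ≤ ⌊Real.exp (j + 1)⌋₊) ∧ ⌊Real.log n⌋₊ = j ∧ NE n := by
  simp only [XX, Finset.mem_filter, Finset.mem_Icc]

theorem exc_info {θ' C K : ℝ} (hθ' : 0 ≤ θ') (hC : 0 ≤ C) (j : ℕ) (hj : 3 ≤ j)
    (hθ : |Chebyshev.theta j - j| ≤ C * (j : ℝ) ^ θ') (hB : |bb ethe (Real.log j)| ≤ K * (j : ℝ) ^ (θ' - 1))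
    {n : ℕ} (hn : n ∈ XX j) (A : ℕ) (hA : 1 ≤ A) :
    ∑ p ∈ symmDiff n.primeFactors (QQ j), om j p ≤ (1 + C + K) * (j : ℝ) ^ θ' * Real.log j ∧
    Real.log ((n / ∏ p ∈ n.primeFactors, p : ℕ) : ℝ) ≤ 1 + C * (j : ℝ) ^ θ' +
      (A + (1 + C + K) * (j : ℝ) ^ θ' * Real.log j * j / A) * Real.log j := by
  rw [XX_mem] at hn
  obtain ⟨⟨hn3, _⟩, hnj, hNE⟩ := hn
  have hn0 : n ≠ 0 := by omega
  have hj3 : (3:ℝ) ≤ j := by exact_mod_cast hj
  have hj0 : (0:ℝ) < j := by linarith
  have hl1 : 1 ≤ Real.log j := by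
    have h3 : Real.log 3 ≤ Real.log j := Real.log_le_log (by norm_num) hj3
    have h4 : 1 < Real.log 3 := by
      rw [Real.lt_log_iff_exp_lt (by norm_num)]
      exact Real.exp_one_lt_three
    linarith
  have hn1 : (3:ℝ) ≤ n := by exact_mod_cast hn3
  have hlogn0 : 0 ≤ Real.log n := Real.log_nonneg (by linarith)
  have hlow : (j:ℝ) ≤ Real.log n := by rw [← hnj]; exact Nat.floor_le hlogn0
  have hup : Real.log n ≤ j + 1 := by
    have := Nat.lt_floor_add_one (Real.log n)
    rw [hnj] at this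
    exact this.le
  have h1 : ∑ p ∈ n.primeFactors, Real.log p ≤ j + 1 := (rad_le hn0).trans hup
  have h2 : Real.eulerMascheroniConstant + Real.log (Real.log j) ≤ ∑ p ∈ n.primeFactors, gg p := by
    rw [← log_div_totient hn0]
    have h3 : Real.log j ≤ Real.log (Real.log n) := Real.log_le_log hj0 hlow
    have h4 : 0 < Real.log (Real.log n) := by linarith
    have h5 := Real.log_le_log (by positivity) (le_of_lt hNE)
    rw [Real.log_mul (Real.exp_pos _).ne' h4.ne', Real.log_exp] at h5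
    have h6 := Real.log_le_log (by linarith : 0 < Real.log j) h3
    linarith
  have hP : ∀ p ∈ n.primeFactors, p.Prime := fun p hp => Nat.prime_of_mem_primeFactors hp
  have key := key_ineq hθ' hC j hj n.primeFactors hP h1 h2 hθ hB
  refine ⟨key, ?_⟩
  set V : ℝ := (1 + C + K) * (j : ℝ) ^ θ' * Real.log j with hV
  have hdvd := Nat.prod_primeFactors_dvd n
  have hrad0 : (0:ℝ) < ((∏ p ∈ n.primeFactors, p : ℕ) : ℝ) := by
    exact_mod_cast Finset.prod_pos fun p hp => (Nat.prime_of_mem_primeFactors hp).pos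
  rw [Nat.cast_div hdvd hrad0.ne', Real.log_div (by exact_mod_cast hn0) hrad0.ne']
  have hlr : Real.log ((∏ p ∈ n.primeFactors, p : ℕ) : ℝ) = ∑ p ∈ n.primeFactors, Real.log p := by
    push_cast
    exact Real.log_prod (fun p hp => by exact_mod_cast (Nat.prime_of_mem_primeFactors hp).ne_zero)
  rw [hlr]
  have hd1 := Finset.sum_sdiff_sub_sum_sdiff (s₁ := QQ j) (s₂ := n.primeFactors) (f := fun p : ℕ => Real.log p)
  have hQlog : ∑ p ∈ QQ j, Real.log p = Chebyshev.theta j := by
    unfold QQ Chebyshev.theta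
    rw [Nat.floor_natCast]
    rfl
  rw [hQlog] at hd1
  have hTnn : 0 ≤ ∑ p ∈ n.primeFactors \ QQ j, Real.log p := Finset.sum_nonneg fun p _ => Real.log_natCast_nonneg p
  have hSle : ∑ p ∈ QQ j \ n.primeFactors, Real.log p ≤ (QQ j \ n.primeFactors).card * Real.log j := by
    rw [← nsmul_eq_mul]
    refine Finset.sum_le_card_nsmul _ _ _ fun p hp => ?_
    rw [Finset.mem_sdiff] at hp
    have hpQ := hp.1
    unfold QQ at hpQ
    rw [Finset.mem_filter, Finset.mem_Icc] at hpQ
    exact Real.log_le_log (by exact_mod_cast hpQ.2.pos) (by exact_mod_cast hpQ.1.2)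
  have hSV : ∑ p ∈ QQ j \ n.primeFactors, om j p ≤ V := by
    refine le_trans ?_ key
    refine Finset.sum_le_sum_of_subset_of_nonneg ?_ fun _ _ _ => om_nonneg _ _
    rw [symmDiff_def]
    exact le_sup_right
  have hcS := card_S j (by omega) (QQ j \ n.primeFactors) (by
    intro p hp
    rw [Finset.mem_sdiff] at hp
    have hpQ := hp.1
    unfold QQ at hpQ
    rw [Finset.mem_filter] at hpQ
    exact hpQ.1) hSV A hA
  have hmul := mul_le_mul_of_nonneg_right hcS (by linarith : 0 ≤ Real.log j)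
  have hth := (abs_le.1 hθ).1
  linarith

/-- the number of exceptions with `⌊log n⌋ = j` -/
theorem XX_card {θ' C K : ℝ} (hθ' : 0 ≤ θ') (hC : 0 ≤ C) (j : ℕ) (hj : 3 ≤ j)
    (hθ : |Chebyshev.theta j - j| ≤ C * (j : ℝ) ^ θ') (hB : |bb ethe (Real.log j)| ≤ K * (j : ℝ) ^ (θ' - 1))
    (A μ : ℕ) (hA : 1 ≤ A) (hμ : 1 ≤ μ) :
    ((XX j).card : ℝ) ≤ Real.exp ((μ + 1) * ((1 + C + K) * (j : ℝ) ^ θ' * Real.log j) + (1 + 2 * j / μ)) *
      (Real.exp (1 + C * (j : ℝ) ^ θ' + (A + (1 + C + K) * (j : ℝ) ^ θ' * Real.log j * j / A) * Real.log j) + 1) := by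
  set V : ℝ := (1 + C + K) * (j : ℝ) ^ θ' * Real.log j with hV
  set M : ℝ := Real.exp (1 + C * (j : ℝ) ^ θ' + (A + V * j / A) * Real.log j) with hM
  set N : ℕ := ⌊Real.exp (j + 1)⌋₊ with hN
  set 𝒰 := (Finset.Icc 1 N).powerset.filter (fun U => ∑ m ∈ U, om j m ≤ V) with h𝒰
  have hjN : j ≤ N := by
    rw [hN]
    refine Nat.le_floor ?_
    have := Real.add_one_le_exp ((j : ℝ) + 1)
    linarith
  have hcard : (XX j).card ≤ (𝒰 ×ˢ Finset.range (⌊M⌋₊ + 1)).card := by
    refine Finset.card_le_card_of_injOn (fun n => (symmDiff n.primeFactors (QQ j), n / ∏ p ∈ n.primeFactors, p)) ?_ ?_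
    · intro n hn
      have hn' : n ∈ XX j := hn
      obtain ⟨h1, h2⟩ := exc_info hθ' hC j hj hθ hB hn' A hA
      rw [XX_mem] at hn'
      obtain ⟨⟨hn3, hnN⟩, _, _⟩ := hn'
      simp only [Finset.coe_product, Set.mem_prod, Finset.mem_coe, Finset.mem_range]
      constructor
      · rw [h𝒰, Finset.mem_filter, Finset.mem_powerset]
        refine ⟨fun p hp => ?_, h1⟩
        rw [Finset.mem_symmDiff] at hp
        rw [Finset.mem_Icc]
        rcases hp with ⟨hp, _⟩ | ⟨hp, _⟩
        · exact ⟨(Nat.prime_of_mem_primeFactors hp).one_lt.le, (Nat.le_of_mem_primeFactors hp).trans hnN⟩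
        · unfold QQ at hp
          rw [Finset.mem_filter, Finset.mem_Icc] at hp
          exact ⟨hp.1.1, hp.1.2.trans hjN⟩
      · have hm0 : 0 < n / ∏ p ∈ n.primeFactors, p :=
          Nat.div_pos (Nat.le_of_dvd (by omega) (Nat.prod_primeFactors_dvd n))
            (Finset.prod_pos fun p hp => (Nat.prime_of_mem_primeFactors hp).pos)
        have hm1 : (0:ℝ) < ((n / ∏ p ∈ n.primeFactors, p : ℕ) : ℝ) := by exact_mod_cast hm0
        have h3 : ((n / ∏ p ∈ n.primeFactors, p : ℕ) : ℝ) ≤ M := by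
          rw [hM, ← Real.log_le_iff_le_exp hm1]
          exact h2
        have := Nat.le_floor h3
        omega
    · intro n hn n' hn' heq
      have hn1 : n ∈ XX j := hn
      have hn1' : n' ∈ XX j := hn'
      rw [XX_mem] at hn1 hn1'
      simp only [Prod.mk.injEq] at heq
      have h1 : n.primeFactors = n'.primeFactors := symmDiff_left_injective _ heq.1
      have h2 := heq.2
      rw [← h1] at h2
      have d1 := Nat.prod_primeFactors_dvd n
      have d2 := Nat.prod_primeFactors_dvd n'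
      rw [← h1] at d2
      calc n = (∏ p ∈ n.primeFactors, p) * (n / ∏ p ∈ n.primeFactors, p) := (Nat.mul_div_cancel' d1).symm
        _ = (∏ p ∈ n.primeFactors, p) * (n' / ∏ p ∈ n.primeFactors, p) := by rw [h2]
        _ = n' := Nat.mul_div_cancel' d2
  rw [Finset.card_product, Finset.card_range] at hcard
  have h1 := count_U j (by omega) μ hμ N V
  have h2 : ((XX j).card : ℝ) ≤ (𝒰.card : ℝ) * ((⌊M⌋₊ : ℝ) + 1) := by exact_mod_cast hcard
  refine h2.trans ?_
  have h3 : (⌊M⌋₊ : ℝ) ≤ M := Nat.floor_le (Real.exp_pos _).le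
  exact mul_le_mul h1 (by linarith) (by positivity) (by positivity)

end

end Pool.Agent.R303.Rob
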