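import Pool.Agent.R303.Rob.Up2

/-! # Upper bound for the number of exceptions, asymptotic form -/

set_option autoImplicit false

open Finset Filter Topology

namespace Pool.Agent.R303.Rob

noncomputable section

open H353 (FF)

theorem plog (a b C : ℝ) (hab : a < b) : ∀ᶠ x : ℝ in atTop, C * x ^ a * Real.log x ≤ x ^ b := by
  have h := (isLittleO_log_rpow_atTop (r := b - a) (by linarith)).bound (c := 1 / (|C| + 1)) (by positivity)
  filter_upwards [h, eventually_gt_atTop 1] with x hx hx1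
  have hx0 : 0 < x := by linarith
  have hl : 0 < Real.log x := Real.log_pos hx1
  have hp : 0 < x ^ (b - a) := Real.rpow_pos_of_pos hx0 _
  rw [Real.norm_eq_abs, Real.norm_eq_abs, abs_of_pos hl, abs_of_pos hp] at hx
  have ha : 0 < x ^ a := Real.rpow_pos_of_pos hx0 _
  have e : x ^ b = x ^ a * x ^ (b - a) := by rw [← Real.rpow_add hx0]; congr 1; ring
  rw [e]
  have h1 : C ≤ |C| := le_abs_self C
  have h2 : |C| * (1 / (|C| + 1) * x ^ (b - a)) ≤ x ^ (b - a) := by
    have h3 : |C| * (1 / (|C| + 1)) ≤ 1 := by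
      rw [mul_one_div, div_le_one (by positivity)]
      linarith
    calc |C| * (1 / (|C| + 1) * x ^ (b - a)) = (|C| * (1 / (|C| + 1))) * x ^ (b - a) := by ring
      _ ≤ 1 * x ^ (b - a) := mul_le_mul_of_nonneg_right h3 hp.le
      _ = _ := one_mul _
  calc C * x ^ a * Real.log x ≤ |C| * x ^ a * Real.log x := by gcongr
    _ ≤ |C| * x ^ a * (1 / (|C| + 1) * x ^ (b - a)) := by gcongr
    _ = x ^ a * (|C| * (1 / (|C| + 1) * x ^ (b - a))) := by ring
    _ ≤ _ := mul_le_mul_of_nonneg_left h2 ha.le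

theorem log_one_le {x : ℝ} (hx : 3 ≤ x) : 1 ≤ Real.log x := by
  have h3 : Real.log 3 ≤ Real.log x := Real.log_le_log (by norm_num) hx
  have h4 : 1 < Real.log 3 := by
    rw [Real.lt_log_iff_exp_lt (by norm_num)]
    exact Real.exp_one_lt_three
  linarith

/-- the number of exceptions with `⌊log n⌋ = j` -/
theorem XX_asymp {Θ : ℝ} (h0 : 1 / 2 ≤ Θ) (h1 : Θ < 1) (hΘ : ∀ ρ : ℂ, FF ρ = 0 → ρ.re ≤ Θ) {κ : ℝ}
    (hκ : (1 + Θ) / 2 < κ) : ∃ j0 : ℕ, ∀ j : ℕ, j0 ≤ j → ((XX j).card : ℝ) ≤ Real.exp ((j : ℝ) ^ κ) := by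
  -- parameters
  obtain ⟨s, hs1, hs2, hs3⟩ : ∃ s : ℝ, (1 + Θ) / 2 < s ∧ s < κ ∧ s < 1 := by
    refine ⟨((1 + Θ) / 2 + min κ 1) / 2, ?_, ?_, ?_⟩
    · have : (1 + Θ) / 2 < min κ 1 := lt_min hκ (by linarith)
      linarith
    · have : (1 + Θ) / 2 < min κ 1 := lt_min hκ (by linarith)
      have := min_le_left κ 1
      linarith
    · have : (1 + Θ) / 2 < min κ 1 := lt_min hκ (by linarith)
      have := min_le_right κ 1
      linarith
  set θ' : ℝ := (Θ + (2 * s - 1)) / 2 with hθ'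
  have ht1 : Θ < θ' := by rw [hθ']; linarith
  have ht2 : θ' < 2 * s - 1 := by rw [hθ']; linarith
  have ht3 : θ' < 1 := by linarith
  obtain ⟨C, hC, hCb⟩ := theta_free h0 hΘ ht1 ht3.le
  obtain ⟨C1, hC1, hC1b⟩ := ethe_exp h0 hΘ (η := 1 - θ') (by linarith) (by linarith)
  have hdec := bb_decay ethe_adm (show 0 < 1 - θ' by linarith) hC1 hC1b
  set K : ℝ := 2 * C1 / (1 - θ') with hK
  have hK0 : 0 < K := by
    have : 0 < 1 - θ' := by linarith
    positivity
  have hev1 : ∀ᶠ j : ℕ in atTop, (1 + C + K) * (j : ℝ) ^ θ' * Real.log j ≤ (j : ℝ) ^ (2 * s - 1) :=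
    tendsto_natCast_atTop_atTop.eventually (plog θ' (2 * s - 1) (1 + C + K) ht2)
  have hev2 : ∀ᶠ j : ℕ in atTop, (12 + C) * (j : ℝ) ^ s * Real.log j ≤ (j : ℝ) ^ κ :=
    tendsto_natCast_atTop_atTop.eventually (plog s κ (12 + C) hs2)
  have hev3 : ∀ᶠ j : ℕ in atTop, 3 ≤ j := eventually_ge_atTop 3
  obtain ⟨j0, hj0⟩ := eventually_atTop.1 (hev1.and (hev2.and hev3))
  refine ⟨j0, fun j hj => ?_⟩
  obtain ⟨e1, e2, e3⟩ := hj0 j hj
  have hj3 : (3:ℝ) ≤ j := by exact_mod_cast e3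
  have hjp : (0:ℝ) < j := by linarith
  have hl1 := log_one_le hj3
  have hθb := hCb j (by linarith)
  have hBb : |bb ethe (Real.log j)| ≤ K * (j : ℝ) ^ (θ' - 1) := by
    have := hdec (Real.log j) hl1
    refine this.trans (le_of_eq ?_)
    rw [Real.rpow_def_of_pos hjp, hK]
    congr 2
    ring
  set E : ℝ := (j : ℝ) ^ s with hE
  have hE1 : 1 ≤ E := Real.one_le_rpow (by linarith) (by linarith)
  set μ : ℕ := ⌈(j : ℝ) ^ (1 - s)⌉₊ with hμ
  set A : ℕ := ⌈E⌉₊ with hA
  have hjs : 1 ≤ (j : ℝ) ^ (1 - s) := Real.one_le_rpow (by linarith) (by linarith)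
  have hμ1 : (j : ℝ) ^ (1 - s) ≤ μ := Nat.le_ceil _
  have hμ2 : (μ : ℝ) ≤ (j : ℝ) ^ (1 - s) + 1 := (Nat.ceil_lt_add_one (by positivity)).le
  have hA1 : E ≤ A := Nat.le_ceil _
  have hA2 : (A : ℝ) ≤ E + 1 := (Nat.ceil_lt_add_one (by positivity)).le
  have hμ3 : 1 ≤ μ := by
    have : (1:ℝ) ≤ μ := by linarith
    exact_mod_cast this
  have hA3 : 1 ≤ A := by
    have : (1:ℝ) ≤ A := by linarith
    exact_mod_cast this
  have key := XX_card (by linarith) hC.le j e3 hθb hBb A μ hA3 hμ3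
  set V : ℝ := (1 + C + K) * (j : ℝ) ^ θ' * Real.log j with hV
  have hV0 : 0 ≤ V := by positivity
  have hmulE : (j : ℝ) ^ (1 - s) * (j : ℝ) ^ (2 * s - 1) = E := by
    rw [hE, ← Real.rpow_add hjp]; congr 1; ring
  have h2s : (j : ℝ) ^ (2 * s - 1) ≤ E := by
    rw [hE]
    exact Real.rpow_le_rpow_of_exponent_le (by linarith) (by linarith)
  have hθE : (j : ℝ) ^ θ' ≤ E := by
    rw [hE]
    exact Real.rpow_le_rpow_of_exponent_le (by linarith) (by linarith)
  have hjE : (j : ℝ) = E * (j : ℝ) ^ (1 - s) := by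
    rw [hE, ← Real.rpow_add hjp]
    have : s + (1 - s) = 1 := by ring
    rw [this, Real.rpow_one]
  have a1 : (μ + 1) * V ≤ 3 * E := by
    have b1 : (μ + 1 : ℝ) * V ≤ ((j : ℝ) ^ (1 - s) + 2) * (j : ℝ) ^ (2 * s - 1) := by
      refine mul_le_mul (by linarith) e1 hV0 (by positivity)
    have b2 : ((j : ℝ) ^ (1 - s) + 2) * (j : ℝ) ^ (2 * s - 1) = E + 2 * (j : ℝ) ^ (2 * s - 1) := by
      rw [add_mul, hmulE]
    linarith
  have a2 : 2 * (j : ℝ) / μ ≤ 2 * E := by
    have hμ0 : (0:ℝ) < μ := by linarith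
    rw [div_le_iff₀ hμ0]
    calc 2 * (j : ℝ) = 2 * E * (j : ℝ) ^ (1 - s) := by rw [mul_assoc, ← hjE]
      _ ≤ 2 * E * μ := by gcongr
  have a3 : V * j / A ≤ E := by
    have hA0 : (0:ℝ) < A := by linarith
    rw [div_le_iff₀ hA0]
    have b1 : V * j ≤ (j : ℝ) ^ (2 * s - 1) * j := mul_le_mul_of_nonneg_right e1 hjp.le
    have b2 : (j : ℝ) ^ (2 * s - 1) * j = E * E := by
      nth_rewrite 2 [← Real.rpow_one (j : ℝ)]
      rw [hE, ← Real.rpow_add hjp, ← Real.rpow_add hjp]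
      congr 1; ring
    have b3 : E * E ≤ E * A := by gcongr
    linarith
  have hEl : E ≤ E * Real.log j := by nlinarith
  have a4 : 1 + C * (j : ℝ) ^ θ' + (A + V * j / A) * Real.log j ≤ (4 + C) * (E * Real.log j) := by
    have b1 : (A + V * j / A) * Real.log j ≤ (3 * E) * Real.log j := by
      refine mul_le_mul_of_nonneg_right (by linarith) (by linarith)
    have b2 : C * (j : ℝ) ^ θ' ≤ C * (E * Real.log j) := mul_le_mul_of_nonneg_left (hθE.trans hEl) hC.le
    nlinarith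
  have a5 : Real.exp (1 + C * (j : ℝ) ^ θ' + (A + V * j / A) * Real.log j) + 1 ≤
      Real.exp ((4 + C) * (E * Real.log j) + 1) := by
    have b1 := Real.exp_le_exp.2 a4
    rw [Real.exp_add ((4 + C) * (E * Real.log j)) 1]
    have b2 : (2:ℝ) ≤ Real.exp 1 := by have := Real.add_one_le_exp (1:ℝ); linarith
    have b3 : 1 ≤ Real.exp ((4 + C) * (E * Real.log j)) := Real.one_le_exp (by positivity)
    nlinarith
  refine key.trans ?_
  calc _ ≤ Real.exp (6 * E) * Real.exp ((4 + C) * (E * Real.log j) + 1) := by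
        refine mul_le_mul (Real.exp_le_exp.2 (by linarith)) a5 (by positivity) (by positivity)
    _ = Real.exp (6 * E + ((4 + C) * (E * Real.log j) + 1)) := (Real.exp_add _ _).symm
    _ ≤ Real.exp ((12 + C) * E * Real.log j) := Real.exp_le_exp.2 (by nlinarith)
    _ ≤ _ := Real.exp_le_exp.2 e2

open Classical in
/-- the number of integers `3 ≤ n ≤ x` violating the Nicolas bound -/
def NC (x : ℝ) : ℕ := ((Finset.Icc 3 ⌊x⌋₊).filter NE).card

theorem NC_le_sum {x : ℝ} (hx : 3 ≤ x) : NC x ≤ ∑ j ∈ Finset.range (⌊Real.log x⌋₊ + 1), (XX j).card := by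
  classical
  unfold NC
  refine le_trans (Finset.card_le_card ?_) Finset.card_biUnion_le
  intro n hn
  simp only [Finset.mem_filter, Finset.mem_Icc] at hn
  obtain ⟨⟨h1, h2⟩, h3⟩ := hn
  have hn3 : (3:ℝ) ≤ n := by exact_mod_cast h1
  have hnx : (n:ℝ) ≤ x := (Nat.le_floor_iff (by linarith)).1 h2
  rw [Finset.mem_biUnion]
  refine ⟨⌊Real.log n⌋₊, ?_, ?_⟩
  · rw [Finset.mem_range]
    have := Nat.floor_le_floor (Real.log_le_log (by linarith) hnx)
    omega
  · rw [XX_mem]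
    refine ⟨⟨h1, Nat.le_floor ?_⟩, rfl, h3⟩
    rw [← Real.log_le_iff_le_exp (by linarith)]
    exact (Nat.lt_floor_add_one _).le

/-- upper bound for the number of exceptions -/
theorem NC_upper {Θ : ℝ} (h0 : 1 / 2 ≤ Θ) (h1 : Θ ≤ 1) (hΘ : ∀ ρ : ℂ, FF ρ = 0 → ρ.re ≤ Θ) {κ : ℝ}
    (hκ : (1 + Θ) / 2 < κ) : ∀ᶠ x : ℝ in atTop, (NC x : ℝ) ≤ Real.exp (Real.log x ^ κ) := by
  rcases lt_or_eq_of_le h1 with h1 | h1
  · obtain ⟨κ', hκ1, hκ2⟩ : ∃ κ' : ℝ, (1 + Θ) / 2 < κ' ∧ κ' < κ := exists_between hκ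
    obtain ⟨j0, hj0⟩ := XX_asymp h0 h1 hΘ hκ1
    set C0 : ℝ := ∑ j ∈ Finset.range j0, ((XX j).card : ℝ) with hC0
    have hC00 : 0 ≤ C0 := Finset.sum_nonneg fun _ _ => by positivity
    have ev1 : ∀ᶠ x : ℝ in atTop, 3 * Real.log x ^ κ' * Real.log (Real.log x) ≤ Real.log x ^ κ :=
      Real.tendsto_log_atTop.eventually (plog κ' κ 3 hκ2)
    have ev2 : ∀ᶠ x : ℝ in atTop, C0 + 2 ≤ Real.log x := Real.tendsto_log_atTop.eventually_ge_atTop _
    have ev3 : ∀ᶠ x : ℝ in atTop, 3 ≤ Real.log x := Real.tendsto_log_atTop.eventually_ge_atTop _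
    filter_upwards [ev1, ev2, ev3, eventually_ge_atTop 3] with x hx1 hx2 hx3 hx4
    set u : ℝ := Real.log x with hu
    have hsum : (NC x : ℝ) ≤ C0 + (u + 1) * Real.exp (u ^ κ') := by
      have h2 : (NC x : ℝ) ≤ ∑ j ∈ Finset.range (⌊u⌋₊ + 1), ((XX j).card : ℝ) := by
        exact_mod_cast NC_le_sum hx4
      refine h2.trans ?_
      have h3 : ∑ j ∈ Finset.range (⌊u⌋₊ + 1), ((XX j).card : ℝ) ≤
          ∑ j ∈ Finset.range (⌊u⌋₊ + 1), ((if j < j0 then ((XX j).card : ℝ) else 0) + Real.exp (u ^ κ')) := by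
        refine Finset.sum_le_sum fun j hj => ?_
        rw [Finset.mem_range] at hj
        split_ifs with h
        · have := Real.exp_pos (u ^ κ')
          linarith
        · rw [zero_add]
          refine (hj0 j (by omega)).trans (Real.exp_le_exp.2 ?_)
          have hju : (j:ℝ) ≤ u := by
            have : (j:ℝ) ≤ ⌊u⌋₊ := by exact_mod_cast (show j ≤ ⌊u⌋₊ by omega)
            exact this.trans (Nat.floor_le (by linarith))
          exact Real.rpow_le_rpow (by positivity) hju (by linarith)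
      refine h3.trans ?_
      rw [Finset.sum_add_distrib, Finset.sum_const, Finset.card_range, nsmul_eq_mul]
      have h4 : ∑ j ∈ Finset.range (⌊u⌋₊ + 1), (if j < j0 then ((XX j).card : ℝ) else 0) ≤ C0 := by
        rw [← Finset.sum_filter, hC0]
        refine Finset.sum_le_sum_of_subset_of_nonneg ?_ fun _ _ _ => by positivity
        intro j hj
        rw [Finset.mem_filter] at hj
        exact Finset.mem_range.2 hj.2
      have h5 : ((⌊u⌋₊ + 1 : ℕ) : ℝ) ≤ u + 1 := by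
        push_cast
        have := Nat.floor_le (show 0 ≤ u by linarith)
        linarith
      have := mul_le_mul_of_nonneg_right h5 (Real.exp_pos (u ^ κ')).le
      linarith
    refine hsum.trans ?_
    have hE : 1 ≤ Real.exp (u ^ κ') := Real.one_le_exp (by positivity)
    have h2 : C0 + (u + 1) * Real.exp (u ^ κ') ≤ u ^ 2 * Real.exp (u ^ κ') := by nlinarith
    refine h2.trans ?_
    have h3 : u ^ 2 = Real.exp (2 * Real.log u) := by
      rw [← Real.rpow_natCast, Real.rpow_def_of_pos (by linarith)]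
      congr 1
      push_cast; ring
    rw [h3, ← Real.exp_add]
    refine Real.exp_le_exp.2 (le_trans ?_ hx1)
    have hl := log_one_le hx3
    have hp : 1 ≤ u ^ κ' := Real.one_le_rpow (by linarith) (by linarith)
    nlinarith
  · filter_upwards [eventually_ge_atTop 3] with x hx
    have h2 : (NC x : ℝ) ≤ x := by
      classical
      have h3 : NC x ≤ ⌊x⌋₊ := by
        unfold NC
        refine (Finset.card_filter_le _ _).trans ?_
        rw [Nat.card_Icc]
        omega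
      have h4 : (NC x : ℝ) ≤ ⌊x⌋₊ := by exact_mod_cast h3
      exact h4.trans (Nat.floor_le (by linarith))
    refine h2.trans ?_
    have hl := log_one_le hx
    have h5 : Real.log x ≤ Real.log x ^ κ := by
      nth_rewrite 1 [← Real.rpow_one (Real.log x)]
      exact Real.rpow_le_rpow_of_exponent_le hl (by linarith)
    calc x = Real.exp (Real.log x) := (Real.exp_log (by linarith)).symm
      _ ≤ _ := Real.exp_le_exp.2 h5

end

end Pool.Agent.R303.Rob
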