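import Pool.Agent.R303.Rob.Cen

/-! # Large positive values in windows -/

set_option autoImplicit false

open Complex MeasureTheory Filter Topology Set

namespace Pool.Agent.R303.Rob

noncomputable section

variable {e : ℝ → ℝ}

/-- the moments at a complex centre whose nearest singularity is a simple pole -/
theorem cplx_center (he : Adm e) {s p a : ℂ} {R M : ℝ} (hs : 0 < s.re) (hsp : s ≠ p)
    (hdR : ‖s - p‖ < R) (ha : a ≠ 0) (hM : 0 < M)
    (h : ∀ n : ℕ, ‖LT e n s - a * n.factorial / (s - p) ^ (n + 1)‖ ≤ M * n.factorial / R ^ n) :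
    ∃ c : ℝ, 0 < c ∧ ∀ᶠ n : ℕ in atTop, ∃ m : ℕ, (m = n + 1 ∨ m = n + 2) ∧
      c * m.factorial / ((m + 1) ^ 2 * ‖s - p‖ ^ m) ≤ ‖LT (bb e) m s‖ := by
  set d : ℝ := ‖s - p‖ with hd
  have hd0 : 0 < d := norm_pos_iff.2 (sub_ne_zero.2 hsp)
  have hR : 0 < R := hd0.trans hdR
  have hs0 : 0 < ‖s‖ := norm_pos_iff.2 (by rintro rfl; simp at hs)
  have ha0 : 0 < ‖a‖ := norm_pos_iff.2 ha
  set c : ℝ := min (‖a‖ / (8 * ‖s‖)) (‖a‖ / (8 * d)) with hc
  have hc0 : 0 < c := lt_min (by positivity) (by positivity)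
  have hc1 : c ≤ ‖a‖ / (8 * ‖s‖) := min_le_left _ _
  have hc2 : c ≤ ‖a‖ / (8 * d) := min_le_right _ _
  refine ⟨c, hc0, ?_⟩
  set q : ℝ := d / R with hq
  have hq0 : 0 < q := by positivity
  have hq1 : q < 1 := by rw [hq, div_lt_one hR]; exact hdR
  have t1 : Tendsto (fun n : ℕ => ‖a‖ * d * (1 / ((n : ℝ) + 1))) atTop (𝓝 0) := by
    have := (tendsto_one_div_add_atTop_nhds_zero_nat (𝕜 := ℝ)).const_mul (‖a‖ * d)
    rwa [mul_zero] at this
  have t2 : Tendsto (fun n : ℕ => (M * d ^ 2 + M * d) * q ^ n) atTop (𝓝 0) := by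
    have := (tendsto_pow_atTop_nhds_zero_of_lt_one hq0.le hq1).const_mul (M * d ^ 2 + M * d)
    rwa [mul_zero] at this
  have t3 := fact_big (4 * |bb e 1| / ‖a‖ * d) d hd0
  filter_upwards [t1.eventually (gt_mem_nhds (show (0:ℝ) < ‖a‖ / 4 by positivity)),
    t2.eventually (gt_mem_nhds (show (0:ℝ) < ‖a‖ / 4 by positivity)), t3, (tendsto_add_atTop_nat 1).eventually t3]
    with n h1 h2 h3 h4
  have hn0 : (0:ℝ) ≤ n := Nat.cast_nonneg n
  have hfp : (0:ℝ) < n.factorial := by exact_mod_cast n.factorial_pos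
  have hf1 : ((n + 1).factorial : ℝ) = (n + 1) * n.factorial := by
    rw [Nat.factorial_succ]; push_cast; ring
  have hf2 : ((n + 2).factorial : ℝ) = (n + 2) * ((n + 1) * n.factorial) := by
    rw [Nat.factorial_succ, Nat.factorial_succ]; push_cast; ring
  -- lower bound for the moments of `e wt`
  have hD : ‖a‖ / 2 * ((n + 1).factorial / d ^ (n + 2)) ≤ ‖LT (fun t => e t * wt t) (n + 2) s‖ := by
    rw [wt_moment he n hs]
    have a1 := h n
    have a2 := h (n + 1)
    have e1 : LT e n s + LT e (n + 1) s = (LT e n s - a * n.factorial / (s - p) ^ (n + 1)) +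
        (LT e (n + 1) s - a * (n + 1).factorial / (s - p) ^ (n + 1 + 1)) +
        a * n.factorial / (s - p) ^ (n + 1) + a * (n + 1).factorial / (s - p) ^ (n + 1 + 1) := by ring
    have b1 : ‖a * ((n + 1).factorial : ℂ) / (s - p) ^ (n + 1 + 1)‖ = ‖a‖ * (n + 1).factorial / d ^ (n + 2) := by
      rw [norm_div, norm_mul, norm_pow, Complex.norm_natCast]
    have b2 : ‖a * (n.factorial : ℂ) / (s - p) ^ (n + 1)‖ = ‖a‖ * n.factorial / d ^ (n + 1) := by
      rw [norm_div, norm_mul, norm_pow, Complex.norm_natCast]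
    have tri : ∀ x y z w : ℂ, ‖w‖ - ‖z‖ - ‖x‖ - ‖y‖ ≤ ‖x + y + z + w‖ := by
      intro x y z w
      have : w = (x + y + z + w) - z - x - y := by ring
      have h5 : ‖w‖ ≤ ‖x + y + z + w‖ + ‖z‖ + ‖x‖ + ‖y‖ := by
        calc ‖w‖ = ‖(x + y + z + w) - z - x - y‖ := by rw [← this]
          _ ≤ ‖(x + y + z + w) - z - x‖ + ‖y‖ := norm_sub_le _ _
          _ ≤ ‖(x + y + z + w) - z‖ + ‖x‖ + ‖y‖ := by gcongr; exact norm_sub_le _ _
          _ ≤ _ := by gcongr; exact norm_sub_le _ _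
      linarith
    rw [e1]
    refine le_trans ?_ (tri _ _ _ _)
    rw [b1, b2]
    set X : ℝ := (n + 1).factorial / d ^ (n + 2) with hX
    have hX0 : 0 < X := by
      have : (0:ℝ) < (n + 1).factorial := by exact_mod_cast (n + 1).factorial_pos
      positivity
    have c1 : ‖a‖ * (n + 1).factorial / d ^ (n + 2) = ‖a‖ * X := by rw [hX]; ring
    have c2 : ‖a‖ * n.factorial / d ^ (n + 1) = (‖a‖ * d * (1 / ((n : ℝ) + 1))) * X := by
      rw [hX, hf1]
      field_simp
      ring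
    have c3 : M * n.factorial / R ^ n ≤ (M * d ^ 2 * q ^ n) * X := by
      have : M * n.factorial / R ^ n = (M * d ^ 2 * q ^ n) * (n.factorial / d ^ (n + 2)) := by
        rw [hq, div_pow]
        field_simp
        ring
      rw [this, hX]
      have h6 : (n.factorial : ℝ) ≤ (n + 1).factorial := by exact_mod_cast Nat.factorial_le (by omega)
      gcongr
    have c4 : M * (n + 1).factorial / R ^ (n + 1) ≤ (M * d * q ^ n) * X := by
      have : M * (n + 1).factorial / R ^ (n + 1) = (M * d * (q ^ n * q)) * X := by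
        rw [hq, div_pow, hX]
        field_simp
        ring
      rw [this]
      have h6 : q ^ n * q ≤ q ^ n := by
        have : 0 < q ^ n := by positivity
        nlinarith
      gcongr
    rw [c1, c2]
    have h1' := mul_lt_mul_of_pos_right h1 hX0
    have h2' := mul_lt_mul_of_pos_right h2 hX0
    have h2'' : (M * d ^ 2 + M * d) * q ^ n * X = (M * d ^ 2 * q ^ n) * X + (M * d * q ^ n) * X := by ring
    rw [h2''] at h2'
    linarith
  -- the identity
  have hid := bb_moment he (n + 1) s hs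
  have hb1 : ‖(bb e 1 : ℂ) * cexp (-s)‖ ≤ ‖a‖ / 4 * ((n + 1).factorial / d ^ (n + 2)) := by
    rw [norm_mul, Complex.norm_real, Real.norm_eq_abs, Complex.norm_exp]
    have h5 : Real.exp (-s).re ≤ 1 := by
      rw [Real.exp_le_one_iff, Complex.neg_re]
      linarith
    have h6 : |bb e 1| = ‖a‖ / 4 * ((4 * |bb e 1| / ‖a‖ * d) / d) := by
      field_simp
    have h7 : ((n + 1).factorial : ℝ) / d ^ (n + 2) = ((n + 1).factorial / d ^ (n + 1)) / d := by
      field_simp
      ring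
    calc |bb e 1| * Real.exp (-s).re ≤ |bb e 1| := by
          have := abs_nonneg (bb e 1)
          nlinarith
      _ = ‖a‖ / 4 * ((4 * |bb e 1| / ‖a‖ * d) / d) := h6
      _ ≤ ‖a‖ / 4 * (((n + 1).factorial / d ^ (n + 1)) / d) := by gcongr
      _ = _ := by rw [h7]
  have hX : ‖a‖ / 4 * ((n + 1).factorial / d ^ (n + 2)) ≤
      ‖s‖ * ‖LT (bb e) (n + 2) s‖ + (n + 2) * ‖LT (bb e) (n + 1) s‖ := by
    have h5 : ‖LT (fun t => e t * wt t) (n + 2) s‖ ≤
        ‖s‖ * ‖LT (bb e) (n + 2) s‖ + (n + 2) * ‖LT (bb e) (n + 1) s‖ + ‖(bb e 1 : ℂ) * cexp (-s)‖ := by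
      have e2 : LT (fun t => e t * wt t) (n + 2) s =
          s * LT (bb e) (n + 2) s - ((n + 1 + 1 : ℕ) : ℂ) * LT (bb e) (n + 1) s - (bb e 1 : ℂ) * cexp (-s) := by
        rw [show n + 2 = n + 1 + 1 by ring, hid]
        ring
      rw [e2]
      refine (norm_sub_le _ _).trans ?_
      gcongr
      refine (norm_sub_le _ _).trans ?_
      rw [norm_mul, norm_mul, Complex.norm_natCast]
      push_cast
      have : (n : ℝ) + 1 + 1 = n + 2 := by ring
      rw [this]
    linarith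
  have hXp : 0 < ((n + 1).factorial : ℝ) / d ^ (n + 2) := by
    have : (0:ℝ) < (n + 1).factorial := by exact_mod_cast (n + 1).factorial_pos
    positivity
  by_cases hcase : ‖a‖ / 8 * ((n + 1).factorial / d ^ (n + 2)) ≤ ‖s‖ * ‖LT (bb e) (n + 2) s‖
  · refine ⟨n + 2, Or.inr rfl, ?_⟩
    have h5 : ‖a‖ / (8 * ‖s‖) * ((n + 1).factorial / d ^ (n + 2)) ≤ ‖LT (bb e) (n + 2) s‖ := by
      rw [show ‖a‖ / (8 * ‖s‖) * ((n + 1).factorial / d ^ (n + 2)) =
        (‖a‖ / 8 * ((n + 1).factorial / d ^ (n + 2))) / ‖s‖ by field_simp, div_le_iff₀ hs0]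
      linarith
    refine le_trans ?_ h5
    refine le_trans ?_ (mul_le_mul_of_nonneg_right hc1 hXp.le)
    rw [hf2, hf1]
    rw [mul_div_assoc]
    refine mul_le_mul_of_nonneg_left ?_ hc0.le
    rw [div_le_div_iff₀ (by positivity) (by positivity)]
    have h6 : (n : ℝ) + 2 ≤ (((n + 2 : ℕ) : ℝ) + 1) ^ 2 := by push_cast; nlinarith
    calc ((n : ℝ) + 2) * ((n + 1) * n.factorial) * d ^ (n + 2)
        ≤ (((n + 2 : ℕ) : ℝ) + 1) ^ 2 * ((n + 1) * n.factorial) * d ^ (n + 2) := by gcongr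
      _ = _ := by ring
  · push Not at hcase
    refine ⟨n + 1, Or.inl rfl, ?_⟩
    have h5 : ‖a‖ / 8 * ((n + 1).factorial / d ^ (n + 2)) ≤ (n + 2) * ‖LT (bb e) (n + 1) s‖ := by
      have : ‖a‖ / 4 * (((n + 1).factorial : ℝ) / d ^ (n + 2)) =
        ‖a‖ / 8 * ((n + 1).factorial / d ^ (n + 2)) + ‖a‖ / 8 * ((n + 1).factorial / d ^ (n + 2)) := by ring
      linarith
    have h6 : ‖a‖ / (8 * d) * ((n + 1).factorial / d ^ (n + 1)) ≤ (n + 2) * ‖LT (bb e) (n + 1) s‖ := by
      refine le_trans (le_of_eq ?_) h5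
      field_simp
      ring
    have h7 : c * ((n + 1).factorial / d ^ (n + 1)) ≤ (n + 2) * ‖LT (bb e) (n + 1) s‖ := by
      refine le_trans (mul_le_mul_of_nonneg_right hc2 ?_) h6
      have : (0:ℝ) < (n + 1).factorial := by exact_mod_cast (n + 1).factorial_pos
      positivity
    have h8 : c * ((n + 1).factorial / d ^ (n + 1)) / (n + 2) ≤ ‖LT (bb e) (n + 1) s‖ := by
      rw [div_le_iff₀ (by positivity)]
      linarith
    refine le_trans ?_ h8
    have hfp1 : (0:ℝ) < (n + 1).factorial := by exact_mod_cast (n + 1).factorial_pos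
    rw [mul_div_assoc, mul_div_assoc, div_div]
    refine mul_le_mul_of_nonneg_left ?_ hc0.le
    rw [div_le_div_iff₀ (by positivity) (by positivity)]
    have h6 : (n : ℝ) + 2 ≤ (((n + 1 : ℕ) : ℝ) + 1) ^ 2 := by push_cast; nlinarith
    calc ((n + 1).factorial : ℝ) * (d ^ (n + 1) * (n + 2))
        ≤ (n + 1).factorial * (d ^ (n + 1) * (((n + 1 : ℕ) : ℝ) + 1) ^ 2) := by gcongr
      _ = _ := by ring

/-- the moments of the positive part -/
def PM (b : ℝ → ℝ) (m : ℕ) (r : ℝ) : ℝ :=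
  ∫ t in Ioi (1:ℝ), max (b t) 0 * (t ^ m * Real.exp (-r * t))

theorem pos_part {b : ℝ → ℝ} (hb : Measurable b) {K : ℝ} (hK : ∀ t, 1 < t → |b t| ≤ K) (m : ℕ)
    {s : ℂ} (hs : 0 < s.re) : ‖LT b m s‖ - ‖LT b m s.re‖ ≤ 2 * PM b m s.re := by
  set r := s.re with hr
  have hg := (gamma_int1 m r hs).1
  have hI : ∀ f : ℝ → ℝ, Measurable f → (∀ t, 1 < t → |f t| ≤ K) →
      IntegrableOn (fun t : ℝ => f t * (t ^ m * Real.exp (-r * t))) (Ioi 1) := by
    intro f hf hfb
    refine (hg.const_mul K).mono' (by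
      refine Measurable.aestronglyMeasurable ?_
      fun_prop) ?_
    refine (ae_restrict_iff' measurableSet_Ioi).2 (ae_of_all _ fun t ht => ?_)
    have ht1 : (1:ℝ) < t := ht
    rw [norm_mul, Real.norm_eq_abs, Real.norm_eq_abs, abs_of_pos (by positivity : 0 < t ^ m * Real.exp (-r * t))]
    have := hfb t ht1
    gcongr
  have h1 := hI b hb hK
  have h2 := hI (fun t => |b t|) (by fun_prop) (fun t ht => by rw [abs_abs]; exact hK t ht)
  have h3 := hI (fun t => max (b t) 0) (by fun_prop) (fun t ht => by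
    refine le_trans ?_ (hK t ht)
    rw [abs_of_nonneg (le_max_right _ _)]
    exact max_le (le_abs_self _) (abs_nonneg _))
  have e1 : ‖LT b m s‖ ≤ ∫ t in Ioi (1:ℝ), |b t| * (t ^ m * Real.exp (-r * t)) := by
    unfold LT
    refine (norm_integral_le_integral_norm _).trans (le_of_eq ?_)
    refine setIntegral_congr_fun measurableSet_Ioi fun t ht => ?_
    have ht1 : (1:ℝ) < t := ht
    rw [norm_integrand, abs_mul, abs_of_pos (by positivity : (0:ℝ) < t ^ m)]
    ring
  have e2 : LT b m (r : ℂ) = ((∫ t in Ioi (1:ℝ), b t * (t ^ m * Real.exp (-r * t)) : ℝ) : ℂ) := by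
    unfold LT
    rw [← integral_complex_ofReal]
    refine setIntegral_congr_fun measurableSet_Ioi fun t ht => ?_
    push_cast
    ring
  have e3 : -(∫ t in Ioi (1:ℝ), b t * (t ^ m * Real.exp (-r * t))) ≤ ‖LT b m (r : ℂ)‖ := by
    rw [e2, Complex.norm_real, Real.norm_eq_abs]
    exact neg_le_abs _
  have e4 : ∫ t in Ioi (1:ℝ), |b t| * (t ^ m * Real.exp (-r * t)) =
      2 * PM b m r - ∫ t in Ioi (1:ℝ), b t * (t ^ m * Real.exp (-r * t)) := by
    unfold PM
    rw [← integral_const_mul, ← integral_sub (h3.const_mul 2) h1]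
    refine integral_congr_ae (ae_of_all _ fun t => ?_)
    simp only
    have : |b t| = 2 * max (b t) 0 - b t := by
      rcases le_or_gt 0 (b t) with h | h
      · rw [abs_of_nonneg h, max_eq_left h]; ring
      · rw [abs_of_neg h, max_eq_right h.le]; ring
    rw [this]
    ring
  linarith

end

end Pool.Agent.R303.Rob
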