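import Pool.Agent.R303.Rob.Win

/-! # Large positive values in windows, conclusion -/

set_option autoImplicit false

open Complex MeasureTheory Filter Topology Set

namespace Pool.Agent.R303.Rob

noncomputable section

theorem sq_geo {x : ℝ} (h0 : 0 < x) (h1 : x < 1) (A : ℝ) :
    Tendsto (fun m : ℕ => ((m : ℝ) + 1) ^ 2 * (A * x ^ m)) atTop (𝓝 0) := by
  have h := (tendsto_pow_const_mul_const_pow_of_abs_lt_one 2 (r := x) (by rwa [abs_of_pos h0])).comp
    (tendsto_add_atTop_nat 1)
  have h2 := h.const_mul (A / x)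
  rw [mul_zero] at h2
  refine h2.congr fun m => ?_
  simp only [Function.comp_apply]
  push_cast
  rw [pow_succ x m]
  field_simp

/-- an upper bound for the moment of the positive part when `b` is small on the window -/
theorem PM_le {b : ℝ → ℝ} (hb : Measurable b) {K η r δ b1 q : ℝ} (hK0 : 0 ≤ K)
    (hK : ∀ t, 1 < t → |b t| ≤ K * Real.exp (-η * t)) (hr : 0 < r) (hδ : 0 < δ) (hδ1 : δ < 1)
    (hb1 : 0 < r + b1) (hq : q = r + η) (hq0 : 0 < q) (m : ℕ)
    (hwin : ∀ t, 1 < t → (1 - δ) * m / q ≤ t → t ≤ (1 + δ) * m / q → b t < Real.exp (-b1 * t)) :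
    PM b m r ≤ m.factorial / (r + b1) ^ (m + 1) +
      K * Real.exp (-(δ * m)) * (m.factorial / (q / (1 + δ)) ^ (m + 1)) +
      K * Real.exp (δ * m) * (m.factorial / (q / (1 - δ)) ^ (m + 1)) := by
  have h1δ : 0 < 1 - δ := by linarith
  have g1 := gamma_int1 m (r + b1) hb1
  have g2 := gamma_int1 m (q / (1 + δ)) (by positivity)
  have g3 := gamma_int1 m (q / (1 - δ)) (by positivity)
  have hF : PM b m r ≤ ∫ t in Ioi (1:ℝ), (t ^ m * Real.exp (-(r + b1) * t) +
      K * Real.exp (-(δ * m)) * (t ^ m * Real.exp (-(q / (1 + δ)) * t)) +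
      K * Real.exp (δ * m) * (t ^ m * Real.exp (-(q / (1 - δ)) * t))) := by
    unfold PM
    refine integral_mono_of_nonneg ?_ ((g1.1.add (g2.1.const_mul _)).add (g3.1.const_mul _)) ?_
    · refine (ae_restrict_iff' measurableSet_Ioi).2 (ae_of_all _ fun t ht => ?_)
      have ht1 : (1:ℝ) < t := ht
      simp only [Pi.zero_apply]
      positivity
    · refine (ae_restrict_iff' measurableSet_Ioi).2 (ae_of_all _ fun t ht => ?_)
      have ht1 : (1:ℝ) < t := ht
      have ht0 : 0 < t := by linarith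
      simp only
      have p1 : 0 ≤ t ^ m * Real.exp (-(r + b1) * t) := by positivity
      have p2 : 0 ≤ K * Real.exp (-(δ * m)) * (t ^ m * Real.exp (-(q / (1 + δ)) * t)) := by positivity
      have p3 : 0 ≤ K * Real.exp (δ * m) * (t ^ m * Real.exp (-(q / (1 - δ)) * t)) := by positivity
      have hE := Real.exp_pos (-r * t)
      have hbmax : max (b t) 0 ≤ K * Real.exp (-η * t) := by
        refine max_le ((le_abs_self _).trans (hK t ht1)) ?_
        positivity
      by_cases c1 : t ≤ (1 + δ) * m / q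
      · by_cases c2 : (1 - δ) * m / q ≤ t
        · have h := hwin t ht1 c2 c1
          have h2 : max (b t) 0 ≤ Real.exp (-b1 * t) := max_le h.le (Real.exp_pos _).le
          have h3 : max (b t) 0 * (t ^ m * Real.exp (-r * t)) ≤ t ^ m * Real.exp (-(r + b1) * t) := by
            calc max (b t) 0 * (t ^ m * Real.exp (-r * t)) ≤ Real.exp (-b1 * t) * (t ^ m * Real.exp (-r * t)) := by
                  gcongr
              _ = t ^ m * (Real.exp (-b1 * t) * Real.exp (-r * t)) := by ring
              _ = _ := by rw [← Real.exp_add]; congr 2; ring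
          linarith
        · push Not at c2
          have h3 : max (b t) 0 * (t ^ m * Real.exp (-r * t)) ≤
              K * Real.exp (δ * m) * (t ^ m * Real.exp (-(q / (1 - δ)) * t)) := by
            have h4 : Real.exp (-η * t) * Real.exp (-r * t) ≤ Real.exp (δ * m) * Real.exp (-(q / (1 - δ)) * t) := by
              rw [← Real.exp_add, ← Real.exp_add]
              refine Real.exp_le_exp.2 ?_
              rw [lt_div_iff₀ hq0] at c2
              have h5 : q / (1 - δ) * t = q * t + δ * (q * t / (1 - δ)) := by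
                field_simp
                ring
              have h6 : q * t / (1 - δ) ≤ m := by
                rw [div_le_iff₀ h1δ]
                linarith
              have h7 : δ * (q * t / (1 - δ)) ≤ δ * m := mul_le_mul_of_nonneg_left h6 hδ.le
              have h8 : -(q / (1 - δ)) * t = -(q / (1 - δ) * t) := by ring
              rw [h8, h5, hq] at *
              linarith
            calc max (b t) 0 * (t ^ m * Real.exp (-r * t)) ≤ (K * Real.exp (-η * t)) * (t ^ m * Real.exp (-r * t)) := by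
                  gcongr
              _ = K * t ^ m * (Real.exp (-η * t) * Real.exp (-r * t)) := by ring
              _ ≤ K * t ^ m * (Real.exp (δ * m) * Real.exp (-(q / (1 - δ)) * t)) := by gcongr
              _ = _ := by ring
          linarith
      · push Not at c1
        have h3 : max (b t) 0 * (t ^ m * Real.exp (-r * t)) ≤
            K * Real.exp (-(δ * m)) * (t ^ m * Real.exp (-(q / (1 + δ)) * t)) := by
          have h4 : Real.exp (-η * t) * Real.exp (-r * t) ≤ Real.exp (-(δ * m)) * Real.exp (-(q / (1 + δ)) * t) := by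
            rw [← Real.exp_add, ← Real.exp_add]
            refine Real.exp_le_exp.2 ?_
            rw [div_lt_iff₀ hq0] at c1
            have h5 : q / (1 + δ) * t = q * t - δ * (q * t / (1 + δ)) := by
              field_simp
              ring
            have h6 : (m : ℝ) ≤ q * t / (1 + δ) := by
              rw [le_div_iff₀ (by linarith)]
              linarith
            have h7 : δ * m ≤ δ * (q * t / (1 + δ)) := mul_le_mul_of_nonneg_left h6 hδ.le
            have h8 : -(q / (1 + δ)) * t = -(q / (1 + δ) * t) := by ring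
            rw [h8, h5, hq] at *
            linarith
          calc max (b t) 0 * (t ^ m * Real.exp (-r * t)) ≤ (K * Real.exp (-η * t)) * (t ^ m * Real.exp (-r * t)) := by
                gcongr
            _ = K * t ^ m * (Real.exp (-η * t) * Real.exp (-r * t)) := by ring
            _ ≤ K * t ^ m * (Real.exp (-(δ * m)) * Real.exp (-(q / (1 + δ)) * t)) := by gcongr
            _ = _ := by ring
        linarith
  refine hF.trans ?_
  have hA : IntegrableOn (fun t : ℝ => t ^ m * Real.exp (-(r + b1) * t) +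
      K * Real.exp (-(δ * m)) * (t ^ m * Real.exp (-(q / (1 + δ)) * t))) (Ioi 1) :=
    g1.1.add (g2.1.const_mul _)
  rw [integral_add hA (g3.1.const_mul _), integral_add g1.1 (g2.1.const_mul _),
    integral_const_mul, integral_const_mul]
  have p2 : 0 ≤ K * Real.exp (-(δ * m)) := by positivity
  have p3 : 0 ≤ K * Real.exp (δ * m) := by positivity
  have := g1.2
  have := mul_le_mul_of_nonneg_left g2.2 p2
  have := mul_le_mul_of_nonneg_left g3.2 p3
  linarith

/-- the window lemma for the moments -/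
theorem window_m {b : ℝ → ℝ} (hb : Measurable b) {K η r δ b1 d c : ℝ} (hK0 : 0 < K)
    (hK : ∀ t, 1 < t → |b t| ≤ K * Real.exp (-η * t)) (hr : 0 < r) (hδ : 0 < δ) (hδ1 : δ < 1)
    (hq0 : 0 < r + η) (hd : 0 < d) (hdb : d < r + b1) (hc : 0 < c)
    (hx2 : d * ((1 + δ) * Real.exp (-δ)) < r + η) (hx3 : d * ((1 - δ) * Real.exp δ) < r + η) :
    ∀ᶠ m : ℕ in atTop, c * m.factorial / ((m + 1) ^ 2 * d ^ m) ≤ PM b m r →
      ∃ t, 1 < t ∧ (1 - δ) * m / (r + η) ≤ t ∧ t ≤ (1 + δ) * m / (r + η) ∧ Real.exp (-b1 * t) ≤ b t := by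
  set q := r + η with hq
  have h1δ : 0 < 1 - δ := by linarith
  have hrb : 0 < r + b1 := hd.trans hdb
  set x1 := d / (r + b1) with hx1d
  set x2 := d * ((1 + δ) * Real.exp (-δ)) / q with hx2d
  set x3 := d * ((1 - δ) * Real.exp δ) / q with hx3d
  have e1 := Real.exp_pos (-δ)
  have e2 := Real.exp_pos δ
  have t1 := sq_geo (x := x1) (by positivity) (by rw [hx1d, div_lt_one hrb]; exact hdb) (1 / (r + b1))
  have t2 := sq_geo (x := x2) (by positivity) (by rw [hx2d, div_lt_one hq0]; exact hx2) (K * (1 + δ) / q)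
  have t3 := sq_geo (x := x3) (by positivity) (by rw [hx3d, div_lt_one hq0]; exact hx3) (K * (1 - δ) / q)
  filter_upwards [t1.eventually (gt_mem_nhds (show (0:ℝ) < c / 3 by positivity)),
    t2.eventually (gt_mem_nhds (show (0:ℝ) < c / 3 by positivity)),
    t3.eventually (gt_mem_nhds (show (0:ℝ) < c / 3 by positivity))] with m a1 a2 a3 hm
  by_contra hcon
  push Not at hcon
  have key := hm.trans (PM_le hb hK0.le hK hr hδ hδ1 hrb hq hq0 m fun t h1 h2 h3 => hcon t h1 h2 h3)
  have hfp : (0:ℝ) < m.factorial := by exact_mod_cast m.factorial_pos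
  have hm1 : (0:ℝ) < (m + 1) ^ 2 := by positivity
  have hdm : 0 < d ^ m := by positivity
  have b1' : (m.factorial : ℝ) / (r + b1) ^ (m + 1) =
      (((m : ℝ) + 1) ^ 2 * (1 / (r + b1) * x1 ^ m)) * (m.factorial / ((m + 1) ^ 2 * d ^ m)) := by
    rw [hx1d, div_pow]
    field_simp
    ring
  have b2' : K * Real.exp (-(δ * m)) * (m.factorial / (q / (1 + δ)) ^ (m + 1)) =
      (((m : ℝ) + 1) ^ 2 * (K * (1 + δ) / q * x2 ^ m)) * (m.factorial / ((m + 1) ^ 2 * d ^ m)) := by
    have : Real.exp (-(δ * m)) = Real.exp (-δ) ^ m := by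
      rw [← Real.exp_nat_mul]; congr 1; ring
    rw [this, hx2d, div_pow, div_pow, mul_pow, mul_pow]
    field_simp
    ring
  have b3' : K * Real.exp (δ * m) * (m.factorial / (q / (1 - δ)) ^ (m + 1)) =
      (((m : ℝ) + 1) ^ 2 * (K * (1 - δ) / q * x3 ^ m)) * (m.factorial / ((m + 1) ^ 2 * d ^ m)) := by
    have : Real.exp (δ * m) = Real.exp δ ^ m := by
      rw [← Real.exp_nat_mul]; congr 1; ring
    rw [this, hx3d, div_pow, div_pow, mul_pow, mul_pow]
    field_simp
    ring
  set X : ℝ := m.factorial / ((m + 1) ^ 2 * d ^ m) with hX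
  have hX0 : 0 < X := by positivity
  rw [b1', b2', b3', show c * m.factorial / ((m + 1) ^ 2 * d ^ m) = c * X by rw [hX]; ring] at key
  have c1 := mul_lt_mul_of_pos_right a1 hX0
  have c2 := mul_lt_mul_of_pos_right a2 hX0
  have c3 := mul_lt_mul_of_pos_right a3 hX0
  have : c / 3 * X + c / 3 * X + c / 3 * X = c * X := by ring
  linarith

/-- the window lemma -/
theorem window_v {b : ℝ → ℝ} (hb : Measurable b) {K η r δ b1 d c : ℝ} (hK0 : 0 < K)
    (hK : ∀ t, 1 < t → |b t| ≤ K * Real.exp (-η * t)) (hr : 0 < r) (hδ : 0 < δ) (hδ1 : δ < 1)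
    (hq0 : 0 < r + η) (hd : 0 < d) (hdb : d < r + b1) (hc : 0 < c)
    (hx2 : d * ((1 + δ) * Real.exp (-δ)) < r + η) (hx3 : d * ((1 - δ) * Real.exp δ) < r + η)
    (hm : ∀ᶠ n : ℕ in atTop, ∃ m : ℕ, (m = n + 1 ∨ m = n + 2) ∧
      c * m.factorial / ((m + 1) ^ 2 * d ^ m) ≤ PM b m r) (δ' : ℝ) (hδ' : δ < δ') :
    ∀ᶠ v : ℝ in atTop, ∃ t, 1 < t ∧ (1 - δ') * v ≤ t ∧ t ≤ (1 + δ') * v ∧ Real.exp (-b1 * t) ≤ b t := by
  set q := r + η with hq
  have hw := window_m hb hK0 hK hr hδ hδ1 hq0 hd hdb hc hx2 hx3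
  obtain ⟨N1, hN1⟩ := eventually_atTop.1 hw
  obtain ⟨N2, hN2⟩ := eventually_atTop.1 hm
  filter_upwards [eventually_ge_atTop ((N1 + N2 + 1) / q), eventually_ge_atTop (2 * (1 + δ) / (q * (δ' - δ))),
    eventually_gt_atTop 0] with v h1 h2 hv
  set n : ℕ := ⌊q * v⌋₊ with hn
  have hqv : 0 ≤ q * v := by positivity
  have hn1 : (n : ℝ) ≤ q * v := Nat.floor_le hqv
  have hn2 : q * v < n + 1 := Nat.lt_floor_add_one _
  have hNn : N1 + N2 ≤ n := by
    rw [div_le_iff₀ hq0] at h1
    have : ((N1 + N2 : ℕ) : ℝ) < n + 1 := by push_cast; linarith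
    have h5 : N1 + N2 < n + 1 := by exact_mod_cast this
    omega
  obtain ⟨m, hm1, hm2⟩ := hN2 n (by omega)
  obtain ⟨t, ht1, ht2, ht3, ht4⟩ := hN1 m (by rcases hm1 with h | h <;> omega) hm2
  have hm3 : q * v < m ∧ (m : ℝ) ≤ q * v + 2 := by
    rcases hm1 with h | h <;> rw [h] <;> push_cast <;> constructor <;> linarith
  refine ⟨t, ht1, ?_, ?_, ht4⟩
  · refine le_trans ?_ ht2
    rw [le_div_iff₀ hq0]
    have : (1 - δ') * v * q ≤ (1 - δ) * (q * v) := by nlinarith [mul_pos hq0 hv]
    have h5 : (1 - δ) * (q * v) ≤ (1 - δ) * m := mul_le_mul_of_nonneg_left hm3.1.le (by linarith)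
    linarith
  · refine ht3.trans ?_
    rw [div_le_iff₀ hq0]
    have h5 : (1 + δ) * m ≤ (1 + δ) * (q * v + 2) := mul_le_mul_of_nonneg_left hm3.2 (by linarith)
    rw [div_le_iff₀ (mul_pos hq0 (by linarith))] at h2
    have h6 : (1 + δ') * v * q = (1 + δ) * (q * v) + v * (q * (δ' - δ)) := by ring
    rw [h6]
    linarith

end

end Pool.Agent.R303.Rob
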