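import Pool.Agent.R303.Rob.Win2
import Pool.Agent.H353R2.Z1
import Pool.Agent.Helper923.PNTQ

/-! # The Laplace transform of the error term of the Chebyshev function -/

set_option autoImplicit false

open Complex MeasureTheory Filter Topology Set

namespace Pool.Agent.R303.Rob

noncomputable section

/-- normalised error term of the Chebyshev function `ψ` -/
def epsi (t : ℝ) : ℝ := Chebyshev.psi (Real.exp t) * Real.exp (-t) - 1

/-- normalised error term of the Chebyshev function `θ` -/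
def ethe (t : ℝ) : ℝ := Chebyshev.theta (Real.exp t) * Real.exp (-t) - 1

theorem epsi_meas : Measurable epsi := by
  unfold epsi
  have h1 : Measurable (fun t : ℝ => Chebyshev.psi (Real.exp t)) :=
    Chebyshev.psi_mono.measurable.comp Real.measurable_exp
  fun_prop

theorem ethe_meas : Measurable ethe := by
  unfold ethe
  have h1 : Measurable (fun t : ℝ => Chebyshev.theta (Real.exp t)) :=
    Chebyshev.theta_mono.measurable.comp Real.measurable_exp
  fun_prop

theorem epsi_bdd (t : ℝ) : |epsi t| ≤ Real.log 4 + 4 := by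
  have h1 := Chebyshev.psi_le_const_mul_self (Real.exp_pos t).le
  have h2 := Chebyshev.psi_nonneg (Real.exp t)
  have h3 : Real.exp t * Real.exp (-t) = 1 := by rw [← Real.exp_add]; simp
  have h4 := Real.exp_pos (-t)
  have h5 : 0 < Real.log 4 := Real.log_pos (by norm_num)
  unfold epsi
  have h6 : Chebyshev.psi (Real.exp t) * Real.exp (-t) ≤ Real.log 4 + 4 := by
    calc Chebyshev.psi (Real.exp t) * Real.exp (-t) ≤ ((Real.log 4 + 4) * Real.exp t) * Real.exp (-t) := by
          gcongr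
      _ = _ := by rw [mul_assoc, h3, mul_one]
  have h7 : 0 ≤ Chebyshev.psi (Real.exp t) * Real.exp (-t) := by positivity
  rw [abs_le]
  constructor <;> linarith

theorem epsi_decay : ∃ K : ℝ, 0 < K ∧ ∀ t, 1 ≤ t → |epsi t| ≤ K * t ^ (-(1 / 50 : ℝ)) := by
  obtain ⟨C, hC, h⟩ := Pool.Agent.Helper923.H403.PNTQ.psi_quant
  refine ⟨C, hC, fun t ht => ?_⟩
  have h1 := h (Real.exp t) (by have := Real.add_one_le_exp t; linarith)
  rw [Real.log_exp] at h1
  have h2 := Real.exp_pos t
  have h3 : epsi t = (Chebyshev.psi (Real.exp t) - Real.exp t) / Real.exp t := by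
    unfold epsi
    rw [Real.exp_neg]
    field_simp
  rw [h3, abs_div, abs_of_pos h2, div_le_iff₀ h2, Real.rpow_neg (by linarith)]
  refine h1.trans (le_of_eq ?_)
  ring

theorem epsi_adm : Adm epsi := by
  obtain ⟨K, hK, h⟩ := epsi_decay
  exact adm_of_decay epsi_meas hK (by norm_num : (0:ℝ) < 1 / 50) h

theorem ethe_decay : ∃ K : ℝ, 0 < K ∧ ∀ t, 1 ≤ t → |ethe t| ≤ K * t ^ (-(1 / 50 : ℝ)) := by
  obtain ⟨C, hC, h⟩ := Pool.Agent.Helper923.PNTQ.theta_quant
  refine ⟨C, hC, fun t ht => ?_⟩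
  have h1 := h (Real.exp t) (by have := Real.add_one_le_exp t; linarith)
  rw [Real.log_exp] at h1
  have h2 := Real.exp_pos t
  have h3 : ethe t = (Chebyshev.theta (Real.exp t) - Real.exp t) / Real.exp t := by
    unfold ethe
    rw [Real.exp_neg]
    field_simp
  rw [h3, abs_div, abs_of_pos h2, div_le_iff₀ h2, Real.rpow_neg (by linarith)]
  refine h1.trans (le_of_eq ?_)
  ring

theorem ethe_adm : Adm ethe := by
  obtain ⟨K, hK, h⟩ := ethe_decay
  exact adm_of_decay ethe_meas hK (by norm_num : (0:ℝ) < 1 / 50) h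

/-- the part of the Laplace transform over `(0, 1]` -/
def JJ (s : ℂ) : ℂ := ∫ t in Ioc (0:ℝ) 1, (epsi t : ℂ) * cexp (-s * t)

theorem JJ_integrand_norm (z : ℂ) {t : ℝ} (ht : t ∈ Ioc (0:ℝ) 1) : ‖cexp (-z * t)‖ ≤ Real.exp ‖z‖ := by
  rw [Complex.norm_exp]
  refine Real.exp_le_exp.2 ?_
  have h1 : (-z * (t:ℂ)).re ≤ ‖-z * (t:ℂ)‖ := Complex.re_le_norm _
  rw [norm_mul, norm_neg, Complex.norm_real, Real.norm_eq_abs, abs_of_pos ht.1] at h1
  have h2 : ‖z‖ * t ≤ ‖z‖ * 1 := mul_le_mul_of_nonneg_left ht.2 (norm_nonneg _)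
  linarith

theorem JJ_diff : Differentiable ℂ JJ := by
  intro s
  have hfin : IsFiniteMeasure (volume.restrict (Ioc (0:ℝ) 1)) :=
    ⟨by rw [Measure.restrict_apply_univ]; simp⟩
  have key := hasDerivAt_integral_of_dominated_loc_of_deriv_le (μ := volume.restrict (Ioc (0:ℝ) 1))
    (F := fun (z : ℂ) (t : ℝ) => (epsi t : ℂ) * cexp (-z * t))
    (F' := fun (z : ℂ) (t : ℝ) => (epsi t : ℂ) * (cexp (-z * t) * (-1 * t)))
    (x₀ := s) (s := Metric.ball s 1) (bound := fun _ => (Real.log 4 + 4) * Real.exp (‖s‖ + 1))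
    (Metric.ball_mem_nhds s one_pos) ?_ ?_ ?_ ?_ ?_ ?_
  · exact key.2.differentiableAt
  · filter_upwards with z
    refine Measurable.aestronglyMeasurable ?_
    have := epsi_meas
    fun_prop
  · refine (integrable_const ((Real.log 4 + 4) * Real.exp ‖s‖)).mono' ?_ ?_
    · refine Measurable.aestronglyMeasurable ?_
      have := epsi_meas
      fun_prop
    · refine (ae_restrict_iff' measurableSet_Ioc).2 (ae_of_all _ fun t ht => ?_)
      rw [norm_mul, Complex.norm_real, Real.norm_eq_abs]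
      have h5 : 0 < Real.log 4 := Real.log_pos (by norm_num)
      exact mul_le_mul (epsi_bdd t) (JJ_integrand_norm s ht) (norm_nonneg _) (by positivity)
  · refine Measurable.aestronglyMeasurable ?_
    have := epsi_meas
    fun_prop
  · refine (ae_restrict_iff' measurableSet_Ioc).2 (ae_of_all _ fun t ht z hz => ?_)
    have h5 : 0 < Real.log 4 := Real.log_pos (by norm_num)
    rw [norm_mul, Complex.norm_real, Real.norm_eq_abs]
    refine mul_le_mul (epsi_bdd t) ?_ (norm_nonneg _) (by positivity)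
    rw [norm_mul, norm_mul, norm_neg, norm_one, one_mul, Complex.norm_real, Real.norm_eq_abs, abs_of_pos ht.1]
    have h6 := JJ_integrand_norm z ht
    have h7 : ‖z‖ ≤ ‖s‖ + 1 := by
      rw [Metric.mem_ball, dist_eq_norm] at hz
      have : z = s + (z - s) := by ring
      rw [this]
      exact (norm_add_le _ _).trans (by linarith)
    calc ‖cexp (-z * t)‖ * t ≤ Real.exp ‖z‖ * 1 :=
          mul_le_mul h6 ht.2 ht.1.le (Real.exp_pos _).le
      _ ≤ Real.exp (‖s‖ + 1) := by rw [mul_one]; exact Real.exp_le_exp.2 h7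
  · exact integrable_const _
  · refine ae_of_all _ fun t z _ => ?_
    have h1 : HasDerivAt (fun z : ℂ => cexp (-z * t)) (cexp (-z * t) * (-1 * t)) z :=
      (((hasDerivAt_id z).neg).mul_const (t : ℂ)).cexp
    exact h1.const_mul (epsi t : ℂ)

/-- the Laplace transform of `ψ(e ^ t) e ^ {-t}` -/
theorem psi_laplace {s : ℂ} (hs : 0 < s.re) :
    (s + 1) * ∫ t in Ioi (0:ℝ), ((Chebyshev.psi (Real.exp t) * Real.exp (-t) : ℝ) : ℂ) * cexp (-s * t) =
      -deriv riemannZeta (s + 1) / riemannZeta (s + 1) := by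
  have hs1 : 1 < (s + 1).re := by simp; linarith
  have h1 := ArithmeticFunction.LSeries_vonMangoldt_eq_deriv_riemannZeta_div hs1
  have h2 := LSeries_eq_mul_integral_of_nonneg (fun n => ArithmeticFunction.vonMangoldt n) (r := 1)
    zero_le_one hs1 ?_ (fun _ => ArithmeticFunction.vonMangoldt_nonneg)
  · rw [← h1, h2]
    congr 1
    have h3 := integral_comp_exp_Ioi (fun t : ℝ => (∑ k ∈ Finset.Icc 1 ⌊t⌋₊, (ArithmeticFunction.vonMangoldt k : ℂ)) *
      (t : ℂ) ^ (-(s + 1 + 1))) 0
    rw [Real.exp_zero] at h3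
    rw [← h3]
    refine setIntegral_congr_fun measurableSet_Ioi fun x hx => ?_
    have h4 : (∑ k ∈ Finset.Icc 1 ⌊Real.exp x⌋₊, (ArithmeticFunction.vonMangoldt k : ℂ)) =
        (Chebyshev.psi (Real.exp x) : ℂ) := by
      unfold Chebyshev.psi
      push_cast
      rfl
    rw [h4]
    have h5 : ((Real.exp x : ℝ) : ℂ) ^ (-(s + 1 + 1)) = cexp (-(s + 1 + 1) * x) := by
      rw [Complex.cpow_def_of_ne_zero (by exact_mod_cast (Real.exp_pos x).ne'),
        ← Complex.ofReal_log (Real.exp_pos x).le, Real.log_exp]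
      congr 1
      ring
    rw [h5, Complex.real_smul, Complex.ofReal_exp, Complex.ofReal_mul, Complex.ofReal_exp]
    have h6 : cexp (-(s + 1 + 1) * x) = cexp (-(x:ℂ)) * cexp (-(x : ℂ)) * cexp (-s * x) := by
      rw [← Complex.exp_add, ← Complex.exp_add]
      congr 1
      ring
    have h7 : cexp (x:ℂ) * cexp (-(x:ℂ)) = 1 := by rw [← Complex.exp_add]; simp
    rw [h6]
    push_cast
    calc _ = (Chebyshev.psi (Real.exp x) : ℂ) * cexp (-(x:ℂ)) * cexp (-s * x) * (cexp (x:ℂ) * cexp (-(x:ℂ))) := by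
          rw [h7]; ring
      _ = _ := by ring
  · have h3 : ∀ n : ℕ, ∑ k ∈ Finset.Icc 1 n, ArithmeticFunction.vonMangoldt k = Chebyshev.psi n := by
      intro n
      unfold Chebyshev.psi
      rw [Nat.floor_natCast]
      rfl
    simp_rw [h3]
    refine Asymptotics.IsBigO.of_bound (Real.log 4 + 4) ?_
    filter_upwards with n
    rw [Real.norm_eq_abs, Real.norm_eq_abs, abs_of_nonneg (Chebyshev.psi_nonneg _), Real.rpow_one,
      abs_of_nonneg (Nat.cast_nonneg n)]
    exact Chebyshev.psi_le_const_mul_self (Nat.cast_nonneg n)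

end

end Pool.Agent.R303.Rob
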