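import Pool.Agent.R303.Rob.Zet

/-! # Analytic continuation of the Laplace transform, centres -/

set_option autoImplicit false

open Complex MeasureTheory Filter Topology Set

namespace Pool.Agent.R303.Rob

noncomputable section

open H353 (FF)

theorem psi_exp_int {s : ℂ} (hs : 0 < s.re) :
    IntegrableOn (fun t : ℝ => ((Chebyshev.psi (Real.exp t) * Real.exp (-t) : ℝ) : ℂ) * cexp (-s * t)) (Ioi 0) := by
  have h5 : 0 < Real.log 4 := Real.log_pos (by norm_num)
  refine ((gamma_int 0 s.re hs).1.const_mul (Real.log 4 + 4)).mono' ?_ ?_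
  · refine Measurable.aestronglyMeasurable ?_
    have : Measurable (fun t : ℝ => Chebyshev.psi (Real.exp t)) :=
      Chebyshev.psi_mono.measurable.comp Real.measurable_exp
    fun_prop
  · refine (ae_restrict_iff' measurableSet_Ioi).2 (ae_of_all _ fun t ht => ?_)
    rw [norm_mul, Complex.norm_real, Real.norm_eq_abs, Complex.norm_exp, pow_zero, one_mul]
    have h1 : (-s * (t:ℂ)).re = -s.re * t := by simp
    rw [h1]
    have h2 := Chebyshev.psi_nonneg (Real.exp t)
    have h3 : 0 ≤ Chebyshev.psi (Real.exp t) * Real.exp (-t) := by positivity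
    rw [abs_of_nonneg h3]
    have h6 : Chebyshev.psi (Real.exp t) * Real.exp (-t) ≤ Real.log 4 + 4 := by
      calc Chebyshev.psi (Real.exp t) * Real.exp (-t) ≤ ((Real.log 4 + 4) * Real.exp t) * Real.exp (-t) := by
            have := Chebyshev.psi_le_const_mul_self (Real.exp_pos t).le
            gcongr
        _ = _ := by rw [mul_assoc, ← Real.exp_add]; simp
    gcongr

/-- the Laplace transform of the error term -/
theorem epsi_LT {s : ℂ} (hs : 0 < s.re) :
    LT epsi 0 s = -(deriv FF (s + 1) / FF (s + 1) + 1) / (s + 1) - JJ s := by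
  have hs0 : s ≠ 0 := by rintro rfl; simp at hs
  have hs1 : s + 1 ≠ 0 := by
    intro h
    have := congrArg Complex.re h
    simp at this
    linarith
  have hz1 : s + 1 ≠ 1 := by simpa using hs0
  have hζ : riemannZeta (s + 1) ≠ 0 := riemannZeta_ne_zero_of_one_le_re (by simp; linarith)
  have h1 := psi_laplace hs
  have hI1 := psi_exp_int hs
  have hneg : (-s).re < 0 := by simpa using hs
  have hI2 : IntegrableOn (fun t : ℝ => cexp (-s * t)) (Ioi 0) := integrableOn_exp_mul_complex_Ioi hneg 0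
  have h2 : ∫ t in Ioi (0:ℝ), cexp (-s * t) = 1 / s := by
    rw [integral_exp_mul_complex_Ioi hneg]
    simp
  have e1 : ∀ t : ℝ, (epsi t : ℂ) * cexp (-s * t) =
      ((Chebyshev.psi (Real.exp t) * Real.exp (-t) : ℝ) : ℂ) * cexp (-s * t) - cexp (-s * t) := by
    intro t
    unfold epsi
    push_cast
    ring
  have hI3 : IntegrableOn (fun t : ℝ => (epsi t : ℂ) * cexp (-s * t)) (Ioi 0) := by
    simp_rw [e1]
    exact hI1.sub hI2
  have h3 : ∫ t in Ioi (0:ℝ), (epsi t : ℂ) * cexp (-s * t) =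
      (∫ t in Ioi (0:ℝ), ((Chebyshev.psi (Real.exp t) * Real.exp (-t) : ℝ) : ℂ) * cexp (-s * t)) - 1 / s := by
    rw [← h2, ← integral_sub hI1 hI2]
    simp_rw [e1]
  have hsplit : Ioc (0:ℝ) 1 ∪ Ioi 1 = Ioi 0 := Ioc_union_Ioi_eq_Ioi zero_le_one
  have hdisj : Disjoint (Ioc (0:ℝ) 1) (Ioi 1) := by
    rw [Set.disjoint_left]
    intro x hx hx'
    exact absurd hx.2 (not_le.2 hx')
  have h4 : ∫ t in Ioi (0:ℝ), (epsi t : ℂ) * cexp (-s * t) = JJ s + LT epsi 0 s := by
    rw [← hsplit, setIntegral_union hdisj measurableSet_Ioi (hI3.mono_set (by rw [← hsplit]; exact subset_union_left))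
      (hI3.mono_set (by rw [← hsplit]; exact subset_union_right))]
    unfold JJ LT
    simp
  have h5 : deriv FF (s + 1) = riemannZeta (s + 1) + s * deriv riemannZeta (s + 1) := by
    have e2 : FF =ᶠ[𝓝 (s + 1)] fun v => (v - 1) * riemannZeta v := by
      filter_upwards [isOpen_ne.mem_nhds hz1] with w hw
      exact ZU.J_g2b.FF_ne hw
    rw [e2.deriv_eq]
    have hd1 : HasDerivAt (fun v : ℂ => v - 1) 1 (s + 1) := (hasDerivAt_id _).sub_const 1
    have hd2 := (differentiableAt_riemannZeta hz1).hasDerivAt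
    have := (hd1.mul hd2).deriv
    refine Eq.trans this ?_
    ring
  have h6 : FF (s + 1) = s * riemannZeta (s + 1) := by
    rw [show FF (s + 1) = (s + 1 - 1) * riemannZeta (s + 1) from ZU.J_g2b.FF_ne hz1]
    ring
  rw [h5, h6]
  have h7 : LT epsi 0 s = (∫ t in Ioi (0:ℝ), (epsi t : ℂ) * cexp (-s * t)) - JJ s := by
    rw [h4]; ring
  rw [h7, h3]
  have h8 : (∫ t in Ioi (0:ℝ), ((Chebyshev.psi (Real.exp t) * Real.exp (-t) : ℝ) : ℂ) * cexp (-s * t)) =
      (-deriv riemannZeta (s + 1) / riemannZeta (s + 1)) / (s + 1) := by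
    rw [← h1]
    field_simp
  rw [h8]
  field_simp
  ring

/-- moments of the error term at a centre, no zeros in the disc -/
theorem real_zero_free {s : ℂ} (hs : 0 < s.re) {R : ℝ} (hR : 0 < R)
    (hz : ∀ z ∈ Metric.closedBall s R, z ≠ -1 ∧ FF (z + 1) ≠ 0) :
    ∃ M : ℝ, 0 < M ∧ ∀ n : ℕ, ‖LT epsi n s‖ ≤ M * n.factorial / R ^ n := by
  refine LT_bound epsi_meas (fun t _ => epsi_bdd t)
    (fun s => -(deriv FF (s + 1) / FF (s + 1) + 1) / (s + 1) - JJ s) s hs hR (fun z hzb => ?_) ?_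
  · obtain ⟨h1, h2⟩ := hz z hzb
    have h3 : z + 1 ≠ 0 := fun h => h1 (eq_neg_of_add_eq_zero_left h)
    have hF : Differentiable ℂ FF := ZU.J_g2b.FF_diff
    have hF' : Differentiable ℂ (deriv FF) := fun w => (hF.analyticAt w).deriv.differentiableAt
    have hJ := JJ_diff z
    have d1 : DifferentiableAt ℂ (fun s : ℂ => s + 1) z := differentiableAt_id.add_const 1
    have d2 : DifferentiableAt ℂ (fun s : ℂ => FF (s + 1)) z := (hF (z + 1)).comp z d1
    have d3 : DifferentiableAt ℂ (fun s : ℂ => deriv FF (s + 1)) z := DifferentiableAt.comp (g := deriv FF) z (hF' (z + 1)) d1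
    exact ((((d3.div d2 h2).add_const 1).neg).div d1 h3).sub hJ
  · have : {z : ℂ | 0 < z.re} ∈ 𝓝 s := (isOpen_lt continuous_const Complex.continuous_re).mem_nhds hs
    filter_upwards [this] with z hz
    exact epsi_LT hz

/-- moments of the error term at a centre, one zero in the disc -/
theorem one_zero {s ρ : ℂ} (hs : 0 < s.re) {R : ℝ} (hR : 0 < R) (hρ : FF ρ = 0) (hρ0 : ρ ≠ 0)
    (hz : ∀ z ∈ Metric.closedBall s R, z ≠ -1 ∧ (z ≠ ρ - 1 → FF (z + 1) ≠ 0)) :
    ∃ (a : ℂ) (M : ℝ), a ≠ 0 ∧ 0 < M ∧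
      ∀ n : ℕ, ‖LT epsi n s - a * n.factorial / (s - (ρ - 1)) ^ (n + 1)‖ ≤ M * n.factorial / R ^ n := by
  have hF : Differentiable ℂ FF := ZU.J_g2b.FF_diff
  obtain ⟨m, G, hG, hGρ, hFG⟩ := ZU.J_g2b.zf_one FF hF ⟨1, by rw [show FF 1 = 1 from ZU.J_g2b.FF_one]; exact one_ne_zero⟩ ρ
  have hm : m ≠ 0 := by
    rintro rfl
    rw [hFG ρ] at hρ
    simp at hρ
    exact hGρ hρ
  have hmc : (m : ℂ) ≠ 0 := by exact_mod_cast hm
  have hre1 : ρ.re < 1 := ZU.J_g2b.FF_zero_re hρ
  have hG0 : ∀ z ∈ Metric.closedBall s R, G (z + 1) ≠ 0 := by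
    intro z hzb h0
    by_cases h : z = ρ - 1
    · rw [h] at h0
      apply hGρ
      simpa using h0
    · apply (hz z hzb).2 h
      rw [hFG, h0, mul_zero]
  have key := LT_pole epsi_meas (fun t _ => epsi_bdd t)
    (fun s => m / (ρ * (s + 1)) - (deriv G (s + 1) / G (s + 1) + 1) / (s + 1) - JJ s) (-m / ρ) (ρ - 1) s hs
    (by simp; linarith) hR (fun z hzb => ?_) ?_
  · obtain ⟨M, hM, h⟩ := key
    exact ⟨-m / ρ, M, div_ne_zero (neg_ne_zero.2 hmc) hρ0, hM, h⟩
  · obtain ⟨h1, _⟩ := hz z hzb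
    have h2 := hG0 z hzb
    have h3 : z + 1 ≠ 0 := fun h => h1 (eq_neg_of_add_eq_zero_left h)
    have hG' : Differentiable ℂ (deriv G) := fun w => (hG.analyticAt w).deriv.differentiableAt
    have hJ := JJ_diff z
    have d1 : DifferentiableAt ℂ (fun s : ℂ => s + 1) z := differentiableAt_id.add_const 1
    have d2 : DifferentiableAt ℂ (fun s : ℂ => G (s + 1)) z := (hG (z + 1)).comp z d1
    have d3 : DifferentiableAt ℂ (fun s : ℂ => deriv G (s + 1)) z := DifferentiableAt.comp (g := deriv G) z (hG' (z + 1)) d1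
    have d4 : DifferentiableAt ℂ (fun s : ℂ => (m : ℂ) / (ρ * (s + 1))) z :=
      (differentiableAt_const _).div (d1.const_mul ρ) (mul_ne_zero hρ0 h3)
    exact (d4.sub (((d3.div d2 h2).add_const 1).div d1 h3)).sub hJ
  · have : {z : ℂ | 0 < z.re} ∈ 𝓝 s := (isOpen_lt continuous_const Complex.continuous_re).mem_nhds hs
    filter_upwards [this] with z hz
    have hz' : 0 < z.re := hz
    have h3 : z + 1 ≠ 0 := by
      intro h
      have := congrArg Complex.re h
      simp at this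
      linarith
    have h4 : z - (ρ - 1) ≠ 0 := by
      intro h
      have := congrArg Complex.re h
      simp at this
      linarith
    have h4' : z + 1 - ρ ≠ 0 := by
      intro h
      apply h4
      rw [← h]
      ring
    have h5 : FF (z + 1) ≠ 0 := by
      intro h
      have := ZU.J_g2b.FF_zero_re h
      simp at this
      linarith
    have h6 : G (z + 1) ≠ 0 := by
      intro h
      apply h5
      rw [hFG, h, mul_zero]
    have h7 : deriv FF (z + 1) = m * (z + 1 - ρ) ^ (m - 1) * G (z + 1) + (z + 1 - ρ) ^ m * deriv G (z + 1) := by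
      have e1 : FF = fun v => (v - ρ) ^ m * G v := funext hFG
      rw [e1]
      have hd1 : HasDerivAt (fun v : ℂ => (v - ρ) ^ m) (m * (z + 1 - ρ) ^ (m - 1)) (z + 1) := by
        have := ((hasDerivAt_id (z + 1)).sub_const ρ).fun_pow m
        simpa using this
      have hd2 := (hG (z + 1)).hasDerivAt
      exact (hd1.fun_mul hd2).deriv
    rw [epsi_LT hz', h7, hFG (z + 1)]
    have h8 : (z + 1 - ρ) ^ m = (z + 1 - ρ) ^ (m - 1) * (z + 1 - ρ) := by
      rw [← pow_succ]
      congr 1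
      omega
    have h9 : (z + 1 - ρ) ^ (m - 1) ≠ 0 := pow_ne_zero _ h4'
    rw [h8]
    have h10 : z - (ρ - 1) = z + 1 - ρ := by ring
    rw [h10]
    field_simp
    ring

end

end Pool.Agent.R303.Rob
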