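import Pool.Agent.R303.Rob.Zet2

/-! # Choice of the centres -/

set_option autoImplicit false

open Complex MeasureTheory Filter Topology Set

namespace Pool.Agent.R303.Rob

noncomputable section

open H353 (FF)

/-- the zeros with positive real part stay away from the real axis -/
theorem gamma_min : ∃ g : ℝ, 0 < g ∧ ∀ ρ : ℂ, FF ρ = 0 → 0 < ρ.re → g ≤ |ρ.im| := by
  have hK : IsCompact (Icc (0:ℝ) 1 ×ℂ Icc (-1:ℝ) 1) := isCompact_Icc.reProdIm isCompact_Icc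
  have hfin := H353.zeros_finite _ hK
  have hev : ∀ᶠ g in 𝓝[>] (0:ℝ), ∀ ρ ∈ {ρ : ℂ | FF ρ = 0 ∧ ρ ∈ Icc (0:ℝ) 1 ×ℂ Icc (-1:ℝ) 1},
      0 < ρ.re → g < |ρ.im| := by
    rw [eventually_all_finite hfin]
    intro ρ hρ
    by_cases h : 0 < ρ.re
    · have h1 : 0 < |ρ.im| := abs_pos.2 (H353.FF_im_ne ρ hρ.1 h)
      filter_upwards [nhdsWithin_le_nhds (gt_mem_nhds h1)] with g hg _ using hg
    · filter_upwards with g hg using absurd hg h
  have hev1 : ∀ᶠ g in 𝓝[>] (0:ℝ), g < 1 := nhdsWithin_le_nhds (gt_mem_nhds zero_lt_one)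
  have hev0 : ∀ᶠ g in 𝓝[>] (0:ℝ), 0 < g := self_mem_nhdsWithin
  obtain ⟨g, hg, hg1, hg0⟩ := (hev.and (hev1.and hev0)).exists
  refine ⟨g, hg0, fun ρ hρ hre => ?_⟩
  by_cases h : |ρ.im| ≤ 1
  · have h2 : ρ.re < 1 := ZU.J_g2b.FF_zero_re hρ
    refine (hg ρ ⟨hρ, ?_⟩ hre).le
    rw [Complex.mem_reProdIm]
    exact ⟨⟨hre.le, h2.le⟩, abs_le.1 h⟩
  · push Not at h
    have : g < 1 := hg1
    linarith

theorem plane_lemma {a b c d : ℝ} (h1 : a ^ 2 + b ^ 2 ≤ c ^ 2 + d ^ 2)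
    (h2 : (16 / 9) * (c ^ 2 + d ^ 2) ≤ (a + c / 3) ^ 2 + (b + d / 3) ^ 2) : a = c ∧ b = d := by
  have h3 : (a - c) ^ 2 + (b - d) ^ 2 ≤ 0 := by nlinarith
  have h4 := sq_nonneg (a - c)
  have h5 := sq_nonneg (b - d)
  have h6 : (a - c) ^ 2 = 0 := by linarith
  have h7 : (b - d) ^ 2 = 0 := by linarith
  constructor
  · have := pow_eq_zero_iff (two_ne_zero) |>.1 h6
    linarith
  · have := pow_eq_zero_iff (two_ne_zero) |>.1 h7
    linarith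

theorem norm_sq_eq (z : ℂ) : ‖z‖ ^ 2 = z.re ^ 2 + z.im ^ 2 := by
  rw [← Complex.normSq_eq_norm_sq, Complex.normSq_apply]
  ring

/-- choice of the centre -/
theorem centre {ρ0 : ℂ} (h0 : FF ρ0 = 0) (hβ : 1 / 2 < ρ0.re) {Θ g : ℝ} (hg : 0 < g)
    (hgz : ∀ ρ : ℂ, FF ρ = 0 → 0 < ρ.re → g ≤ |ρ.im|) (hΘ : ∀ ρ : ℂ, FF ρ = 0 → ρ.re ≤ Θ)
    (hΘ1 : Θ ≤ 1) (hclose : 4 * (Θ - ρ0.re) < g ^ 2) :
    ∃ (s ρ1 : ℂ) (R : ℝ), FF ρ1 = 0 ∧ ρ1 ≠ 0 ∧ 1 / 2 ≤ s.re ∧ s.re ≤ 1 ∧ ‖s - (ρ1 - 1)‖ < R ∧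
      0 < ‖s - (ρ1 - 1)‖ ∧ ‖s - (ρ1 - 1)‖ ≤ s.re + 1 - ρ0.re ∧ s.re < R ∧
      (∀ z ∈ Metric.closedBall s R, z ≠ -1 ∧ (z ≠ ρ1 - 1 → FF (z + 1) ≠ 0)) ∧
      (∀ z ∈ Metric.closedBall (s.re : ℂ) R, z ≠ -1 ∧ FF (z + 1) ≠ 0) := by
  have hβ1 : ρ0.re < 1 := ZU.J_g2b.FF_zero_re h0
  set s1 : ℂ := ⟨1, ρ0.im⟩ with hs1
  set Z : Set ℂ := {ρ : ℂ | FF ρ = 0 ∧ ρ ∈ Metric.closedBall (s1 + 1) (2 - ρ0.re)} with hZ
  have hZfin : Z.Finite := H353.zeros_finite _ (isCompact_closedBall _ _)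
  have hd0 : ‖s1 + 1 - ρ0‖ = 2 - ρ0.re := by
    have : s1 + 1 - ρ0 = ((2 - ρ0.re : ℝ) : ℂ) := by
      apply Complex.ext
      · simp [hs1]; ring
      · simp [hs1]
    rw [this, Complex.norm_real, Real.norm_eq_abs, abs_of_pos (by linarith)]
  have hZ0 : ρ0 ∈ Z := by
    refine ⟨h0, ?_⟩
    rw [Metric.mem_closedBall, dist_comm, dist_eq_norm, hd0]
  obtain ⟨ρ1, hρ1Z, hρ1min⟩ := hZfin.exists_minimalFor (fun ρ => ‖s1 + 1 - ρ‖) Z ⟨ρ0, hZ0⟩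
  have hmin : ∀ ρ : ℂ, FF ρ = 0 → ‖s1 + 1 - ρ1‖ ≤ ‖s1 + 1 - ρ‖ := by
    intro ρ hρ
    by_contra hcon
    push Not at hcon
    have h1 : ‖s1 + 1 - ρ1‖ ≤ 2 - ρ0.re := by
      have := hρ1Z.2
      rwa [Metric.mem_closedBall, dist_comm, dist_eq_norm] at this
    have h2 : ρ ∈ Z := by
      refine ⟨hρ, ?_⟩
      rw [Metric.mem_closedBall, dist_comm, dist_eq_norm]
      linarith
    have h3 := hρ1min h2 hcon.le
    linarith
  set D : ℝ := ‖s1 + 1 - ρ1‖ with hD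
  have hDle : D ≤ 2 - ρ0.re := by
    have := hρ1Z.2
    rwa [Metric.mem_closedBall, dist_comm, dist_eq_norm] at this
  have hρ1F : FF ρ1 = 0 := hρ1Z.1
  have hρ1re : ρ1.re < 1 := ZU.J_g2b.FF_zero_re hρ1F
  have hDre : 2 - ρ1.re ≤ D := by
    have h1 := Complex.re_le_norm (s1 + 1 - ρ1)
    simp [hs1] at h1
    rw [hD, hs1]
    linarith
  have hD0 : 0 < D := by linarith
  -- the centre
  set s : ℂ := s1 + (1 / 4 : ℝ) * (ρ1 - 1 - s1) with hs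
  have hsre : s.re = 1 - (2 - ρ1.re) / 4 := by
    simp [hs, hs1]; ring
  have hw : s - (ρ1 - 1) = ((3 / 4 : ℝ) : ℂ) * (s1 + 1 - ρ1) := by
    rw [hs]; push_cast; ring
  have hd : ‖s - (ρ1 - 1)‖ = 3 / 4 * D := by
    rw [hw, norm_mul, Complex.norm_real, Real.norm_eq_abs, abs_of_pos (by norm_num)]
  have hr1 : 1 / 2 ≤ s.re := by rw [hsre]; linarith
  have hr2 : s.re ≤ 1 := by rw [hsre]; linarith
  have hdle : 3 / 4 * D ≤ s.re + 1 - ρ0.re := by rw [hsre]; linarith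
  have hrd : s.re < 3 / 4 * D := by rw [hsre]; linarith
  -- strictness
  have hstrict : ∀ ρ : ℂ, FF ρ = 0 → ρ ≠ ρ1 → 3 / 4 * D < ‖s + 1 - ρ‖ := by
    intro ρ hρ hne
    by_contra hcon
    push Not at hcon
    apply hne
    have h1 := hmin ρ hρ
    have h1' : D ^ 2 ≤ ‖s1 + 1 - ρ‖ ^ 2 := pow_le_pow_left₀ hD0.le h1 2
    have h2' : ‖s + 1 - ρ‖ ^ 2 ≤ (3 / 4 * D) ^ 2 := pow_le_pow_left₀ (norm_nonneg _) hcon 2
    rw [hD, norm_sq_eq, norm_sq_eq] at h1'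
    rw [norm_sq_eq, mul_pow, hD, norm_sq_eq] at h2'
    have e1 : s = ⟨1 - (2 - ρ1.re) / 4, ρ0.im + (ρ1.im - ρ0.im) / 4⟩ := by
      apply Complex.ext
      · rw [hsre]
      · simp [hs, hs1]; ring
    rw [e1] at h2'
    simp only [hs1, Complex.sub_re, Complex.add_re, Complex.one_re, Complex.sub_im, Complex.add_im,
      Complex.one_im] at h1' h2'
    have key := plane_lemma (a := ρ.re - (2 - (2 - ρ1.re) / 4)) (b := ρ.im - (ρ0.im + (ρ1.im - ρ0.im) / 4))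
      (c := 3 / 4 * (ρ1.re - 2)) (d := 3 / 4 * (ρ1.im - ρ0.im)) (by nlinarith) (by nlinarith)
    apply Complex.ext
    · linarith [key.1]
    · linarith [key.2]
  -- the radius
  have hK2 : IsCompact (Metric.closedBall (s + 1) (3 / 4 * D + 1)) := isCompact_closedBall _ _
  have hfin2 := H353.zeros_finite _ hK2
  have hev : ∀ᶠ R in 𝓝[>] (3 / 4 * D), ∀ ρ ∈ {ρ : ℂ | FF ρ = 0 ∧ ρ ∈ Metric.closedBall (s + 1) (3 / 4 * D + 1)},
      ρ ≠ ρ1 → R < ‖s + 1 - ρ‖ := by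
    rw [eventually_all_finite hfin2]
    intro ρ hρ
    by_cases h : ρ = ρ1
    · filter_upwards with R hR using absurd h hR
    · filter_upwards [nhdsWithin_le_nhds (gt_mem_nhds (hstrict ρ hρ.1 h))] with R hR _ using hR
  have hsq : (3 / 4 * D) ^ 2 < (s.re + 1 - Θ) ^ 2 + g ^ 2 := by
    have h1 : (3 / 4 * D) ^ 2 ≤ (s.re + 1 - ρ0.re) ^ 2 := pow_le_pow_left₀ (by linarith) hdle 2
    have h2 : ρ0.re ≤ Θ := hΘ ρ0 h0
    have h3 : (s.re + 1 - ρ0.re) ^ 2 - (s.re + 1 - Θ) ^ 2 = (Θ - ρ0.re) * (2 * s.re + 2 - ρ0.re - Θ) := by ring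
    have h4 : (Θ - ρ0.re) * (2 * s.re + 2 - ρ0.re - Θ) ≤ (Θ - ρ0.re) * 4 :=
      mul_le_mul_of_nonneg_left (by linarith) (by linarith)
    linarith
  have hev2 : ∀ᶠ R in 𝓝[>] (3 / 4 * D), R ^ 2 < (s.re + 1 - Θ) ^ 2 + g ^ 2 :=
    nhdsWithin_le_nhds (((continuous_pow 2).tendsto (3 / 4 * D)).eventually (gt_mem_nhds hsq))
  have hev3 : ∀ᶠ R in 𝓝[>] (3 / 4 * D), R < s.re + 1 :=
    nhdsWithin_le_nhds (gt_mem_nhds (by linarith))
  have hev4 : ∀ᶠ R in 𝓝[>] (3 / 4 * D), R < 3 / 4 * D + 1 :=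
    nhdsWithin_le_nhds (gt_mem_nhds (by linarith))
  have hev5 : ∀ᶠ R in 𝓝[>] (3 / 4 * D), 3 / 4 * D < R := self_mem_nhdsWithin
  obtain ⟨R, hR1, hR2, hR3, hR4, hR5'⟩ :=
    (hev.and (hev2.and (hev3.and (hev4.and hev5)))).exists
  refine ⟨s, ρ1, R, hρ1F, ?_, hr1, hr2, by rw [hd]; exact hR5', by rw [hd]; linarith, by rw [hd]; exact hdle,
    by linarith, ?_, ?_⟩
  · rintro rfl
    simp at hDre
    linarith
  · intro z hz
    rw [Metric.mem_closedBall, dist_comm, dist_eq_norm] at hz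
    constructor
    · rintro rfl
      have := (Complex.re_le_norm (s - -1)).trans hz
      simp at this
      linarith
    · intro hne hF
      have h1 : z + 1 ≠ ρ1 := fun h => hne (by rw [← h]; ring)
      have e2 : s + 1 - (z + 1) = s - z := by ring
      have h2 := hR1 (z + 1) ⟨hF, by
        rw [Metric.mem_closedBall, dist_comm, dist_eq_norm, e2]; linarith⟩ h1
      rw [e2] at h2
      linarith
  · intro z hz
    rw [Metric.mem_closedBall, dist_comm, dist_eq_norm] at hz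
    constructor
    · rintro rfl
      have := (Complex.re_le_norm ((s.re : ℂ) - -1)).trans hz
      simp at this
      linarith
    · intro hF
      have h1 : 0 < (z + 1).re := by
        have := (Complex.re_le_norm ((s.re : ℂ) - z)).trans hz
        simp at this
        simp
        linarith
      have h2 := hgz (z + 1) hF h1
      have h3 := hΘ (z + 1) hF
      have h4 : ‖(s.re : ℂ) - z‖ ^ 2 ≤ R ^ 2 := pow_le_pow_left₀ (norm_nonneg _) hz 2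
      rw [norm_sq_eq] at h4
      simp only [Complex.sub_re, Complex.ofReal_re, Complex.sub_im, Complex.ofReal_im, Complex.add_re,
        Complex.one_re, Complex.add_im, Complex.one_im, zero_sub, add_zero, neg_sq] at h2 h3 h4
      have h5 : g ^ 2 ≤ z.im ^ 2 := by
        rw [← sq_abs z.im]
        exact pow_le_pow_left₀ hg.le h2 2
      have h6 : (s.re + 1 - Θ) ^ 2 ≤ (s.re - z.re) ^ 2 := by
        refine pow_le_pow_left₀ (by linarith) (by linarith) 2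
      linarith

end

end Pool.Agent.R303.Rob
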