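import Pool.Agent.R303.Rob.Zet3
import Pool.Agent.W190.A17

/-! # Large positive values of the tail integral in windows -/

set_option autoImplicit false

open Complex MeasureTheory Filter Topology Set

namespace Pool.Agent.R303.Rob

noncomputable section

open H353 (FF)

theorem exp_int (η : ℝ) (hη : 0 < η) (v : ℝ) :
    IntegrableOn (fun t : ℝ => Real.exp (-η * t)) (Ioi v) ∧
    ∫ t in Ioi v, Real.exp (-η * t) = Real.exp (-η * v) / η := by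
  refine ⟨exp_neg_integrableOn_Ioi v hη, ?_⟩
  rw [integral_exp_mul_Ioi (by linarith)]
  field_simp

theorem bb_decay {e : ℝ → ℝ} (he : Adm e) {η C : ℝ} (hη : 0 < η) (hC : 0 < C)
    (h : ∀ t, 1 < t → |e t| ≤ C * Real.exp (-η * t)) :
    ∀ v, 1 ≤ v → |bb e v| ≤ 2 * C / η * Real.exp (-η * v) := by
  intro v hv
  obtain ⟨h1, h2⟩ := exp_int η hη v
  unfold bb
  rw [abs_neg]
  have h3 : |∫ t in Ioi v, ew e t| ≤ ∫ t in Ioi v, 2 * C * Real.exp (-η * t) := by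
    rw [← Real.norm_eq_abs]
    refine norm_integral_le_of_norm_le (h1.const_mul (2 * C)) ?_
    refine (ae_restrict_iff' measurableSet_Ioi).2 (ae_of_all _ fun t ht => ?_)
    have ht1 : v < t := ht
    have ht2 : 1 < t := lt_of_le_of_lt hv ht1
    unfold ew
    rw [indicator_of_mem (show t ∈ Ioi (1:ℝ) from ht2), Real.norm_eq_abs, abs_mul, abs_of_pos (wt_pos ht2.le)]
    have := h t ht2
    have := wt_le2 ht2.le
    have := (wt_pos ht2.le).le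
    calc |e t| * wt t ≤ (C * Real.exp (-η * t)) * 2 := by gcongr
      _ = _ := by ring
  refine h3.trans (le_of_eq ?_)
  rw [integral_const_mul, h2]
  ring

/-- power saving in the prime number theorem from a zero-free half-plane -/
theorem psi_free {Θ : ℝ} (h0 : 1 / 2 ≤ Θ) (hΘ : ∀ ρ : ℂ, FF ρ = 0 → ρ.re ≤ Θ) {θ' : ℝ} (h1 : Θ < θ')
    (h2 : θ' ≤ 1) : ∃ C : ℝ, 0 < C ∧ ∀ y : ℝ, 1 ≤ y → |Chebyshev.psi y - y| ≤ C * y ^ θ' := by
  refine W190.psi_of_free Θ h0 (fun s hs hz => ?_) θ' h1 h2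
  by_cases h : s = 1
  · rw [h] at hz
    exact riemannZeta_one_ne_zero hz
  · have h3 : FF s = 0 := by
      rw [show FF s = (s - 1) * riemannZeta s from ZU.J_g2b.FF_ne h, hz, mul_zero]
    have := hΘ s h3
    linarith

theorem theta_free {Θ : ℝ} (h0 : 1 / 2 ≤ Θ) (hΘ : ∀ ρ : ℂ, FF ρ = 0 → ρ.re ≤ Θ) {θ' : ℝ} (h1 : Θ < θ')
    (h2 : θ' ≤ 1) : ∃ C : ℝ, 0 < C ∧ ∀ y : ℝ, 1 ≤ y → |Chebyshev.theta y - y| ≤ C * y ^ θ' := by
  obtain ⟨C, hC, h⟩ := psi_free h0 hΘ h1 h2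
  obtain ⟨C4, hC4⟩ := Chebyshev.psi_sub_theta_le_mul_sqrt
  refine ⟨C + |C4|, by positivity, fun y hy => ?_⟩
  have a1 := h y hy
  have a2 := hC4 y
  have a3 := Chebyshev.theta_le_psi y
  have a4 : Real.sqrt y ≤ y ^ θ' := by
    rw [Real.sqrt_eq_rpow]
    exact Real.rpow_le_rpow_of_exponent_le hy (by linarith)
  have a5 : 0 ≤ Real.sqrt y := Real.sqrt_nonneg y
  have a6 : C4 * Real.sqrt y ≤ |C4| * y ^ θ' := by
    have := le_abs_self C4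
    have := abs_nonneg C4
    gcongr
  rw [abs_le] at a1 ⊢
  have a7 : 0 ≤ |C4| * y ^ θ' := by positivity
  constructor <;> nlinarith

theorem epsi_exp {Θ : ℝ} (h0 : 1 / 2 ≤ Θ) (hΘ : ∀ ρ : ℂ, FF ρ = 0 → ρ.re ≤ Θ) {η : ℝ} (h1 : η < 1 - Θ)
    (h2 : 0 ≤ η) : ∃ C : ℝ, 0 < C ∧ ∀ t, 1 < t → |epsi t| ≤ C * Real.exp (-η * t) := by
  obtain ⟨C, hC, h⟩ := psi_free h0 hΘ (θ' := 1 - η) (by linarith) (by linarith)
  refine ⟨C, hC, fun t ht => ?_⟩
  have a1 := h (Real.exp t) (Real.one_le_exp (by linarith))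
  have h2 := Real.exp_pos t
  have h3 : epsi t = (Chebyshev.psi (Real.exp t) - Real.exp t) / Real.exp t := by
    unfold epsi
    rw [Real.exp_neg]
    field_simp
  rw [h3, abs_div, abs_of_pos h2, div_le_iff₀ h2]
  refine a1.trans (le_of_eq ?_)
  rw [← Real.exp_mul, mul_assoc, ← Real.exp_add]
  congr 2
  ring

theorem ethe_exp {Θ : ℝ} (h0 : 1 / 2 ≤ Θ) (hΘ : ∀ ρ : ℂ, FF ρ = 0 → ρ.re ≤ Θ) {η : ℝ} (h1 : η < 1 - Θ)
    (h2 : 0 ≤ η) : ∃ C : ℝ, 0 < C ∧ ∀ t, 1 < t → |ethe t| ≤ C * Real.exp (-η * t) := by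
  obtain ⟨C, hC, h⟩ := theta_free h0 hΘ (θ' := 1 - η) (by linarith) (by linarith)
  refine ⟨C, hC, fun t ht => ?_⟩
  have a1 := h (Real.exp t) (Real.one_le_exp (by linarith))
  have h2 := Real.exp_pos t
  have h3 : ethe t = (Chebyshev.theta (Real.exp t) - Real.exp t) / Real.exp t := by
    unfold ethe
    rw [Real.exp_neg]
    field_simp
  rw [h3, abs_div, abs_of_pos h2, div_le_iff₀ h2]
  refine a1.trans (le_of_eq ?_)
  rw [← Real.exp_mul, mul_assoc, ← Real.exp_add]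
  congr 2
  ring

/-- the contraction factor -/
theorem kappa {δ : ℝ} (h0 : 0 < δ) (h1 : δ < 1) : ∃ κ : ℝ, 0 < κ ∧ κ < 1 ∧ (1 + δ) * Real.exp (-δ) ≤ κ ∧
    (1 - δ) * Real.exp δ ≤ κ := by
  have a1 : (1 + δ) * Real.exp (-δ) < 1 := by
    have h2 : 1 + δ < Real.exp δ := by
      have := Real.add_one_lt_exp h0.ne'
      linarith
    rw [Real.exp_neg, ← div_eq_mul_inv, div_lt_one (Real.exp_pos δ)]
    exact h2
  have a2 : (1 - δ) * Real.exp δ < 1 := by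
    have h2 : 1 - δ < Real.exp (-δ) := by
      have := Real.add_one_lt_exp (x := -δ) (by linarith)
      linarith
    have h3 : Real.exp δ = (Real.exp (-δ))⁻¹ := by rw [Real.exp_neg, inv_inv]
    rw [h3, ← div_eq_mul_inv, div_lt_one (Real.exp_pos _)]
    exact h2
  refine ⟨max ((1 + δ) * Real.exp (-δ)) ((1 - δ) * Real.exp δ), ?_, max_lt a1 a2, le_max_left _ _, le_max_right _ _⟩
  exact lt_of_lt_of_le (by positivity) (le_max_left _ _)

/-- windows, quantitative form -/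
theorem window_psi {ρ0 : ℂ} (h0 : FF ρ0 = 0) (hβ : 1 / 2 < ρ0.re) {Θ g : ℝ} (hg : 0 < g)
    (hgz : ∀ ρ : ℂ, FF ρ = 0 → 0 < ρ.re → g ≤ |ρ.im|) (hΘ : ∀ ρ : ℂ, FF ρ = 0 → ρ.re ≤ Θ)
    (hΘ1 : Θ ≤ 1) (hclose : 4 * (Θ - ρ0.re) < g ^ 2) {K η δ κ b1 : ℝ} (hK0 : 0 < K) (hη : 0 ≤ η)
    (hK : ∀ t, 1 < t → |bb epsi t| ≤ K * Real.exp (-η * t)) (hδ : 0 < δ) (hδ1 : δ < 1)
    (hκ0 : 0 < κ) (hκ1 : κ < 1) (hκ2 : (1 + δ) * Real.exp (-δ) ≤ κ) (hκ3 : (1 - δ) * Real.exp δ ≤ κ)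
    (hcond : (1 - ρ0.re) - η < (1 - κ) / 2) (hb1 : 1 - ρ0.re < b1) (δ' : ℝ) (hδ' : δ < δ') :
    ∀ᶠ v : ℝ in atTop, ∃ t, 1 < t ∧ (1 - δ') * v ≤ t ∧ t ≤ (1 + δ') * v ∧ Real.exp (-b1 * t) ≤ bb epsi t := by
  obtain ⟨s, ρ1, R, hρ1, hρ10, hr1, hr2, hdR, hd0, hdle, hrR, hz1, hz2⟩ := centre h0 hβ hg hgz hΘ hΘ1 hclose
  have hβ1 : ρ0.re < 1 := ZU.J_g2b.FF_zero_re h0
  have hs : 0 < s.re := by linarith
  have hR : 0 < R := by linarith
  obtain ⟨a, M, ha, hM, hbd⟩ := one_zero hs hR hρ1 hρ10 hz1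
  obtain ⟨c, hc, hev⟩ := cplx_center epsi_adm hs (fun h => by rw [h] at hd0; simp at hd0) hdR ha hM hbd
  obtain ⟨M1, hM1, hbd1⟩ := real_zero_free (s := (s.re : ℂ)) (by simpa using hs) hR hz2
  obtain ⟨M2, hM2, hbd2⟩ := real_center epsi_adm hs hrR hM1 hbd1
  set d : ℝ := ‖s - (ρ1 - 1)‖ with hd
  -- comparison
  have hx : 0 < d / R := by positivity
  have hx1 : d / R < 1 := by rw [div_lt_one hR]; exact hdR
  have hsg := sq_geo hx hx1 M2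
  have hev2 : ∀ᶠ m : ℕ in atTop, ((m : ℝ) + 1) ^ 2 * (M2 * (d / R) ^ m) < c / 2 :=
    hsg.eventually (gt_mem_nhds (by positivity))
  obtain ⟨N1, hN1⟩ := eventually_atTop.1 hev
  obtain ⟨N2, hN2⟩ := eventually_atTop.1 hev2
  obtain ⟨Kb, hKb⟩ : ∃ Kb : ℝ, ∀ t, 1 < t → |bb epsi t| ≤ Kb :=
    ⟨_, fun t _ => bb_bdd epsi_adm t⟩
  have hPM : ∀ᶠ n : ℕ in atTop, ∃ m : ℕ, (m = n + 1 ∨ m = n + 2) ∧
      (c / 4) * m.factorial / ((m + 1) ^ 2 * d ^ m) ≤ PM (bb epsi) m s.re := by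
    filter_upwards [eventually_ge_atTop (N1 + N2)] with n hn
    obtain ⟨m, hm, hm2⟩ := hN1 n (by omega)
    refine ⟨m, hm, ?_⟩
    have h3 := hN2 m (by rcases hm with h | h <;> omega)
    have h4 := pos_part (bb_cont epsi_adm).measurable hKb m hs
    have h5 := hbd2 m
    have hfp : (0:ℝ) < m.factorial := by exact_mod_cast m.factorial_pos
    have hm1 : (0:ℝ) < (m + 1) ^ 2 := by positivity
    have hdm : 0 < d ^ m := by positivity
    have h6 : M2 * m.factorial / R ^ m = (((m : ℝ) + 1) ^ 2 * (M2 * (d / R) ^ m)) * (m.factorial / ((m + 1) ^ 2 * d ^ m)) := by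
      rw [div_pow]
      field_simp
    set X : ℝ := m.factorial / ((m + 1) ^ 2 * d ^ m) with hX
    have hX0 : 0 < X := by positivity
    have h7 := mul_lt_mul_of_pos_right h3 hX0
    rw [h6] at h5
    rw [show c * m.factorial / ((m + 1) ^ 2 * d ^ m) = c * X by rw [hX]; ring] at hm2
    rw [show (c / 4) * m.factorial / ((m + 1) ^ 2 * d ^ m) = (c / 4) * X by rw [hX]; ring]
    linarith
  have hdκ : d * κ < s.re + η := by
    have h1 : d * κ ≤ (s.re + 1 - ρ0.re) * κ := mul_le_mul_of_nonneg_right hdle hκ0.le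
    have h2 : (1 - ρ0.re) * κ ≤ 1 - ρ0.re := by nlinarith
    nlinarith
  refine window_v (bb_cont epsi_adm).measurable hK0 hK hs hδ hδ1 (by linarith) hd0 (by linarith) (by positivity : 0 < c / 4)
    (lt_of_le_of_lt (mul_le_mul_of_nonneg_left hκ2 hd0.le) hdκ)
    (lt_of_le_of_lt (mul_le_mul_of_nonneg_left hκ3 hd0.le) hdκ) hPM δ' hδ'

theorem bb_mono {e f : ℝ → ℝ} (he : Adm e) (hf : Adm f) (h : ∀ t, 1 < t → f t ≤ e t) (v : ℝ) : bb e v ≤ bb f v := by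
  unfold bb
  refine neg_le_neg (integral_mono hf.int.integrableOn he.int.integrableOn fun t => ?_)
  unfold ew
  by_cases ht : t ∈ Ioi (1:ℝ)
  · rw [indicator_of_mem ht, indicator_of_mem ht]
    have ht1 : 1 < t := ht
    exact mul_le_mul_of_nonneg_right (h t ht1) (wt_pos ht1.le).le
  · rw [indicator_of_notMem ht, indicator_of_notMem ht]

theorem ethe_le_epsi (t : ℝ) : ethe t ≤ epsi t := by
  unfold ethe epsi
  have := Chebyshev.theta_le_psi (Real.exp t)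
  have := Real.exp_pos (-t)
  nlinarith

/-- large positive values of the tail integral, if the supremum of the real parts exceeds `1 / 2` -/
theorem window_big {Θ : ℝ} (hΘ0 : 1 / 2 < Θ) (hΘ1 : Θ ≤ 1) (hΘ : ∀ ρ : ℂ, FF ρ = 0 → ρ.re ≤ Θ)
    (hsup : ∀ ε : ℝ, 0 < ε → ∃ ρ : ℂ, FF ρ = 0 ∧ Θ - ε < ρ.re) {b1 : ℝ} (hb1 : 1 - Θ < b1) {δ : ℝ} (hδ : 0 < δ)
    (hδ1 : δ < 1) :
    ∀ᶠ v : ℝ in atTop, ∃ t, 1 < t ∧ (1 - δ) * v ≤ t ∧ t ≤ (1 + δ) * v ∧ Real.exp (-b1 * t) ≤ bb ethe t := by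
  obtain ⟨g, hg, hgz⟩ := gamma_min
  obtain ⟨κ, hκ0, hκ1, hκ2, hκ3⟩ := kappa (δ := δ / 2) (by linarith) (by linarith)
  set ε : ℝ := min (min ((1 - κ) / 8) (g ^ 2 / 8)) (min (Θ - 1 / 2) (b1 - (1 - Θ))) with hε
  have hε0 : 0 < ε := by
    refine lt_min (lt_min (by linarith) (by positivity)) (lt_min (by linarith) (by linarith))
  have e1 : ε ≤ (1 - κ) / 8 := (min_le_left _ _).trans (min_le_left _ _)
  have e2 : ε ≤ g ^ 2 / 8 := (min_le_left _ _).trans (min_le_right _ _)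
  have e3 : ε ≤ Θ - 1 / 2 := (min_le_right _ _).trans (min_le_left _ _)
  have e4 : ε ≤ b1 - (1 - Θ) := (min_le_right _ _).trans (min_le_right _ _)
  obtain ⟨ρ0, hρ0, hρ0re⟩ := hsup ε hε0
  -- decay
  obtain ⟨K, η, hK0, hη, hη2, hK⟩ : ∃ K η : ℝ, 0 < K ∧ 0 ≤ η ∧ 1 - Θ - ε ≤ η ∧
      ∀ t, 1 < t → |bb epsi t| ≤ K * Real.exp (-η * t) := by
    by_cases h : 1 - Θ - ε ≤ 0
    · refine ⟨(∫ t, |ew epsi t|) + 1, 0, ?_, le_rfl, h, fun t _ => ?_⟩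
      · have : 0 ≤ ∫ t, |ew epsi t| := integral_nonneg fun t => abs_nonneg _
        linarith
      · have := bb_bdd epsi_adm t
        simp
        linarith
    · push Not at h
      obtain ⟨C, hC, hCe⟩ := epsi_exp hΘ0.le hΘ (η := 1 - Θ - ε) (by linarith) h.le
      exact ⟨2 * C / (1 - Θ - ε), 1 - Θ - ε, by positivity, h.le, le_rfl,
        fun t ht => bb_decay epsi_adm h hC hCe t ht.le⟩
  have key := window_psi hρ0 (by linarith) hg hgz hΘ hΘ1 (by linarith) hK0 hη hK (by linarith : 0 < δ / 2)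
    (by linarith) hκ0 hκ1 hκ2 hκ3 (by linarith) (b1 := b1) (by linarith) δ (by linarith)
  filter_upwards [key] with v hv
  obtain ⟨t, h1, h2, h3, h4⟩ := hv
  exact ⟨t, h1, h2, h3, h4.trans (bb_mono epsi_adm ethe_adm (fun t _ => ethe_le_epsi t) t)⟩

end

end Pool.Agent.R303.Rob
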